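import Pool.Agent.Q161.OD.Ar3

/-! # Project OD: the pairs with fixed `α` -/

set_option autoImplicit false

namespace Pool.Agent.Q161.OD

open Polynomial NumberField IsDedekindDomain
open Pool.Agent.W623.SecC (IsU isU_one)
open Pool.Agent.Q51.EL
open Pool.Agent.Q161.SX

universe u v w

section dvg

open Classical in
theorem Dvg.diff' {P Q : Set ℕ} (hP : Dvg P) {B : ℕ} (hB : B ≠ 0) (hQ : ∀ l, l ∈ Q ↔ l ∈ P ∧ ¬ l ∣ B) :
    Dvg Q := by
  refine ⟨fun l hl => hP.1 l ((hQ l).1 hl).1, fun R => ?_⟩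
  obtain ⟨Y, hY⟩ := hP.2 (R + B.divisors.card)
  refine ⟨Y, ?_⟩
  have h1 : ((pr Y).filter (fun l => l ∈ P)) ⊆
      ((pr Y).filter (fun l => l ∈ Q)) ∪ B.divisors := by
    intro l hl
    rw [Finset.mem_filter] at hl
    rw [Finset.mem_union, Finset.mem_filter, Nat.mem_divisors, hQ]
    by_cases h : l ∣ B
    · exact Or.inr ⟨h, hB⟩
    · exact Or.inl ⟨hl.1, hl.2, h⟩
  have h2 : ∑ l ∈ (pr Y).filter (fun l => l ∈ P), (1 : ℝ) / l ≤
      ∑ l ∈ ((pr Y).filter (fun l => l ∈ Q)) ∪ B.divisors, (1 : ℝ) / l :=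
    Finset.sum_le_sum_of_subset_of_nonneg h1 fun l _ _ => by positivity
  have h3 : ∑ l ∈ ((pr Y).filter (fun l => l ∈ Q)) ∪ B.divisors, (1 : ℝ) / l ≤
      ∑ l ∈ (pr Y).filter (fun l => l ∈ Q), (1 : ℝ) / l +
        ∑ l ∈ B.divisors, (1 : ℝ) / l := by
    rw [← Finset.sum_union_inter]
    have : 0 ≤ ∑ l ∈ (((pr Y).filter (fun l => l ∈ Q)) ∩ B.divisors),
        (1 : ℝ) / l := Finset.sum_nonneg fun l _ => by positivity
    linarith
  have h4 : ∑ l ∈ B.divisors, (1 : ℝ) / l ≤ B.divisors.card := by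
    calc ∑ l ∈ B.divisors, (1 : ℝ) / l ≤ ∑ l ∈ B.divisors, (1 : ℝ) := by
          refine Finset.sum_le_sum fun l hl => ?_
          rcases Nat.eq_zero_or_pos l with rfl | h
          · simp
          · exact (div_le_one₀ (by exact_mod_cast h)).2 (by exact_mod_cast h)
      _ = B.divisors.card := by simp
  linarith

theorem Dvg.diff {P : Set ℕ} (hP : Dvg P) {B : ℕ} (hB : B ≠ 0) : Dvg {l | l ∈ P ∧ ¬ l ∣ B} :=
  hP.diff' hB fun _ => Iff.rfl

theorem dvg_of_primes {P : Set ℕ} (hP : ∀ l, l ∈ P ↔ l.Prime) : Dvg P := by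
  classical
  refine ⟨fun l hl => (hP l).1 hl, fun R => ?_⟩
  by_contra hc
  push Not at hc
  apply Nat.Primes.not_summable_one_div
  refine summable_of_sum_le (c := R) (fun l => by positivity) ?_
  intro s
  obtain ⟨n, hn⟩ := (s.image (fun l : Nat.Primes => (l : ℕ))).exists_nat_subset_range
  refine le_trans ?_ (hc n).le
  have h1 : ∑ i ∈ s, (1 : ℝ) / (i : ℕ) = ∑ l ∈ s.image (fun l : Nat.Primes => (l : ℕ)), (1 : ℝ) / l := by
    rw [Finset.sum_image]
    intro a _ b _ h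
    exact Subtype.ext h
  rw [h1]
  refine Finset.sum_le_sum_of_subset_of_nonneg ?_ fun l _ _ => by positivity
  intro l hl
  have h2 := Finset.mem_range.1 (hn hl)
  obtain ⟨a, ha, rfl⟩ := Finset.mem_image.1 hl
  rw [Finset.mem_filter, hP]
  refine ⟨?_, a.2⟩
  unfold pr
  rw [Finset.mem_filter, Finset.mem_Icc, Nat.floor_natCast]
  exact ⟨⟨a.2.one_lt.le, h2.le⟩, a.2⟩

theorem dvg_primes : Dvg {l : ℕ | l.Prime} := dvg_of_primes fun _ => Iff.rfl

end dvg

section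

variable {h : ℤ[X]} {A : Type} [Field A] [Algebra ℚ A]
  {L : Type} [Field L] [NumberField L]

variable {θ : L} {P : ℕ → ValuationSubring A} {Φ : ℕ → (A ≃ₐ[ℚ] A)} {J : Rt h A → (L →ₐ[ℚ] A)}
  {B : ℕ}

theorem spl_normal (f : ℤ[X]) [IsAlgClosure ℚ A] : Normal ℚ (spl f A) := by
  have : Normal ℚ A := IsAlgClosure.normal ℚ A
  have halg : Algebra.IsAlgebraic ℚ A := IsAlgClosure.isAlgebraic
  have h1 : (DivisionRing.toRatAlgebra : Algebra ℚ (spl f A)) = (spl f A).algebra' :=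
    Subsingleton.elim _ _
  rw [h1, IntermediateField.normal_iff_forall_map_le]
  rintro σ _ ⟨z, hz, rfl⟩
  have h1 : Function.Bijective σ := Algebra.IsAlgebraic.algHom_bijective σ
  exact spl_conj (AlgEquiv.ofBijective σ h1) hz

theorem mem_spl_of_fixed (f : ℤ[X]) [IsAlgClosure ℚ A] {z : A}
    (hz : ∀ σ ∈ (spl f A).fixingSubgroup, σ z = z) : z ∈ spl f A := by
  have : Normal ℚ A := IsAlgClosure.normal ℚ A
  have : IsGalois ℚ A := ⟨⟩
  rw [← InfiniteGalois.fixedField_fixingSubgroup (spl f A)]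
  exact fun σ => hz σ.1 σ.2

theorem tp_thin (hCHB : S_CHB) (h0 : h.coeff 0 ≠ 0) [IsAlgClosure ℚ A]
    (hf0 : (X * h : ℤ[X]) ≠ 0) (hB : B ≠ 0)
    (p : (Rt (X * h) A → A) × ((A ≃ₐ[ℚ] A) → Rt (X * h) A → A)) (α : 𝓞 L) :
    ∃ P' : Set ℕ, Dvg P' ∧ ∀ m : ℤ, (α, m) ∈ TP.{v} h A L P Φ J B p → ∀ l ∈ P', ¬ (l : ℤ) ∣ m := by
  have hcl : IsAlgClosed A := IsAlgClosure.isAlgClosed ℚ
  have halg : Algebra.IsAlgebraic ℚ A := IsAlgClosure.isAlgebraic
  have hch : CharZero A := algebraRat.charZero A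
  have hfd : FiniteDimensional ℚ (spl (X * h) A) := spl_fd hf0
  by_cases hne : ∃ m0, (α, m0) ∈ TP.{v} h A L P Φ J B p
  swap
  · push Not at hne
    exact ⟨_, dvg_primes, fun m hm => absurd hm (hne m)⟩
  obtain ⟨m0, D0, M0, _, S0, hα0, hA0, -, i, j, hi, hj, hN⟩ := hne
  change α ≠ 0 at hα0
  set i' : Rt h A := ⟨i, hi⟩ with hi'
  set j' : Rt h A := ⟨j, hj⟩ with hj'
  have hi0 : i ≠ 0 := rt_ne0 h0 i'
  have hj0 : j ≠ 0 := rt_ne0 h0 j'
  set q : A := (p.1 (inc i') * J i' (α : L)) / (p.1 (inc j') * J j' (α : L)) * (j / i) with hq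
  have hαL : (α : L) ≠ 0 := fun h => hα0 (RingOfIntegers.coe_eq_zero_iff.1 h)
  have hJα : ∀ i, J i (α : L) ≠ 0 := fun i => (_root_.map_ne_zero (J i)).2 hαL
  have hq0 : q ≠ 0 := mul_ne_zero (div_ne_zero (mul_ne_zero (hA0.t0 _) (hJα _))
    (mul_ne_zero (hA0.t0 _) (hJα _))) (div_ne_zero hj0 hi0)
  -- `q` is not a square
  obtain ⟨w, hw⟩ := IsAlgClosed.exists_pow_nat_eq q (n := 2) (by norm_num)
  have hw0 : w ≠ 0 := by
    rintro rfl
    apply hq0
    rw [← hw]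
    ring
  have hJs : ∀ k, J k (α : L) ∈ spl (X * h) A := by
    intro k
    have h1 := hA0
    have h2 : ∀ σ ∈ (spl (X * h) A).fixingSubgroup, σ (J k (α : L)) = J k (α : L) := by
      intro σ hσ
      have h3 := hA0.eσ σ (inc k)
      have h4 : ra σ (inc k : Rt (X * h) A) = inc k :=
        Subtype.ext ((IntermediateField.mem_fixingSubgroup_iff _ _).1 hσ _ (rt_mem (inc k)))
      rw [h4] at h3
      change σ (ev J α m0 (inc k)) = _ at h3
      rwa [ev_inc] at h3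
    exact mem_spl_of_fixed _ h2
  have hqs : q ∈ spl (X * h) A := by
    refine mul_mem (div_mem (mul_mem (hA0.ts _) (hJs _)) (mul_mem (hA0.ts _) (hJs _)))
      (div_mem ?_ ?_)
    · exact rt_mem (inc j')
    · exact rt_mem (inc i')
  have hwn : w ∉ spl (X * h) A := by
    intro hws
    apply hN
    obtain ⟨β, hβ0, hβF, hβ, hβs⟩ := hA0.ex
    refine ⟨S0.ι w * (β (inc i') / β (inc j')), ?_, ?_⟩
    · rw [div_eq_mul_inv]
      exact S0.fix_mul (S0.fix_ι hws) (S0.fix_mul (hβF _) (S0.fix_inv (hβF _)))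
    · have h1 := hβ (inc i')
      have h2 := hβ (inc j')
      change S0.ι (p.1 (inc i') * (ev J α m0 (inc i') / ev J α m0 r0)) * _ =
        (S0.x - S0.ι i) / _ at h1
      change S0.ι (p.1 (inc j') * (ev J α m0 (inc j') / ev J α m0 r0)) * _ =
        (S0.x - S0.ι j) / _ at h2
      rw [ev_inc] at h1 h2
      have hx : ∀ a : A, S0.x - S0.ι a ≠ 0 := fun a h => S0.htr a (sub_eq_zero.1 h).symm
      have hι : ∀ {a : A}, a ≠ 0 → S0.ι a ≠ 0 := fun h => (_root_.map_ne_zero S0.ι).2 h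
      have hm0 : ev J α m0 r0 ≠ 0 := hA0.e0 r0
      have e1 : S0.ι (p.1 (inc i') * (J i' (α : L) / ev J α m0 r0)) =
          S0.ι (p.1 (inc i') * J i' (α : L)) / S0.ι (ev J α m0 r0) := by
        rw [← map_div₀, mul_div_assoc]
      have e2 : S0.ι (p.1 (inc j') * (J j' (α : L) / ev J α m0 r0)) =
          S0.ι (p.1 (inc j') * J j' (α : L)) / S0.ι (ev J α m0 r0) := by
        rw [← map_div₀, mul_div_assoc]
      rw [e1] at h1
      rw [e2] at h2
      have e3 : S0.ι w ^ 2 = S0.ι (p.1 (inc i') * J i' (α : L)) /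
          S0.ι (p.1 (inc j') * J j' (α : L)) * S0.ι (j / i) := by
        rw [← map_pow, hw, hq, map_mul, map_div₀]
      have f1 := hι (mul_ne_zero (hA0.t0 (inc i')) (hJα i'))
      have f2 := hι (mul_ne_zero (hA0.t0 (inc j')) (hJα j'))
      have f3 := hι hm0
      have f4 := hβ0 (inc i')
      have f5 := hβ0 (inc j')
      have f6 := hx i
      have f7 := hx j
      have f8 := hx (r0 : Rt (X * h) A).1
      have g1 : β (inc i') ^ 2 = (S0.x - S0.ι i) / (S0.x - S0.ι (r0 : Rt (X * h) A).1) *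
          S0.ι (ev J α m0 r0) / S0.ι (p.1 (inc i') * J i' (α : L)) := by
        rw [← h1]
        field_simp
      have g2 : β (inc j') ^ 2 = (S0.x - S0.ι j) / (S0.x - S0.ι (r0 : Rt (X * h) A).1) *
          S0.ι (ev J α m0 r0) / S0.ι (p.1 (inc j') * J j' (α : L)) := by
        rw [← h2]
        field_simp
      rw [mul_pow, div_pow, e3, g1, g2]
      field_simp
  have hC := hCHB A (spl (X * h) A) hfd (spl_normal _) w (by rw [hw]; exact hqs) hwn
  refine ⟨_, hC.diff hB, ?_⟩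
  rintro m ⟨D, M, _, S, -, hA, hBel, -⟩ l ⟨⟨hl, V, φ, hV, hφ, hfix, hφw⟩, hlB⟩ hlm
  change (l : ℤ) ∣ m at hlm
  have hd := (bel2_of_dvd hBel hl hlB hlm).2 V φ hV hφ
  obtain ⟨β, hβ0, hβF, hβ, hβs⟩ := hA.ex
  obtain ⟨γ, hγ0, hγ⟩ := hd.can
  obtain ⟨ρ, hρ1, hρ2, hρ3⟩ := exists_rhoE φ r0 r0 (ev J α m) p.1 (p.2 φ) S β γ hA.e0 hA.t0 hβ0 hγ0
    (ra_r0 _) hβ (hβs φ) hγ
  obtain ⟨h1, h2⟩ := hρ1 (inc i') (inc j') (inc_ne h0 _) (inc_ne h0 _)
  have h3 := hρ2 (inc i') (inc j') (inc_ne h0 _) (inc_ne h0 _)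
  have h4 := (lamE hA).2.2 φ hfix
  have hraf : ∀ k : Rt (X * h) A, ra φ k = k := fun k =>
    Subtype.ext ((IntermediateField.mem_fixingSubgroup_iff _ _).1 hfix _ (rt_mem k))
  have hlam : ∀ k, p.2 φ k ≠ 0 := by
    intro k h
    have h1 := hβs φ k
    rw [h, map_zero, zero_mul] at h1
    exact mul_ne_zero ((_root_.map_ne_zero _).2 (hβ0 k)) (hβ0 _) h1
  rw [hraf, hraf, h4 (inc i') (inc j'), div_self (hlam _), one_mul] at h3
  rw [ev_inc, ev_inc] at h2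
  change ρ (inc i') (inc j') ^ 2 = (0 - i) / (0 - j) *
    (p.1 (inc j') * J j' (α : L) / (p.1 (inc i') * J i' (α : L))) at h2
  rw [zero_sub, zero_sub, neg_div_neg_eq] at h2
  have h5 : (ρ (inc i') (inc j') * w) ^ 2 = 1 ^ 2 := by
    rw [mul_pow, h2, hw, hq]
    have f1 := hA0.t0 (inc i')
    have f2 := hA0.t0 (inc j')
    have f3 := hJα i'
    have f4 := hJα j'
    field_simp
  have h6 : φ (ρ (inc i') (inc j') * w) = ρ (inc i') (inc j') * w := by
    rcases sq_eq_sq_iff_eq_or_eq_neg.1 h5 with h7 | h7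
    · rw [h7, map_one]
    · rw [h7, map_neg, map_one]
  rw [map_mul, h3, hφw] at h6
  have h7 : 2 * (ρ (inc i') (inc j') * w) = 0 := by linear_combination -h6
  rcases mul_eq_zero.1 h7 with h8 | h8
  · exact two_ne_zero h8
  · exact mul_ne_zero h1 hw0 h8

end

end Pool.Agent.Q161.OD
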