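import Pool.Agent.H491R3.SqfCount
import Pool.Agent.Q161.SX.Top

/-! # The squarefree integers have positive lower density -/

set_option autoImplicit false

namespace Pool.Agent.Q161.OD

open Finset Filter

theorem sqf_lower : ∃ X0 : ℝ, ∀ X : ℝ, X0 ≤ X →
    X / 40 ≤ (({D : ℤ | (D.natAbs : ℝ) ≤ X ∧ Squarefree D}.ncard : ℕ) : ℝ) := by
  classical
  refine ⟨10 ^ 6, fun X hX => ?_⟩
  have hX0 : (0 : ℝ) ≤ X := by linarith
  obtain ⟨b, hb⟩ : ∃ b : ℕ, b = ⌊X⌋₊ := ⟨_, rfl⟩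
  have hb1 : (b : ℝ) ≤ X := by rw [hb]; exact Nat.floor_le hX0
  have hb2 : X < b + 1 := by rw [hb]; exact Nat.lt_floor_add_one X
  obtain ⟨K, hK⟩ : ∃ K : ℕ, K = Nat.sqrt b + 3 := ⟨_, rfl⟩
  have hK2 : b ≤ K ^ 2 := by
    have h1 := Nat.lt_succ_sqrt b
    rw [hK]
    nlinarith
  have h1 := Pool.Agent.H491R3.sqf_count (a := 0) (b := b) (K := K) (Nat.zero_le _) hK2 (by omega)
  have hKb : (K : ℝ) ≤ b / 100 := by
    have h2 : (Nat.sqrt b : ℝ) ^ 2 ≤ b := by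
      exact_mod_cast Nat.sqrt_le' b
    have h3 : (10 ^ 6 : ℝ) - 1 ≤ b := by linarith
    have h4 : (0 : ℝ) ≤ Nat.sqrt b := by positivity
    have h5 : (K : ℝ) = Nat.sqrt b + 3 := by rw [hK]; push_cast; ring
    rw [h5]
    nlinarith [sq_nonneg ((Nat.sqrt b : ℝ) - 100)]
  have h2 : (#{x ∈ Ioc 0 b | Odd x ∧ Squarefree x} : ℕ) ≤
      {D : ℤ | (D.natAbs : ℝ) ≤ X ∧ Squarefree D}.ncard := by
    rw [← Set.ncard_coe_finset]
    refine Set.ncard_le_ncard_of_injOn (fun m : ℕ => (m : ℤ)) ?_ ?_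
      (Pool.Agent.Q161.SX.natAbs_finite X _)
    · intro m hm
      rw [Finset.mem_coe, Finset.mem_filter, Finset.mem_Ioc] at hm
      refine ⟨?_, ?_⟩
      · rw [Int.natAbs_natCast]
        have : (m : ℝ) ≤ b := by exact_mod_cast hm.1.2
        linarith
      · rw [← Int.squarefree_natAbs, Int.natAbs_natCast]
        exact hm.2.2
    · intro m _ m' _ h
      exact Nat.cast_injective (R := ℤ) h
  have h3 : ((#{x ∈ Ioc 0 b | Odd x ∧ Squarefree x} : ℕ) : ℝ) ≤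
      (({D : ℤ | (D.natAbs : ℝ) ≤ X ∧ Squarefree D}.ncard : ℕ) : ℝ) := by exact_mod_cast h2
  push_cast at h1
  have h4 : (10 ^ 6 : ℝ) - 1 ≤ b := by linarith
  linarith

/-- from `≤ ε X` to density zero among the squarefree integers -/
theorem tendsto_of_le (P : ℤ → Prop) (h : ∀ ε : ℝ, 0 < ε → ∃ X0 : ℝ, ∀ X : ℝ, X0 ≤ X →
      (({D : ℤ | (D.natAbs : ℝ) ≤ X ∧ Squarefree D ∧ P D}.ncard : ℕ) : ℝ) ≤ ε * X) :
    Tendsto (fun X : ℝ => (({D : ℤ | (D.natAbs : ℝ) ≤ X ∧ Squarefree D ∧ P D}.ncard : ℕ) : ℝ) /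
      (({D : ℤ | (D.natAbs : ℝ) ≤ X ∧ Squarefree D}.ncard : ℕ) : ℝ)) atTop (nhds 0) := by
  obtain ⟨X1, h1⟩ := sqf_lower
  rw [Metric.tendsto_atTop]
  intro ε hε
  obtain ⟨X0, h0⟩ := h (ε / 80) (by positivity)
  refine ⟨max (max X0 X1) 1, fun X hX => ?_⟩
  have hX0 : X0 ≤ X := ((le_max_left _ _).trans (le_max_left _ _)).trans hX
  have hX1 : X1 ≤ X := ((le_max_right _ _).trans (le_max_left _ _)).trans hX
  have hX2 : 1 ≤ X := (le_max_right _ _).trans hX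
  have h2 := h0 X hX0
  have h3 := h1 X hX1
  rw [Real.dist_eq, sub_zero, abs_of_nonneg (by positivity)]
  have h4 : (0 : ℝ) < (({D : ℤ | (D.natAbs : ℝ) ≤ X ∧ Squarefree D}.ncard : ℕ) : ℝ) := by
    refine lt_of_lt_of_le ?_ h3
    positivity
  rw [div_lt_iff₀ h4]
  nlinarith

end Pool.Agent.Q161.OD
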