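import Pool.Agent.Q161.OD.Ar5
import Pool.Agent.Q161.SX.All
import Pool.Agent.Q211.OD.SIEVE2
import Pool.Agent.Q277.OD.Cnt2
import Pool.Agent.Q26.OD.Core2
import Pool.Agent.Q26.OD.Cta
import Pool.Agent.Q277.OD.Ctb
import Pool.Agent.Q211.OD.CT
import Pool.Agent.Q225.OD.Z1
import Pool.Agent.Q224.OD.CHB
import Pool.Agent.Q111.OD.FIN2

/-! # Project OD: the count, all parts -/

set_option autoImplicit false

namespace Pool.Agent.Q161.OD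

open Pool.Agent.Q51.EL
open Pool.Agent.Q161.SX

universe u v w

theorem t_ar2 : S_AR2.{v} :=
  ar2 Pool.Agent.Q150.SX.plc Pool.Agent.Q150.SX.cnj t_prm (Pool.Agent.Q38.SX.evn t_prm)
    Pool.Agent.Q162.SX.dst Pool.Agent.Q162.SX.nrm (Pool.Agent.Q38.SX.clu Pool.Agent.Q239.EL.un)
    (Pool.Agent.Q38.SX.sel Pool.Agent.Q239.EL.cl Pool.Agent.Q239.EL.un) Pool.Agent.Q150.SX.kum
    Pool.Agent.Q150.SX.tfn (Pool.Agent.Q68.SX.res Pool.Agent.Q162.SX.dst)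
    (Pool.Agent.Q239.EL.root Pool.Agent.Q91.EL.ram) Pool.Agent.Q224.OD.chb

theorem t_core2 : S_CORE2 :=
  Pool.Agent.Q26.OD.core2 Pool.Agent.Q211.OD.sieve2 Pool.Agent.Q91.EL.sums
    Pool.Agent.Q277.OD.cnt2 Pool.Agent.Q91.EL.ram Pool.Agent.Q247.EL.m1
    (Pool.Agent.Q154.EL.m2 Pool.Agent.Q247.EL.m1 Pool.Agent.Q91.EL.ram)

/-- the count for one set of pairs -/
theorem t_ct : S_CT :=
  Pool.Agent.Q211.OD.ct (Pool.Agent.Q26.OD.cta t_core) (Pool.Agent.Q277.OD.ctb t_core2)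
    Pool.Agent.Q225.OD.z1

theorem t_fin2 : S_FIN2.{v} := Pool.Agent.Q111.OD.fin2 t_ar2 t_ct

end Pool.Agent.Q161.OD
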