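import Pool.Agent.Q161.OD.TyE

/-! # Project OD: the pair attached to a section -/

set_option autoImplicit false

namespace Pool.Agent.Q161.OD

open Polynomial NumberField IsDedekindDomain
open Pool.Agent.W623.SecC (IsU isU_one)
open Pool.Agent.Q51.EL
open Pool.Agent.W620.SC (root_mem)
open Pool.Agent.Q161.SX

universe u v w

section zeros

variable {h : ℤ[X]} {A : Type u} [Field A]

/-- the zero `0` of `X h` -/
def r0 : Rt (X * h) A := ⟨0, by rw [map_mul, aeval_X, zero_mul]⟩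

/-- the zeros of `h` as zeros of `X h` -/
def inc (k : Rt h A) : Rt (X * h) A := ⟨k.1, by rw [map_mul, k.2, mul_zero]⟩

@[simp] theorem r0_val : (r0 : Rt (X * h) A).1 = 0 := rfl

@[simp] theorem inc_val (k : Rt h A) : (inc k : Rt (X * h) A).1 = k.1 := rfl

theorem rt_cases (i : Rt (X * h) A) : i = r0 ∨ ∃ k : Rt h A, i = inc k := by
  have h1 := i.2
  rw [map_mul, aeval_X] at h1
  rcases mul_eq_zero.1 h1 with h2 | h2
  · exact Or.inl (Subtype.ext h2)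
  · exact Or.inr ⟨⟨i.1, h2⟩, Subtype.ext rfl⟩

theorem inc_inj {k k' : Rt h A} (hk : (inc k : Rt (X * h) A) = inc k') : k = k' := by
  have h1 : (inc k : Rt (X * h) A).1 = (inc k' : Rt (X * h) A).1 := congrArg _ hk
  exact Subtype.ext h1

variable [Algebra ℚ A]

theorem aeval_zero_ne (h0 : h.coeff 0 ≠ 0) : ¬ aeval (0 : A) h = 0 := by
  have : CharZero A := algebraRat.charZero A
  intro h1
  have h3 : aeval (0 : A) h = ((h.coeff 0 : ℤ) : A) := by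
    rw [← coeff_zero_eq_aeval_zero']
    rfl
  rw [h3] at h1
  apply h0
  exact_mod_cast h1

theorem inc_ne (h0 : h.coeff 0 ≠ 0) (k : Rt h A) : (inc k : Rt (X * h) A) ≠ r0 := by
  intro hk
  apply aeval_zero_ne (A := A) h0
  have h1 : k.1 = 0 := congrArg Subtype.val hk
  have h2 := k.2
  rwa [h1] at h2

theorem rt_ne0 (h0 : h.coeff 0 ≠ 0) (k : Rt h A) : k.1 ≠ 0 := fun hk =>
  inc_ne h0 k (Subtype.ext hk)

theorem ra_r0 (σ : A ≃ₐ[ℚ] A) : ra σ (r0 : Rt (X * h) A) = r0 := Subtype.ext (map_zero σ)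

theorem ra_inc (σ : A ≃ₐ[ℚ] A) (k : Rt h A) : ra σ (inc k : Rt (X * h) A) = inc (ra σ k) :=
  Subtype.ext rfl

end zeros

section

variable {h : ℤ[X]} {A : Type} {M : Type v} [Field A] [Algebra ℚ A] [Field M]
  {L : Type} [Field L] [NumberField L]

open Classical in
/-- the family attached to the pair `(α, m)` -/
noncomputable def ev (J : Rt h A → (L →ₐ[ℚ] A)) (α : 𝓞 L) (m : ℤ) (i : Rt (X * h) A) : A :=
  if hi : aeval i.1 h = 0 then J ⟨i.1, hi⟩ (α : L) else (m : A)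

theorem ev_r0 (h0 : h.coeff 0 ≠ 0) (J : Rt h A → (L →ₐ[ℚ] A)) (α : 𝓞 L) (m : ℤ) :
    ev J α m r0 = m := by
  unfold ev
  rw [dif_neg]
  exact aeval_zero_ne h0

theorem ev_inc (J : Rt h A → (L →ₐ[ℚ] A)) (α : 𝓞 L) (m : ℤ) (k : Rt h A) :
    ev J α m (inc k) = J k (α : L) := by
  unfold ev
  rw [dif_pos (show aeval (inc k : Rt (X * h) A).1 h = 0 from k.2)]
  rfl

theorem ev_ne (h0 : h.coeff 0 ≠ 0) (J : Rt h A → (L →ₐ[ℚ] A)) {α : 𝓞 L} {m : ℤ} (hα : α ≠ 0)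
    (hm : m ≠ 0) (i : Rt (X * h) A) : ev J α m i ≠ 0 := by
  have : CharZero A := algebraRat.charZero A
  have hαL : (α : L) ≠ 0 := fun h => hα (RingOfIntegers.coe_eq_zero_iff.1 h)
  rcases rt_cases i with rfl | ⟨k, rfl⟩
  · rw [ev_r0 h0]
    exact_mod_cast hm
  · rw [ev_inc]
    exact (_root_.map_ne_zero (J k)).2 hαL

theorem ev_conj {θ : L} (hs : Setup h L θ) (h0 : h.coeff 0 ≠ 0) {J : Rt h A → (L →ₐ[ℚ] A)}
    (hJ : ∀ i, J i θ = i.1) (α : 𝓞 L) (m : ℤ) (σ : A ≃ₐ[ℚ] A) (i : Rt (X * h) A) :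
    σ (ev J α m i) = ev J α m (ra σ i) := by
  rcases rt_cases i with rfl | ⟨k, rfl⟩
  · rw [ra_r0, ev_r0 h0, map_intCast]
  · rw [ra_inc, ev_inc, ev_inc, Setup.conj_emb hs hJ]

/-- the local data at `l`, `l ∣ D`, if the section is concentrated at a zero of `h` -/
structure Dt2 (S : Sec (X * h) A M) (J : Rt h A → (L →ₐ[ℚ] A)) (V : ValuationSubring A)
    (φ : A ≃ₐ[ℚ] A) (l : ℕ) (k : Rt h A) (v0 : HeightOneSpectrum (𝓞 L)) : Prop where
  fix : ra φ k = k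
  ev : ∀ i j a, i ≠ inc k → j ≠ inc k → S.Kc i j a → PV V l a 0
  od : ∀ i a, i ≠ inc k → S.Kc i (inc k) a → PV V l a 1
  can : Can S (inc k) φ
  abv : Abv v0 l
  nrm : Ideal.absNorm v0.asIdeal = l
  mem : ∀ a : 𝓞 L, a ∈ v0.asIdeal ↔ J k (a : L) ∈ V.nonunits

/-- the local data at `l`, `l ∣ D`, if the section is concentrated at the zero `0` -/
structure Dt0 (S : Sec (X * h) A M) (V : ValuationSubring A) (φ : A ≃ₐ[ℚ] A) (l : ℕ) : Prop where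
  ev : ∀ i j a, i ≠ r0 → j ≠ r0 → S.Kc i j a → PV V l a 0
  od : ∀ i a, i ≠ r0 → S.Kc i r0 a → PV V l a 1
  can : Can S r0 φ

/-- the pair `(α, m)` belongs to the section `S` of `D y² = x h(x)` -/
structure Bel2 (S : Sec (X * h) A M) (J : Rt h A → (L →ₐ[ℚ] A)) (P : ℕ → ValuationSubring A)
    (Φ : ℕ → (A ≃ₐ[ℚ] A)) (D : ℤ) (B : ℕ) (α : 𝓞 L) (m : ℤ) : Prop where
  even : ∀ l : ℕ, l.Prime → ¬ l ∣ B → ¬ (l : ℤ) ∣ D →
    (∀ i j a, S.Kc i j a → PV (P l) l a 0) ∧ ¬ (l : ℤ) ∣ m ∧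
    ∀ v : HeightOneSpectrum (𝓞 L), Abv v l → v.valuation L (α : L) = 1
  odd : ∀ l : ℕ, l.Prime → ¬ l ∣ B → (l : ℤ) ∣ D →
    ((l : ℤ) ∣ m ∧ ¬ (l : ℤ) ^ 2 ∣ m ∧
      (∀ v : HeightOneSpectrum (𝓞 L), Abv v l → v.valuation L (α : L) = 1) ∧
      ∀ (V : ValuationSubring A) (φ : A ≃ₐ[ℚ] A), (l : A) ∈ V.nonunits → Frb V l φ → Dt0 S V φ l) ∨
    (¬ (l : ℤ) ∣ m ∧ ∃ (k : Rt h A) (v0 : HeightOneSpectrum (𝓞 L)),
      Dt2 S J (P l) (Φ l) l k v0 ∧ v0.valuation L (α : L) = WithZero.exp (-1 : ℤ) ∧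
      ∀ v : HeightOneSpectrum (𝓞 L), Abv v l → v ≠ v0 → v.valuation L (α : L) = 1)

omit [Algebra ℚ A] in
/-- parities `0` and `1` exclude each other -/
theorem pv_contra [CharZero A] {V : ValuationSubring A} {l : ℕ} (hl : l ≠ 0)
    (hV : (l : A) ∈ V.nonunits) {a : A} (h0 : PV V l a 0) (h1 : PV V l a 1) : False := by
  have hl0 : (l : A) ≠ 0 := Nat.cast_ne_zero.2 hl
  obtain ⟨m, hm⟩ := h0
  obtain ⟨k, hk⟩ := h1
  have h2 := hm.mul hk.inv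
  have ha : a ≠ 0 := by
    rintro rfl
    rw [zero_div] at hm
    exact hm.1 rfl
  have h3 : a / (l : A) ^ (0 + 2 * m) * (a / (l : A) ^ (1 + 2 * k))⁻¹ =
      (l : A) ^ (2 * (k - m) + 1) := by
    rw [inv_div, div_mul_div_comm, mul_comm a, mul_div_mul_right _ _ ha, ← zpow_sub₀ hl0]
    congr 1
    ring
  rw [h3] at h2
  have hv : V.valuation (l : A) < 1 := (V.mem_nonunits_iff).1 hV
  have hv0 : V.valuation (l : A) ≠ 0 := (Valuation.ne_zero_iff _).2 hl0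
  have h4 : V.valuation ((l : A) ^ (2 * (k - m) + 1)) = 1 := by
    refine le_antisymm ((V.valuation_le_one_iff _).2 h2.2.1) ?_
    have h5 := (V.valuation_le_one_iff _).2 h2.2.2
    rw [map_inv₀] at h5
    exact (inv_le_one₀ (zero_lt_iff.2 ((Valuation.ne_zero_iff _).2 h2.1))).1 h5
  rw [map_zpow₀] at h4
  set t : ℤ := 2 * (k - m) + 1 with ht
  have ht0 : t ≠ 0 := by omega
  rcases lt_or_gt_of_ne ht0 with h5 | h5
  · have h6 : (1 : V.ValueGroup) < V.valuation (l : A) ^ t := by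
      have h7 : V.valuation (l : A) ^ (-t) < 1 := by
        obtain ⟨n, hn⟩ := Int.eq_ofNat_of_zero_le (a := -t) (by omega)
        rw [hn, zpow_natCast]
        exact pow_lt_one₀ zero_le hv (by omega)
      rw [zpow_neg] at h7
      exact (inv_lt_one₀ (zero_lt_iff.2 (zpow_ne_zero _ hv0))).1 h7
    exact h6.ne' h4
  · have h6 : V.valuation (l : A) ^ t < 1 := by
      obtain ⟨n, hn⟩ := Int.eq_ofNat_of_zero_le (a := t) (by omega)
      rw [hn, zpow_natCast]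
      exact pow_lt_one₀ zero_le hv (by omega)
    exact h6.ne h4

/-- conjugation of parities -/
theorem pv_conj {V V' : ValuationSubring A} {l : ℕ} {τ : A ≃ₐ[ℚ] A} (hτ : ∀ z, τ z ∈ V' ↔ z ∈ V)
    {a : A} {e : ℤ} (hp : PV V l a e) : PV V' l (τ a) e := by
  obtain ⟨m, hm⟩ := hp
  refine ⟨m, ?_⟩
  have h1 : τ a / (l : A) ^ (e + 2 * m) = τ (a / (l : A) ^ (e + 2 * m)) := by
    rw [map_div₀, map_zpow₀, map_natCast]
  rw [h1]
  exact ⟨(_root_.map_ne_zero τ).2 hm.1, (hτ _).2 hm.2.1, by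
    rw [← map_inv₀]
    exact (hτ _).2 hm.2.2⟩

/-- `h` has at least two zeros -/
theorem exists_other [IsAlgClosed A] {θ : L} (hs : Setup h L θ) (hn : 2 ≤ h.natDegree) (k : Rt h A) :
    ∃ k' : Rt h A, k' ≠ k := by
  classical
  by_contra hc
  push Not at hc
  have h1 : Fintype.card ((h.map (Int.castRingHom ℚ)).rootSet A) =
      (h.map (Int.castRingHom ℚ)).natDegree :=
    card_rootSet_eq_natDegree (Setup.sep hs) (IsAlgClosed.splits _)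
  rw [natDegree_map_eq_of_injective (Int.castRingHom ℚ).injective_int] at h1
  have h2 : Fintype.card ((h.map (Int.castRingHom ℚ)).rootSet A) ≤ 1 := by
    rw [Fintype.card_le_one_iff]
    rintro ⟨a, ha⟩ ⟨b, hb⟩
    have e1 : ∀ z, z ∈ (h.map (Int.castRingHom ℚ)).rootSet A → z = k.1 := by
      intro z hz
      have hz1 := (mem_rootSet.1 hz).2
      rw [aeval_map_int] at hz1
      exact congrArg Subtype.val (hc ⟨z, hz1⟩)
    exact Subtype.ext ((e1 a ha).trans (e1 b hb).symm)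
  omega

/-- a section which is concentrated at `0` at one place above `l` is so at all places above `l` -/
theorem dt0_all [IsAlgClosure ℚ A] {θ : L} (hs : Setup h L θ) (h0 : h.coeff 0 ≠ 0)
    (hn : 2 ≤ h.natDegree) (hCNJ : S_CNJ) (hKUM : S_KUM.{v}) {l : ℕ} (hl : l.Prime)
    {S : Sec (X * h) A M} {D : ℤ} (hlD : (l : ℤ) ∣ D)
    (hloc : ∀ V : ValuationSubring A, (l : A) ∈ V.nonunits → ∀ φ : A ≃ₐ[ℚ] A, Frb V l φ →
      S.Loc D l V φ) {V0 : ValuationSubring A} (hV0 : (l : A) ∈ V0.nonunits)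
    (hev : ∀ i j a, i ≠ r0 → j ≠ r0 → S.Kc i j a → PV V0 l a 0)
    (V : ValuationSubring A) (φ : A ≃ₐ[ℚ] A) (hV : (l : A) ∈ V.nonunits) (hφ : Frb V l φ) :
    Dt0 S V φ l := by
  have hch : CharZero A := algebraRat.charZero A
  have hcl : IsAlgClosed A := IsAlgClosure.isAlgClosed ℚ
  obtain ⟨r, h1, h2, h3, h4⟩ := (hloc V hV φ hφ).odd hlD
  rcases rt_cases r with rfl | ⟨k, rfl⟩
  · exact ⟨h2, h3, h4⟩
  · exfalso
    obtain ⟨k', hk'⟩ := exists_other (A := A) hs hn k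
    obtain ⟨a, ha⟩ := hKUM (X * h) A M S (inc k') (inc k)
    have h5 := h3 _ a (fun h => hk' (inc_inj h)) ha
    obtain ⟨τ, hτ⟩ := hCNJ A l hl V V0 hV hV0
    have h6 := pv_conj hτ h5
    have h7 := S.kc_conj ha τ
    rw [ra_inc, ra_inc] at h7
    exact pv_contra hl.ne_zero hV0 (hev _ _ _ (inc_ne h0 _) (inc_ne h0 _) h7) h6

theorem ar1 {θ : L} (hPRM : S_PRM) (hNRM : S_NRM) (hCNJ : S_CNJ) (hKUM : S_KUM.{v})
    (hs : Setup h L θ) (h0 : h.coeff 0 ≠ 0) (hn : 2 ≤ h.natDegree) [IsAlgClosure ℚ A]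
    (P : ℕ → ValuationSubring A) (Φ : ℕ → (A ≃ₐ[ℚ] A))
    (hP : ∀ l : ℕ, l.Prime → (l : A) ∈ (P l).nonunits ∧ Frb (P l) l (Φ l))
    (J : Rt h A → (L →ₐ[ℚ] A)) (hJ : ∀ i, J i θ = i.1) (B0 B1 B : ℕ) (hB0 : B0 ∣ B) (hB1 : B1 ∣ B)
    (C : ℝ) (hC : 0 < C)
    (hCLU : ∀ S : Finset (HeightOneSpectrum (𝓞 L)), (∀ v ∈ S, (B1 : 𝓞 L) ∉ v.asIdeal) →
      ∃ α : 𝓞 L, α ≠ 0 ∧
      (∀ v : HeightOneSpectrum (𝓞 L), (B1 : 𝓞 L) ∉ v.asIdeal →
        (v ∈ S → v.valuation L (α : L) = WithZero.exp (-1 : ℤ)) ∧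
        (v ∉ S → v.valuation L (α : L) = 1)) ∧
      ∀ σ : L →+* ℂ, ‖σ (α : L)‖ ≤
        C * (∏ v ∈ S, ((Ideal.absNorm v.asIdeal : ℕ) : ℝ)) ^ ((1 : ℝ) / Module.finrank ℚ L))
    (D : ℤ) (S : Sec (X * h) A M) (hD : Squarefree D) (hS : S.Good D B0) :
    ∃ (α : 𝓞 L) (m : ℤ), α ≠ 0 ∧ 1 ≤ m ∧ (m : ℝ) ≤ D.natAbs ∧ Bel2 S J P Φ D B α m ∧
      ∀ σ : L →+* ℂ, ‖σ (α : L)‖ ≤
        C * ((D.natAbs : ℝ) / m) ^ ((1 : ℝ) / Module.finrank ℚ L) := by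
  classical
  have hD0 : D ≠ 0 := hD.ne_zero
  have hDn : D.natAbs ≠ 0 := Int.natAbs_ne_zero.2 hD0
  set Pr : Finset ℕ := D.natAbs.primeFactors.filter (fun l => ¬ l ∣ B) with hPr
  have hmem : ∀ l, l ∈ Pr ↔ l.Prime ∧ ¬ l ∣ B ∧ (l : ℤ) ∣ D := by
    intro l
    rw [hPr, Finset.mem_filter, Nat.mem_primeFactors]
    constructor
    · rintro ⟨⟨h1, h2, -⟩, h3⟩
      exact ⟨h1, h3, Int.natCast_dvd.2 h2⟩
    · rintro ⟨h1, h3, h2⟩
      exact ⟨⟨h1, Int.natCast_dvd.1 h2, hDn⟩, h3⟩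
  have hlocV : ∀ l : ℕ, l.Prime → ¬ l ∣ B → ∀ V : ValuationSubring A, (l : A) ∈ V.nonunits →
      ∀ φ : A ≃ₐ[ℚ] A, Frb V l φ → S.Loc D l V φ := fun l hl hlB =>
    hS l hl (fun h => hlB (h.trans hB0))
  have hloc : ∀ l : ℕ, l.Prime → ¬ l ∣ B → S.Loc D l (P l) (Φ l) := fun l hl hlB =>
    hlocV l hl hlB (P l) (hP l hl).1 (Φ l) (hP l hl).2
  -- the two sorts of primes
  set Q0 : ℕ → Prop := fun l => ∀ (V : ValuationSubring A) (φ : A ≃ₐ[ℚ] A),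
    (l : A) ∈ V.nonunits → Frb V l φ → Dt0 S V φ l with hQ0
  set Pm : Finset ℕ := Pr.filter Q0 with hPm
  set Pa : Finset ℕ := Pr.filter (fun l => ¬ Q0 l) with hPa
  have hmemm : ∀ l, l ∈ Pm ↔ (l.Prime ∧ ¬ l ∣ B ∧ (l : ℤ) ∣ D) ∧ Q0 l := by
    intro l
    rw [hPm, Finset.mem_filter, hmem]
  have hmema : ∀ l, l ∈ Pa ↔ (l.Prime ∧ ¬ l ∣ B ∧ (l : ℤ) ∣ D) ∧ ¬ Q0 l := by
    intro l
    rw [hPa, Finset.mem_filter, hmem]
  have hex : ∀ l : Pa, ∃ v0 : HeightOneSpectrum (𝓞 L), ∃ k : Rt h A,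
      Dt2 S J (P l.1) (Φ l.1) l.1 k v0 := by
    rintro ⟨l, hl⟩
    obtain ⟨⟨hlp, hlB, hlD⟩, hq⟩ := (hmema l).1 hl
    obtain ⟨r, h1, h2, h3, h4⟩ := (hloc l hlp hlB).odd hlD
    rcases rt_cases r with rfl | ⟨k, rfl⟩
    · exact absurd (fun V φ hV hφ => dt0_all hs h0 hn hCNJ hKUM hlp hlD (hlocV l hlp hlB)
        (hP l hlp).1 h2 V φ hV hφ) hq
    · rw [ra_inc] at h1
      have h1' := inc_inj h1
      obtain ⟨v0, h5, h6, -⟩ := (hPRM A L l hlp (P l) (hP l hlp).1).1 (J k)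
      have hfix : (Φ l) (J k θ) = J k θ := by
        rw [hJ]
        exact congrArg Subtype.val h1'
      exact ⟨v0, k, h1', h2, h3, h4, h5,
        (hNRM h L θ hs A l hlp (P l) (Φ l) (hP l hlp).1 (hP l hlp).2 (J k) hfix v0 h6).1, h6⟩
  choose v0 r hv0 using hex
  have hinj : Function.Injective v0 := by
    intro l l' h
    apply Subtype.ext
    have h1 := (hv0 l).abv
    rw [h] at h1
    exact abv_eq ((hmema _).1 l.2).1.1 ((hmema _).1 l'.2).1.1 h1 (hv0 l').abv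
  set Sf : Finset (HeightOneSpectrum (𝓞 L)) := Finset.univ.image v0 with hSf
  have hSmem : ∀ v, v ∈ Sf ↔ ∃ l : Pa, v0 l = v := fun v => by
    rw [hSf, Finset.mem_image]
    simp
  have hB1v : ∀ (v : HeightOneSpectrum (𝓞 L)) (l : ℕ), l.Prime → ¬ l ∣ B → Abv v l →
      (B1 : 𝓞 L) ∉ v.asIdeal := fun v l hl hlB hv h => hlB ((abv_uniq hl hv h).trans hB1)
  obtain ⟨α, hα0, hα, hαC⟩ := hCLU Sf (by
    intro v hv
    obtain ⟨l, rfl⟩ := (hSmem v).1 hv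
    obtain ⟨h1, h2, h3⟩ := ((hmema _).1 l.2).1
    exact hB1v _ l.1 h1 h2 (hv0 l).abv)
  -- units at the other primes
  have hun : ∀ l : ℕ, l.Prime → ¬ l ∣ B → l ∉ Pa → ∀ v : HeightOneSpectrum (𝓞 L), Abv v l →
      v.valuation L (α : L) = 1 := by
    intro l hl hlB hlP v hv
    refine (hα v (hB1v v l hl hlB hv)).2 ?_
    intro h
    obtain ⟨l', rfl⟩ := (hSmem v).1 h
    have h4 := abv_eq hl ((hmema _).1 l'.2).1.1 hv (hv0 l').abv
    apply hlP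
    rw [h4]
    exact l'.2
  -- the integer `m`
  set mn : ℕ := ∏ l ∈ Pm, l with hmn
  have hmn0 : mn ≠ 0 := by
    rw [hmn, Finset.prod_ne_zero_iff]
    intro l hl
    exact (((hmemm l).1 hl).1.1).ne_zero
  have hmdvd : ∀ l : ℕ, l.Prime → (l ∣ mn ↔ l ∈ Pm) := by
    intro l hl
    constructor
    · intro h
      obtain ⟨q, hq, hlq⟩ := (hl.prime.dvd_finsetProd_iff _).1 h
      rwa [(Nat.prime_dvd_prime_iff_eq hl ((hmemm q).1 hq).1.1).1 hlq]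
    · intro h
      exact Finset.dvd_prod_of_mem _ h
  have hPrd : (∏ l ∈ Pr, l) ∣ D.natAbs := by
    refine (Finset.prod_dvd_prod_of_subset _ _ _ (Finset.filter_subset _ _)).trans ?_
    exact Nat.prod_primeFactors_dvd _
  have hsplit : mn * ∏ l ∈ Pa, l = ∏ l ∈ Pr, l := Finset.prod_filter_mul_prod_filter_not _ _ _
  have hle : mn * ∏ l ∈ Pa, l ≤ D.natAbs := by
    rw [hsplit]
    exact Nat.le_of_dvd (Nat.pos_of_ne_zero hDn) hPrd
  have hPa0 : 1 ≤ ∏ l ∈ Pa, l := by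
    rw [Nat.one_le_iff_ne_zero, Finset.prod_ne_zero_iff]
    intro l hl
    exact (((hmema l).1 hl).1.1).ne_zero
  have hmsq : Squarefree mn := by
    have h1 : mn ∣ D.natAbs := (Dvd.intro _ hsplit).trans hPrd
    exact (Int.squarefree_natAbs.2 hD).squarefree_of_dvd h1
  refine ⟨α, mn, hα0, ?_, ?_, ⟨?_, ?_⟩, ?_⟩
  · exact_mod_cast Nat.one_le_iff_ne_zero.2 hmn0
  · have h1 : mn ≤ D.natAbs := le_trans (Nat.le_mul_of_pos_right _ hPa0) hle
    rw [Int.cast_natCast]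
    exact Nat.cast_le.2 h1
  · intro l hl hlB hlD
    refine ⟨(hloc l hl hlB).even hlD, ?_, hun l hl hlB ?_⟩
    · intro h
      have h1 : l ∣ mn := by exact_mod_cast h
      exact hlD ((hmemm l).1 ((hmdvd l hl).1 h1)).1.2.2
    · intro h
      exact hlD ((hmema l).1 h).1.2.2
  · intro l hl hlB hlD
    by_cases hq : Q0 l
    · left
      have hlP : l ∈ Pm := (hmemm l).2 ⟨⟨hl, hlB, hlD⟩, hq⟩
      have h1 := (hmdvd l hl).2 hlP
      refine ⟨by exact_mod_cast h1, ?_, hun l hl hlB ?_, hq⟩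
      · intro h
        have h2 : l ^ 2 ∣ mn := by exact_mod_cast h
        have h3 := hmsq l (by rwa [← sq])
        exact hl.one_lt.ne' (Nat.isUnit_iff.1 h3)
      · intro h
        exact ((hmema l).1 h).2 hq
    · right
      have hlP : l ∈ Pa := (hmema l).2 ⟨⟨hl, hlB, hlD⟩, hq⟩
      refine ⟨?_, r ⟨l, hlP⟩, v0 ⟨l, hlP⟩, hv0 ⟨l, hlP⟩, ?_, ?_⟩
      · intro h
        have h1 : l ∣ mn := by exact_mod_cast h
        exact hq ((hmemm l).1 ((hmdvd l hl).1 h1)).2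
      · exact (hα _ (hB1v _ l hl hlB (hv0 ⟨l, hlP⟩).abv)).1 ((hSmem _).2 ⟨_, rfl⟩)
      · intro v hv hvv
        refine (hα v (hB1v v l hl hlB hv)).2 ?_
        intro h
        obtain ⟨l', rfl⟩ := (hSmem v).1 h
        have h4 := abv_eq hl ((hmema _).1 l'.2).1.1 hv (hv0 l').abv
        apply hvv
        congr 1
        exact Subtype.ext h4.symm
  · intro σ
    refine (hαC σ).trans ?_
    refine mul_le_mul_of_nonneg_left ?_ hC.le
    refine Real.rpow_le_rpow (Finset.prod_nonneg fun v _ => Nat.cast_nonneg _) ?_ (by positivity)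
    have h1 : ∏ v ∈ Sf, ((Ideal.absNorm v.asIdeal : ℕ) : ℝ) = ((∏ l ∈ Pa, l : ℕ) : ℝ) := by
      rw [hSf, Finset.prod_image (fun x _ y _ h => hinj h)]
      push_cast
      rw [← Finset.prod_coe_sort Pa (fun l => (l : ℝ))]
      refine Finset.prod_congr rfl fun l _ => ?_
      rw [(hv0 l).nrm]
    have h2 : (0 : ℝ) < mn := by exact_mod_cast Nat.pos_of_ne_zero hmn0
    rw [h1, Int.cast_natCast, le_div_iff₀ h2, mul_comm]
    exact_mod_cast hle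

end

end Pool.Agent.Q161.OD
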