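import Pool.Agent.Q161.OD.Ar1

/-! # Project OD: parities, and existence of the type -/

set_option autoImplicit false

namespace Pool.Agent.Q161.OD

open Polynomial NumberField IsDedekindDomain
open Pool.Agent.W623.SecC (IsU isU_one)
open Pool.Agent.Q51.EL
open Pool.Agent.W620.SC (root_mem)
open Pool.Agent.Q161.SX

universe u v w

section

variable {h : ℤ[X]} {A : Type} {M : Type v} [Field A] [Algebra ℚ A] [Field M]
  {L : Type} [Field L] [NumberField L]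

theorem spl_le : spl h A ≤ spl (X * h) A := by
  unfold spl
  apply IntermediateField.adjoin.mono
  intro e he
  have he' : aeval e h = 0 := he
  change aeval e (X * h) = 0
  rw [map_mul, he', mul_zero]

/-- the parity of `m` at a prime which divides it exactly once -/
theorem pv_m {V : ValuationSubring A} {l : ℕ} (hl : l.Prime) (hV : (l : A) ∈ V.nonunits) {m : ℤ}
    (h1 : (l : ℤ) ∣ m) (h2 : ¬ (l : ℤ) ^ 2 ∣ m) : PV V l (m : A) 1 := by
  have hch : CharZero A := algebraRat.charZero A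
  have hl0 : (l : A) ≠ 0 := Nat.cast_ne_zero.2 hl.ne_zero
  obtain ⟨c, rfl⟩ := h1
  have hc : ¬ (l : ℤ) ∣ c := by
    rintro ⟨d, rfl⟩
    exact h2 ⟨d, by ring⟩
  apply PV.of_div
  have h3 : ((l * c : ℤ) : A) / l = (c : A) := by
    push_cast
    field_simp
  rw [h3]
  exact isU_int hl hV hc

/-- the constants `lam` exist -/
theorem attE_mk {f : ℤ[X]} (S : Sec f A M) (i0 : Rt f A) (e t : Rt f A → A) (he0 : ∀ i, e i ≠ 0)
    (heσ : ∀ (σ : A ≃ₐ[ℚ] A) i, σ (e i) = e (ra σ i)) (ht0 : ∀ i, t i ≠ 0)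
    (hts : ∀ i, t i ∈ spl f A) [IsAlgClosed A] (β : Rt f A → M) (hβ0 : ∀ i, β i ≠ 0)
    (hβF : ∀ i, S.Fix (spl f A) (β i))
    (hβ : ∀ i, S.ι (t i * (e i / e i0)) * β i ^ 2 = (S.x - S.ι i.1) / (S.x - S.ι i0.1)) :
    ∃ lam, AttE S i0 e t lam := by
  have hx : ∀ a : A, S.x - S.ι a ≠ 0 := fun a h => S.htr a (sub_eq_zero.1 h).symm
  have hι : ∀ {a : A}, a ≠ 0 → S.ι a ≠ 0 := fun h => (_root_.map_ne_zero S.ι).2 h
  have hlex : ∀ (σ : A ≃ₐ[ℚ] A) (i : Rt f A), ∃ y : A,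
      S.s σ (β i) * β (ra σ i0) = S.ι y * β (ra σ i) := by
    intro σ i
    set q : Rt f A → A := fun i => t i * (e i / e i0) with hq
    have hq0 : ∀ i, q i ≠ 0 := fun i => mul_ne_zero (ht0 i) (div_ne_zero (he0 _) (he0 _))
    have h1 := congrArg (S.s σ) (hβ i)
    rw [map_mul, map_pow, map_div₀, map_sub, map_sub, S.hι, S.hι, S.hι, S.hx] at h1
    have h2 := hβ (ra σ i)
    have h3 := hβ (ra σ i0)
    have h4 : (S.s σ (β i) * β (ra σ i0) / β (ra σ i)) ^ 2 =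
        S.ι (q (ra σ i) / (σ (q i) * q (ra σ i0))) := by
      have f1 := hι (hq0 (ra σ i))
      have f2 := hι (hq0 (ra σ i0))
      have f3 := hι ((_root_.map_ne_zero σ).2 (hq0 i))
      have f4 := hβ0 (ra σ i)
      have f5 := hx (ra σ i).1
      have f6 := hx (ra σ i0).1
      have f7 := hx i0.1
      have g1 : (S.s σ (β i)) ^ 2 = (S.x - S.ι (ra σ i).1) / (S.x - S.ι (ra σ i0).1) /
          S.ι (σ (q i)) := by
        rw [eq_div_iff f3, mul_comm]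
        exact h1
      have g2 : β (ra σ i) ^ 2 = (S.x - S.ι (ra σ i).1) / (S.x - S.ι i0.1) / S.ι (q (ra σ i)) := by
        rw [eq_div_iff f1, mul_comm]
        exact h2
      have g3 : β (ra σ i0) ^ 2 = (S.x - S.ι (ra σ i0).1) / (S.x - S.ι i0.1) /
          S.ι (q (ra σ i0)) := by
        rw [eq_div_iff f2, mul_comm]
        exact h3
      have e3 : S.ι (q (ra σ i) / (σ (q i) * q (ra σ i0))) =
          S.ι (q (ra σ i)) / (S.ι (σ (q i)) * S.ι (q (ra σ i0))) :=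
        (map_div₀ S.ι _ _).trans (congrArg _ (map_mul S.ι (σ (q i)) _))
      rw [e3, div_pow, mul_pow, g1, g2, g3]
      field_simp
    obtain ⟨y, hy⟩ := root_mem S.ι (n := 2) (by norm_num) h4
    exact ⟨y, by rw [hy]; field_simp [hβ0 (ra σ i)]⟩
  choose lam hlam using hlex
  exact ⟨lam, ⟨he0, heσ, ht0, hts, β, hβ0, hβF, hβ, hlam⟩⟩

variable {θ : L} {P : ℕ → ValuationSubring A} {Φ : ℕ → (A ≃ₐ[ℚ] A)} {J : Rt h A → (L →ₐ[ℚ] A)}
  {B : ℕ} (E : Env h L θ A P Φ J B)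

include E

theorem Env2.int_class (hNRM : S_NRM) {S : Sec (X * h) A M} {l : ℕ} (hl : l.Prime) {r : Rt h A}
    {v0 : HeightOneSpectrum (𝓞 L)} (hd : Dt2 S J (P l) (Φ l) l r v0) (g : 𝓞 L) :
    ∃ c : ℤ, g - (c : 𝓞 L) ∈ v0.asIdeal :=
  (hNRM h L θ E.hs A l hl (P l) (Φ l) (E.hP l hl).1 (E.hP l hl).2 (J r) (by
    rw [E.hJ]
    exact congrArg Subtype.val hd.fix) v0 hd.mem).2 g

theorem Env2.unq (hNRM : S_NRM) {S : Sec (X * h) A M} {l : ℕ} (hl : l.Prime) (hlB : ¬ l ∣ B)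
    {r k : Rt h A} {v0 : HeightOneSpectrum (𝓞 L)} (hd : Dt2 S J (P l) (Φ l) l r v0)
    (hk : ∀ a : 𝓞 L, a ∈ v0.asIdeal ↔ J k (a : L) ∈ (P l).nonunits) : k = r :=
  SX.unq E.hs (E.dst l hl hlB).1 (E.dst l hl hlB).2 E.hJ (Env2.int_class E hNRM hl hd) hd.mem hk

/-- the values of the conjugates of `α` -/
theorem Env2.val (hPRM : S_PRM) (hNRM : S_NRM) [IsAlgClosure ℚ A] {S : Sec (X * h) A M} {α : 𝓞 L}
    (hα0 : α ≠ 0) {l : ℕ} (hl : l.Prime) (hlB : ¬ l ∣ B)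
    {r : Rt h A} {v0 : HeightOneSpectrum (𝓞 L)} (hd : Dt2 S J (P l) (Φ l) l r v0)
    (h1 : v0.valuation L (α : L) = WithZero.exp (-1 : ℤ))
    (h2 : ∀ v : HeightOneSpectrum (𝓞 L), Abv v l → v ≠ v0 → v.valuation L (α : L) = 1) :
    (∀ k, k ≠ r → IsU (P l) (J k (α : L))) ∧ IsU (P l) (J r (α : L) / l) := by
  have hαL : (α : L) ≠ 0 := fun h => hα0 (RingOfIntegers.coe_eq_zero_iff.1 h)
  have hlL : (l : L) ≠ 0 := Nat.cast_ne_zero.2 hl.ne_zero
  constructor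
  · intro k hk
    obtain ⟨v, hv, hv1, hv2⟩ := (hPRM A L l hl (P l) (E.hP l hl).1).1 (J k)
    rw [hv2 _ hαL]
    refine h2 v hv ?_
    rintro rfl
    exact hk (Env2.unq E hNRM hl hlB hd hv1)
  · obtain ⟨v, hv, hv1, hv2⟩ := (hPRM A L l hl (P l) (E.hP l hl).1).1 (J r)
    have h3 : v = v0 := by
      ext a
      rw [hv1, hd.mem]
    subst h3
    have h4 : J r (α : L) / l = J r ((α : L) / l) := by
      rw [map_div₀, map_natCast]
    rw [h4, hv2 _ (div_ne_zero hαL hlL), map_div₀, h1, E.ram l hl hlB v hv]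
    exact div_self (by simp)

/-- parities of the elements `u` -/
theorem Env2.par (hPRM : S_PRM) (hNRM : S_NRM) (h0 : h.coeff 0 ≠ 0) [IsAlgClosure ℚ A]
    {S : Sec (X * h) A M} {D : ℤ} {α : 𝓞 L} {m : ℤ}
    (hα0 : α ≠ 0) (hα : Bel2 S J P Φ D B α m) {l : ℕ} (hl : l.Prime) (hlB : ¬ l ∣ B) {i : Rt h A}
    {a : A} (ha : S.Kc (inc i) r0 a) (τ : A ≃ₐ[ℚ] A) :
    PV (P l) l (τ (a * ((m : A) / J i (α : L)))) 0 := by
  have hch : CharZero A := algebraRat.charZero A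
  have hl0 := hl.ne_zero
  have hσJ := Setup.conj_emb E.hs E.hJ
  have hk := S.kc_conj ha τ
  rw [ra_inc, ra_r0] at hk
  rw [map_mul, map_div₀, hσJ, map_intCast]
  set i' := ra τ i with hi'
  by_cases hlD : (l : ℤ) ∣ D
  · rcases hα.odd l hl hlB hlD with ⟨h1, h2, h3, h4⟩ | ⟨h1, k, v0, hd, h3, h4⟩
    · have h5 := h4 (P l) (Φ l) (E.hP l hl).1 (E.hP l hl).2
      have h6 := h5.od _ _ (inc_ne h0 _) hk
      have h7 := PV.mul hl0 h6 (PV.div hl0 (pv_m hl (E.hP l hl).1 h1 h2)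
        (PV.unit (l := l) (E.even_val hPRM hα0 hl h3 i')))
      exact h7.congr ⟨1, by ring⟩
    · obtain ⟨g1, g2⟩ := Env2.val E hPRM hNRM hα0 hl hlB hd h3 h4
      have hm := isU_int hl (E.hP l hl).1 h1
      by_cases hik : i' = k
      · rw [hik] at hk ⊢
        have h5 := hd.od _ _ (inc_ne h0 k).symm (S.kc_inv hk)
        have h6 := PV.inv hl0 h5
        rw [inv_inv] at h6
        have h7 := PV.mul hl0 h6 (PV.div hl0 (PV.unit (l := l) hm) (PV.of_div g2))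
        exact h7.congr ⟨-1, by ring⟩
      · have h5 := hd.ev _ _ _ (fun h => hik (inc_inj h)) (inc_ne h0 k).symm hk
        have h7 := PV.mul hl0 h5 (PV.div hl0 (PV.unit (l := l) hm) (PV.unit (l := l) (g1 i' hik)))
        exact h7.congr ⟨0, by ring⟩
  · obtain ⟨h1, h2, h3⟩ := hα.even l hl hlB hlD
    have h5 := h1 _ _ _ hk
    have h7 := PV.mul hl0 h5 (PV.div hl0 (PV.unit (l := l) (isU_int hl (E.hP l hl).1 h2))
      (PV.unit (l := l) (E.even_val hPRM hα0 hl h3 i')))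
    exact h7.congr ⟨0, by ring⟩

/-- existence of the type -/
theorem Env2.att (hPRM : S_PRM) (hNRM : S_NRM) (hEVN : S_EVN) (hKUM : S_KUM.{v})
    (h0 : h.coeff 0 ≠ 0) [IsAlgClosure ℚ A]
    [NumberField (spl (X * h) A)] (T : Finset (spl (X * h) A)) (hT0 : (0 : spl (X * h) A) ∉ T)
    (hT : ∀ u : spl (X * h) A, u ≠ 0 →
      (∀ v : HeightOneSpectrum (𝓞 (spl (X * h) A)), (B : 𝓞 (spl (X * h) A)) ∉ v.asIdeal →
        Par v u 0) → ∃ t ∈ T, ∃ c : spl (X * h) A, c ≠ 0 ∧ u = t * c ^ 2)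
    {S : Sec (X * h) A M} {D : ℤ} {α : 𝓞 L} {m : ℤ}
    (hα0 : α ≠ 0) (hm0 : m ≠ 0) (hα : Bel2 S J P Φ D B α m) :
    ∃ (t : Rt (X * h) A → A) (lam : (A ≃ₐ[ℚ] A) → Rt (X * h) A → A),
      (∀ i, t i ∈ insert (1 : A) ((fun z : spl (X * h) A => (z : A)) '' (T : Set (spl (X * h) A)))) ∧
      AttE S r0 (ev J α m) t lam := by
  classical
  have hcl : IsAlgClosed A := IsAlgClosure.isAlgClosed ℚ
  have hch : CharZero A := algebraRat.charZero A
  have hσJ := Setup.conj_emb E.hs E.hJ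
  have hαL : (α : L) ≠ 0 := fun h => hα0 (RingOfIntegers.coe_eq_zero_iff.1 h)
  have hJα : ∀ i, J i (α : L) ≠ 0 := fun i => (_root_.map_ne_zero (J i)).2 hαL
  have hmA : (m : A) ≠ 0 := Int.cast_ne_zero.2 hm0
  have hx : ∀ a : A, S.x - S.ι a ≠ 0 := fun a h => S.htr a (sub_eq_zero.1 h).symm
  have hι : ∀ {a : A}, a ≠ 0 → S.ι a ≠ 0 := fun h => (_root_.map_ne_zero S.ι).2 h
  have hex : ∀ i, ∃ (t : A) (β : M),
      t ∈ insert (1 : A) ((fun z : spl (X * h) A => (z : A)) '' (T : Set (spl (X * h) A))) ∧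
      t ≠ 0 ∧ t ∈ spl (X * h) A ∧ β ≠ 0 ∧ S.Fix (spl (X * h) A) β ∧
      S.ι (t * (ev J α m i / ev J α m r0)) * β ^ 2 =
        (S.x - S.ι i.1) / (S.x - S.ι (r0 : Rt (X * h) A).1) := by
    intro i
    rcases rt_cases i with rfl | ⟨i, rfl⟩
    · refine ⟨1, 1, Set.mem_insert _ _, one_ne_zero, one_mem _, one_ne_zero,
        fun σ _ => map_one _, ?_⟩
      rw [div_self (ev_ne h0 J hα0 hm0 _), div_self (hx _), one_mul, map_one, one_pow, one_mul]
    · rw [ev_inc, ev_r0 h0]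
      obtain ⟨a, ha⟩ := hKUM (X * h) A M S (inc i) r0
      obtain ⟨ha1, ha2, β, hβ0, hβF, hβ⟩ := ha
      have humem : a * ((m : A) / J i (α : L)) ∈ spl (X * h) A :=
        mul_mem ha1 (div_mem (intCast_mem _ m) (spl_le (emb_mem E.hs _ _)))
      have hu0 : a * ((m : A) / J i (α : L)) ≠ 0 :=
        mul_ne_zero ha2 (div_ne_zero hmA (hJα _))
      obtain ⟨t, ht, c, hc0, hu⟩ := hT ⟨_, humem⟩ (fun h => hu0 (congrArg Subtype.val h)) (by
        intro w hw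
        -- the residue characteristic of `w`
        have hlex : ∃ l : ℕ, l.Prime ∧ Abv w l := exists_char w
        obtain ⟨l, hl, hwl⟩ := hlex
        have hlB : ¬ l ∣ B := by
          rintro ⟨b, hb⟩
          apply hw
          rw [hb, Nat.cast_mul]
          exact Ideal.mul_mem_right _ _ hwl
        exact hEVN A (spl (X * h) A) l hl (P l) (E.hP l hl).1 _
          (fun h => hu0 (congrArg Subtype.val h))
          (fun τ => Env2.par E hPRM hNRM h0 hα0 hα hl hlB ⟨ha1, ha2, β, hβ0, hβF, hβ⟩ τ) w hwl)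
      have ht0 : (t : A) ≠ 0 := fun h => hT0 (by
        have : t = 0 := Subtype.ext h
        rwa [this] at ht)
      have hc0' : (c : A) ≠ 0 := fun h => hc0 (Subtype.ext h)
      have hu' : a * ((m : A) / J i (α : L)) = (t : A) * (c : A) ^ 2 :=
        congrArg Subtype.val hu
      refine ⟨t, S.ι c * β, Set.mem_insert_of_mem _ ⟨t, ht, rfl⟩, ht0, t.2,
        mul_ne_zero (hι hc0') hβ0, S.fix_mul (S.fix_ι c.2) hβF, ?_⟩
      rw [← hβ, mul_pow, ← map_pow, ← mul_assoc, ← map_mul]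
      congr 2
      have h5 := hJα i
      have h7 : (t : A) * (J i (α : L) / (m : A)) * (c : A) ^ 2 =
          ((t : A) * (c : A) ^ 2) * (J i (α : L) / (m : A)) := by ring
      rw [h7, ← hu']
      field_simp
  choose t β ht1 ht0 hts hβ0 hβF hβ using hex
  obtain ⟨lam, hlam⟩ := attE_mk S r0 (ev J α m) t (ev_ne h0 J hα0 hm0)
    (ev_conj E.hs h0 E.hJ α m) ht0 hts β hβ0 hβF hβ
  exact ⟨t, lam, ht1, hlam⟩

end

end Pool.Agent.Q161.OD
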