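import Pool.Agent.Q161.OD.Ar2

/-! # Project OD: the local conditions -/

set_option autoImplicit false

namespace Pool.Agent.Q161.OD

open Polynomial NumberField IsDedekindDomain
open Pool.Agent.W623.SecC (IsU isU_one)
open Pool.Agent.Q51.EL
open Pool.Agent.Q161.SX

universe u v w

section

variable {h : ℤ[X]} {A : Type} [Field A] [Algebra ℚ A]
  {L : Type} [Field L] [NumberField L]

/-- the pairs of a given type -/
def TP (h : ℤ[X]) (A : Type) [Field A] [Algebra ℚ A] (L : Type) [Field L] [NumberField L]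
    (P : ℕ → ValuationSubring A) (Φ : ℕ → (A ≃ₐ[ℚ] A)) (J : Rt h A → (L →ₐ[ℚ] A)) (B : ℕ)
    (p : (Rt (X * h) A → A) × ((A ≃ₐ[ℚ] A) → Rt (X * h) A → A)) : Set (𝓞 L × ℤ) :=
  {q | ∃ (D : ℤ) (M : Type v) (_ : Field M) (S : Sec (X * h) A M),
    q.1 ≠ 0 ∧ AttE S r0 (ev J q.1 q.2) p.1 p.2 ∧ Bel2 S J P Φ D B q.1 q.2 ∧ NT h S}

variable {θ : L} {P : ℕ → ValuationSubring A} {Φ : ℕ → (A ≃ₐ[ℚ] A)} {J : Rt h A → (L →ₐ[ℚ] A)}
  {B : ℕ} (E : Env h L θ A P Φ J B)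

/-- the prime which contains `α` -/
theorem bel2_of_mem {M : Type v} [Field M] {S : Sec (X * h) A M} {D : ℤ} {α : 𝓞 L} {m : ℤ}
    (hα : Bel2 S J P Φ D B α m) {l : ℕ} (hl : l.Prime) (hlB : ¬ l ∣ B)
    {v : HeightOneSpectrum (𝓞 L)}
    (hv : Abv v l) (hαv : α ∈ v.asIdeal) : ¬ (l : ℤ) ∣ m ∧ ∃ r : Rt h A,
      Dt2 S J (P l) (Φ l) l r v ∧
      v.valuation L (α : L) = WithZero.exp (-1 : ℤ) ∧
      ∀ v' : HeightOneSpectrum (𝓞 L), Abv v' l → v' ≠ v → v'.valuation L (α : L) = 1 := by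
  by_cases hlD : (l : ℤ) ∣ D
  · rcases hα.odd l hl hlB hlD with ⟨-, -, h3, -⟩ | ⟨h1, r, v0, h2, h3, h4⟩
    · exact absurd hαv (notMem_of_val (h3 v hv))
    · by_cases h5 : v = v0
      · subst h5
        exact ⟨h1, r, h2, h3, h4⟩
      · exact absurd hαv (notMem_of_val (h4 v hv h5))
  · exact absurd hαv (notMem_of_val ((hα.even l hl hlB hlD).2.2 v hv))

/-- the places at which the section is concentrated at `0` -/
theorem bel2_of_dvd {M : Type v} [Field M] {S : Sec (X * h) A M} {D : ℤ} {α : 𝓞 L} {m : ℤ}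
    (hα : Bel2 S J P Φ D B α m) {l : ℕ} (hl : l.Prime) (hlB : ¬ l ∣ B) (hm : (l : ℤ) ∣ m) :
    (∀ v : HeightOneSpectrum (𝓞 L), Abv v l → v.valuation L (α : L) = 1) ∧
      ∀ (V : ValuationSubring A) (φ : A ≃ₐ[ℚ] A), (l : A) ∈ V.nonunits → Frb V l φ →
        Dt0 S V φ l := by
  by_cases hlD : (l : ℤ) ∣ D
  · rcases hα.odd l hl hlB hlD with ⟨-, -, h3, h4⟩ | ⟨h1, -⟩
    · exact ⟨h3, h4⟩
    · exact absurd hm h1
  · exact absurd hm (hα.even l hl hlB hlD).2.1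

theorem tp_p1 (p : (Rt (X * h) A → A) × ((A ≃ₐ[ℚ] A) → Rt (X * h) A → A)) {l : ℕ} (hl : l.Prime)
    (hlB : ¬ l ∣ B) : P1 l (TP.{v} h A L P Φ J B p) := by
  rintro ⟨α, m⟩ ⟨D, M, _, S, hα0, hA, hB, hN⟩
  by_cases hlD : (l : ℤ) ∣ D
  · rcases hB.odd l hl hlB hlD with ⟨h1, -, h3, -⟩ | ⟨h1, r, v0, h2, h3, h4⟩
    · exact Or.inr ⟨h1, fun v hv => notMem_of_val (h3 v hv)⟩
    · exact Or.inl ⟨h1, Or.inr ⟨v0, h2.abv, h2.nrm, mem_of_val h3,
        fun v hv hvv => notMem_of_val (h4 v hv hvv)⟩⟩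
  · obtain ⟨-, h1, h2⟩ := hB.even l hl hlB hlD
    exact Or.inl ⟨h1, Or.inl fun v hv => notMem_of_val (h2 v hv)⟩

/-- powers of Frobenius -/
theorem pow_eq {φ : A ≃ₐ[ℚ] A} {z : Rt h A → A} {Q : Rt h A → Prop}
    (hQ : ∀ i, Q i → Q (ra φ i)) (hz : ∀ i, Q i → φ (z i) = z (ra φ i)) (n : ℕ) (i : Rt h A)
    (hi : Q i) : Q (ra (φ ^ n) i) ∧ (φ ^ n) (z i) = z (ra (φ ^ n) i) := by
  induction n with
  | zero => exact ⟨hi, rfl⟩
  | succ n ih =>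
    have h1 : ra (φ ^ (n + 1)) i = ra φ (ra (φ ^ n) i) := by
      rw [pow_succ', ra_mul]
    rw [h1]
    refine ⟨hQ _ ih.1, ?_⟩
    rw [pow_succ']
    change φ ((φ ^ n) (z i)) = _
    rw [ih.2, hz _ ih.1]

include E

/-- a square root in the residue field -/
theorem res_sq (BR : ℕ) (hRES : ∀ (l : ℕ), l.Prime →
      ¬ l ∣ BR → ∀ (V : ValuationSubring A) (φ : A ≃ₐ[ℚ] A), (l : A) ∈ V.nonunits → Frb V l φ →
      ∀ (j : L →ₐ[ℚ] A) (z : A), z ∈ V → (∀ m : ℕ, (φ ^ m) (j θ) = j θ → (φ ^ m) z = z) →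
      ∃ g : 𝓞 L, j (g : L) - z ∈ V.nonunits) {l : ℕ} (hl : l.Prime) (hlB : ¬ l ∣ BR)
    {z : Rt h A → A} {Q : Rt h A → Prop}
    (hQ : ∀ i, Q i → Q (ra (Φ l) i)) (hz : ∀ i, Q i → (Φ l) (z i) = z (ra (Φ l) i)) {i : Rt h A}
    (hi : Q i) {y : 𝓞 L} (hzy : z i ^ 2 = J i (y : L)) (hU : IsU (P l) (J i (y : L))) :
    ∃ g : 𝓞 L, J i ((y - g ^ 2 : 𝓞 L) : L) ∈ (P l).nonunits := by
  have hzU : IsU (P l) (z i) := IsU.of_pow (n := 2) (by norm_num) (by rw [hzy]; exact hU)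
  obtain ⟨g, hg⟩ := hRES l hl hlB (P l) (Φ l) (E.hP l hl).1 (E.hP l hl).2 (J i) (z i) hzU.2.1 (by
    intro n hn
    rw [E.hJ] at hn
    have h1 : ra (Φ l ^ n) i = i := Subtype.ext hn
    have h2 := (pow_eq hQ hz n i hi).2
    rw [h2, h1])
  refine ⟨g, ?_⟩
  have h3 : J i ((y - g ^ 2 : 𝓞 L) : L) = z i ^ 2 - J i (g : L) ^ 2 := by
    rw [hzy]
    have h4 : ((y - g ^ 2 : 𝓞 L) : L) = (y : L) - (g : L) ^ 2 := by
      push_cast
      rfl
    rw [h4, map_sub, map_pow]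
  have h5 : z i ^ 2 - J i (g : L) ^ 2 = -(2 * z i + (J i (g : L) - z i)) * (J i (g : L) - z i) := by
    ring
  rw [h3, h5]
  have h6 : (2 : A) ∈ P l := by exact_mod_cast int_mem (P l) 2
  exact nu_mul (neg_mem (add_mem (mul_mem h6 hzU.2.1) (by
    rw [ValuationSubring.mem_nonunits_iff] at hg
    exact (ValuationSubring.valuation_le_one_iff _ _).1 hg.le))) hg

theorem tp_p2 (hPRM : S_PRM) (hNRM : S_NRM) (h0 : h.coeff 0 ≠ 0) [IsAlgClosure ℚ A]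
    (hRES : ∀ (l : ℕ), l.Prime →
      ¬ l ∣ B → ∀ (V : ValuationSubring A) (φ : A ≃ₐ[ℚ] A), (l : A) ∈ V.nonunits → Frb V l φ →
      ∀ (j : L →ₐ[ℚ] A) (z : A), z ∈ V → (∀ m : ℕ, (φ ^ m) (j θ) = j θ → (φ ^ m) z = z) →
      ∃ g : 𝓞 L, j (g : L) - z ∈ V.nonunits)
    (p : (Rt (X * h) A → A) × ((A ≃ₐ[ℚ] A) → Rt (X * h) A → A)) {l : ℕ} (hl : l.Prime)
    (hl2 : l ≠ 2) (hlB : ¬ l ∣ B) : P2 l (TP.{v} h A L P Φ J B p) := by
  have hcl : IsAlgClosed A := IsAlgClosure.isAlgClosed ℚ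
  have hch : CharZero A := algebraRat.charZero A
  constructor
  · rintro ⟨α, m⟩ ⟨D, M, _, S, hα0, hA, hB, hN⟩ ⟨α', m'⟩ ⟨D', M', _, S', hα0', hA', hB', hN'⟩ v0 hv0
      hα hα' v hv hvv
    change α ∈ v0.asIdeal at hα
    change α' ∈ v0.asIdeal at hα'
    change α ≠ 0 at hα0
    change α' ≠ 0 at hα0'
    obtain ⟨hlm, r, h1, h2, h3⟩ := bel2_of_mem hB hl hlB hv0 hα
    obtain ⟨hlm', r', h1', h2', h3'⟩ := bel2_of_mem hB' hl hlB hv0 hα'
    have hrr : r' = r := Env2.unq E hNRM hl hlB h1 h1'.mem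
    subst hrr
    have h4 := (Env2.val E hPRM hNRM hα0 hl hlB h1 h2 h3).1
    have h4' := (Env2.val E hPRM hNRM hα0' hl hlB h1' h2' h3').1
    have hfix : ra (Φ l) (inc r' : Rt (X * h) A) = inc r' := by
      rw [ra_inc, h1.fix]
    obtain ⟨c, z, hc, hz⟩ := tyE hl hl2 (E.hP l hl).1 (E.hP l hl).2 r0 (inc r') p.1 p.2 M M' S S'
      (ev J α m) (ev J α' m') hA hA' hfix h1.can h1'.can
    have hcA : (c : A) ≠ 0 := by
      have : c ≠ 0 := by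
        rintro rfl
        exact hc (dvd_zero _)
      exact_mod_cast this
    obtain ⟨hz0, hz0φ⟩ := hz r0 (inc_ne h0 r').symm
    rw [ra_r0] at hz0φ
    rw [ev_r0 h0, ev_r0 h0] at hz0
    -- the square roots of `m m' α α'`
    set z' : Rt h A → A := fun i => z r0 * z (inc i) / c with hz'
    have hQ : ∀ i, i ≠ r' → ra (Φ l) i ≠ r' := by
      intro i hi h
      apply hi
      apply (ra (Φ l)).injective
      rw [h, h1.fix]
    have hz'φ : ∀ i, i ≠ r' → (Φ l) (z' i) = z' (ra (Φ l) i) := by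
      intro i hi
      have h5 := (hz (inc i) (fun h => hi (inc_inj h))).2
      rw [ra_inc] at h5
      simp only [hz']
      rw [map_div₀, map_mul, hz0φ, h5, map_intCast]
    obtain ⟨j, hj⟩ := (hPRM A L l hl (P l) (E.hP l hl).1).2 v hv
    obtain ⟨i, rfl⟩ := Setup.eq_emb E.hs E.hJ j
    have hir : i ≠ r' := by
      rintro rfl
      apply hvv
      ext a
      rw [hj, h1.mem]
    have hy : z' i ^ 2 = J i ((((m * m' : ℤ) : 𝓞 L) * α * α' : 𝓞 L) : L) := by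
      have h5 := (hz (inc i) (fun h => hir (inc_inj h))).1
      rw [ev_inc, ev_inc] at h5
      have h6 : ((((m * m' : ℤ) : 𝓞 L) * α * α' : 𝓞 L) : L) = (m : L) * m' * (α : L) * (α' : L) := by
        push_cast
        rfl
      simp only [hz']
      rw [div_pow, mul_pow, hz0, h5, h6, map_mul, map_mul, map_mul, map_intCast, map_intCast]
      field_simp
    have hU : IsU (P l) (J i ((((m * m' : ℤ) : 𝓞 L) * α * α' : 𝓞 L) : L)) := by
      have h6 : ((((m * m' : ℤ) : 𝓞 L) * α * α' : 𝓞 L) : L) = (m : L) * m' * (α : L) * (α' : L) := by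
        push_cast
        rfl
      rw [h6, map_mul, map_mul, map_mul, map_intCast, map_intCast]
      exact (((isU_int hl (E.hP l hl).1 hlm).mul (isU_int hl (E.hP l hl).1 hlm')).mul
        (h4 i hir)).mul (h4' i hir)
    obtain ⟨g, hg⟩ := res_sq E B hRES hl hlB (Q := fun i => i ≠ r') hQ hz'φ hir hy hU
    exact ⟨g, (hj _).2 hg⟩
  · rintro ⟨α, m⟩ ⟨D, M, _, S, hα0, hA, hB, hN⟩ ⟨α', m'⟩ ⟨D', M', _, S', hα0', hA', hB', hN'⟩ hm hm'
    change (l : ℤ) ∣ m at hm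
    change (l : ℤ) ∣ m' at hm'
    change α ≠ 0 at hα0
    change α' ≠ 0 at hα0'
    obtain ⟨h1, h2⟩ := bel2_of_dvd hB hl hlB hm
    obtain ⟨h1', h2'⟩ := bel2_of_dvd hB' hl hlB hm'
    have h3 := h2 (P l) (Φ l) (E.hP l hl).1 (E.hP l hl).2
    have h3' := h2' (P l) (Φ l) (E.hP l hl).1 (E.hP l hl).2
    obtain ⟨c, z, hc, hz⟩ := tyE hl hl2 (E.hP l hl).1 (E.hP l hl).2 r0 r0 p.1 p.2 M M' S S'
      (ev J α m) (ev J α' m') hA hA' (ra_r0 _) h3.can h3'.can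
    refine ⟨c, hc, fun v hv => ?_⟩
    obtain ⟨j, hj⟩ := (hPRM A L l hl (P l) (E.hP l hl).1).2 v hv
    obtain ⟨i, rfl⟩ := Setup.eq_emb E.hs E.hJ j
    have h6 : (((c : 𝓞 L) * α * α' : 𝓞 L) : L) = (c : L) * (α : L) * (α' : L) := by
      push_cast
      rfl
    have hy : z (inc i) ^ 2 = J i (((c : 𝓞 L) * α * α' : 𝓞 L) : L) := by
      have h5 := (hz (inc i) (inc_ne h0 i)).1
      rw [ev_inc, ev_inc] at h5
      rw [h5, h6, map_mul, map_mul, map_intCast]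
      ring
    have hU : IsU (P l) (J i (((c : 𝓞 L) * α * α' : 𝓞 L) : L)) := by
      rw [h6, map_mul, map_mul, map_intCast]
      exact ((isU_int hl (E.hP l hl).1 hc).mul (E.even_val hPRM hα0 hl h1 i)).mul
        (E.even_val hPRM hα0' hl h1' i)
    obtain ⟨g, hg⟩ := res_sq E B hRES hl hlB (z := fun i => z (inc i)) (Q := fun _ => True)
      (fun _ _ => trivial) (fun k _ => by
        have h5 := (hz (inc k) (inc_ne h0 k)).2
        rw [ra_inc] at h5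
        exact h5) (i := i) trivial hy hU
    exact ⟨g, (hj _).2 hg⟩

end

end Pool.Agent.Q161.OD
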