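import Pool.Agent.Q161.OD.Ar4

/-! # Project OD: assembly of `S_AR2` -/

set_option autoImplicit false

namespace Pool.Agent.Q161.OD

open Polynomial NumberField IsDedekindDomain
open Pool.Agent.W623.SecC (IsU isU_one)
open Pool.Agent.Q51.EL
open Pool.Agent.Q161.SX

universe u v w

theorem ar2 (hPLC : S_PLC) (hCNJ : S_CNJ) (hPRM : S_PRM) (hEVN : S_EVN) (hDST : S_DST)
    (hNRM : S_NRM) (hCLU : S_CLU) (hSEL : S_SEL) (hKUM : S_KUM.{v}) (hTFN : S_TFN) (hRES : S_RES)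
    (hROOT : S_ROOT) (hCHB : S_CHB) : S_AR2.{v} := by
  classical
  intro h L _ _ θ hs h0 hn hodd A _ _ _ B0 hB0
  have hh0 := Setup.f0 hs
  have hf0 : (X * h : ℤ[X]) ≠ 0 := mul_ne_zero X_ne_zero hh0
  have hcl : IsAlgClosed A := IsAlgClosure.isAlgClosed ℚ
  have halg : Algebra.IsAlgebraic ℚ A := IsAlgClosure.isAlgebraic
  have hch : CharZero A := algebraRat.charZero A
  -- places
  have hPex : ∀ l : ℕ, ∃ (V : ValuationSubring A) (φ : A ≃ₐ[ℚ] A), l.Prime →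
      (l : A) ∈ V.nonunits ∧ Frb V l φ := by
    intro l
    by_cases hl : l.Prime
    · obtain ⟨V, φ, h⟩ := hPLC A l hl
      exact ⟨V, φ, fun _ => h⟩
    · exact ⟨⊤, 1, fun h => absurd h hl⟩
  choose P Φ hP using hPex
  -- embeddings
  have hJex : ∀ i : Rt h A, ∃ j : L →ₐ[ℚ] A, j θ = i.1 := fun i => Setup.exists_emb hs i
  choose J hJ using hJex
  -- the splitting field
  have hfd : FiniteDimensional ℚ (spl (X * h) A) := spl_fd hf0
  have hNF : NumberField (spl (X * h) A) := by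
    refine { to_charZero := inferInstance, to_finiteDimensional := ?_ }
    have h1 : (DivisionRing.toRatAlgebra : Algebra ℚ (spl (X * h) A)) = (spl (X * h) A).algebra' :=
      Subsingleton.elim _ _
    rw [h1]
    exact hfd
  -- the bad primes
  obtain ⟨BD, hBD0, hBD⟩ := hDST h (Setup.sep hs)
  obtain ⟨BT, hBT0, hBT⟩ := hRES h L θ hs
  obtain ⟨BC, C, hBC0, hC, hBC⟩ := hCLU L
  obtain ⟨BR, hBR0, -, hBR⟩ := hROOT h L θ hs
  set B := B0 * BD * BT * BC * BR * 2 with hB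
  have hBne : B ≠ 0 := mul_ne_zero (mul_ne_zero (mul_ne_zero (mul_ne_zero (mul_ne_zero hB0 hBD0) hBT0)
    hBC0) hBR0) two_ne_zero
  have d0 : B0 ∣ B := ⟨BD * BT * BC * BR * 2, by rw [hB]; ring⟩
  have dD : BD ∣ B := ⟨B0 * BT * BC * BR * 2, by rw [hB]; ring⟩
  have dT : BT ∣ B := ⟨B0 * BD * BC * BR * 2, by rw [hB]; ring⟩
  have dC : BC ∣ B := ⟨B0 * BD * BT * BR * 2, by rw [hB]; ring⟩
  have dR : BR ∣ B := ⟨B0 * BD * BT * BC * 2, by rw [hB]; ring⟩
  have d2 : 2 ∣ B := ⟨B0 * BD * BT * BC * BR, by rw [hB]; ring⟩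
  have E : Env h L θ A P Φ J B :=
    { hs := hs
      hP := hP
      hJ := hJ
      dst := fun l hl hlB => by
        have h := hBD A l hl (fun h => hlB (h.trans dD)) (P l) (hP l hl).1
        exact ⟨h.1, h.2.2⟩
      ram := fun l hl hlB v hv => ((hBR l hl (fun h => hlB (h.trans dR))).1 v hv).2 }
  obtain ⟨T, hT0, hT⟩ := hSEL (spl (X * h) A) B hBne
  set T' : Set A := insert (1 : A) ((fun z : spl (X * h) A => (z : A)) ''
    (T : Set (spl (X * h) A))) with hT'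
  have hT'fin : T'.Finite := (T.finite_toSet.image _).insert _
  have hT'0 : (0 : A) ∉ T' := by
    intro h
    rcases h with h | ⟨z, hz, hz0⟩
    · exact one_ne_zero h.symm
    · apply hT0
      have : z = 0 := Subtype.ext hz0
      rw [← this]
      exact hz
  have hfin := hTFN (X * h) A hf0 r0 T' hT'fin hT'0
  set Ty := {p : (Rt (X * h) A → A) × ((A ≃ₐ[ℚ] A) → Rt (X * h) A → A) | (∀ i, p.1 i ∈ T') ∧
    (∀ σ i, p.2 σ i ^ 2 * σ (p.1 i) * p.1 (ra σ r0) = p.1 (ra σ i)) ∧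
    ∀ σ τ : A ≃ₐ[ℚ] A, (∀ z ∈ spl (X * h) A, σ z = τ z) → p.2 σ = p.2 τ} with hTy
  have hfin' : Finite Ty := hfin.to_subtype
  obtain ⟨N, ⟨e⟩⟩ := Finite.exists_equiv_fin Ty
  refine ⟨B, C, N, fun k => TP.{v} h A L P Φ J B (e.symm k).1, hBne, hC, ?_, ?_, ?_⟩
  · intro k l hl hlB
    refine ⟨tp_p1 _ hl hlB, tp_p2 E hPRM hNRM h0 ?_ _ hl ?_ hlB⟩
    · exact fun l hl hlB V φ hV hφ j z hz hm =>
        hBT A l hl (fun h => hlB (h.trans dT)) V φ hV hφ j z hz hm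
    · rintro rfl
      exact hlB d2
  · intro k α
    exact tp_thin hCHB h0 hf0 hBne _ α
  · intro D M _ S hD hS hN
    obtain ⟨α, m, hα0, hm1, hmD, hα, hαC⟩ := ar1 hPRM hNRM hCNJ hKUM hs h0 (by omega) P Φ hP J hJ
      B0 BC B d0 dC C hC hBC D S hD hS
    obtain ⟨t, lam, ht, hatt⟩ := Env2.att E hPRM hNRM hEVN hKUM h0 T hT0 hT hα0 (by omega) hα
    have hlam := lamE hatt
    have hmem : (t, lam) ∈ Ty := ⟨ht, hlam.1, hlam.2.1⟩
    refine ⟨e ⟨(t, lam), hmem⟩, (α, m), ?_, ?_, hm1, hmD, hαC⟩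
    · refine ⟨D, M, inferInstance, S, hα0, ?_, hα, hN⟩
      rw [Equiv.symm_apply_apply]
      exact hatt
    · intro l hl hlB
      change _ ↔ (l : ℤ) ∣ m ∨ ∃ v : HeightOneSpectrum (𝓞 L), Abv v l ∧ α ∈ v.asIdeal
      constructor
      · intro hlD
        rcases hα.odd l hl hlB hlD with ⟨h1, -⟩ | ⟨-, r, v0, h1, h2, -⟩
        · exact Or.inl h1
        · exact Or.inr ⟨v0, h1.abv, mem_of_val h2⟩
      · intro h1
        by_contra hlD
        obtain ⟨-, h2, h3⟩ := hα.even l hl hlB hlD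
        rcases h1 with h4 | ⟨v, hv, hαv⟩
        · exact h2 h4
        · exact notMem_of_val (h3 v hv) hαv

end Pool.Agent.Q161.OD
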