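import Pool.Agent.Q161.OD.Ql
import Pool.Agent.Q161.SX.Top

/-! # Project OD: the count of the twists with a section of nontrivial class -/

set_option autoImplicit false

namespace Pool.Agent.Q161.OD

open Polynomial NumberField IsDedekindDomain
open Pool.Agent.W623.SecC (IsU isU_one)
open Pool.Agent.Q51.EL
open Pool.Agent.Q161.SX

universe u v w

/-- the integers without prime factors in `P` -/
theorem z1_int (P : Set ℕ) (hP : Dvg P) (ε : ℝ) (hε : 0 < ε) : ∃ X0 : ℝ, ∀ X : ℝ, X0 ≤ X →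
    (({D : ℤ | (D.natAbs : ℝ) ≤ X ∧ Squarefree D ∧ ∀ l ∈ P, ¬ (l : ℤ) ∣ D}.ncard : ℕ) : ℝ) ≤
      ε * X := by
  classical
  obtain ⟨X0, hX0⟩ := Pool.Agent.Q225.OD.z1 P hP (ε / 2) (by positivity)
  refine ⟨X0, fun X hX => ?_⟩
  have h1 := hX0 X hX
  obtain ⟨F, hF⟩ : ∃ F : Finset ℕ, F = (Finset.Icc 1 ⌊X⌋₊).filter (fun m : ℕ => ∀ l ∈ P, ¬ l ∣ m) :=
    ⟨_, rfl⟩
  have h1' : (F.card : ℝ) ≤ ε / 2 * X := by
    rw [hF]
    convert h1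
  have hsub : {D : ℤ | (D.natAbs : ℝ) ≤ X ∧ Squarefree D ∧ ∀ l ∈ P, ¬ (l : ℤ) ∣ D} ⊆
      (((F.image (fun m : ℕ => (m : ℤ))) ∪ (F.image (fun m : ℕ => -(m : ℤ))) : Finset ℤ) : Set ℤ) := by
    rintro D ⟨h2, h3, h4⟩
    have hD : D.natAbs ∈ F := by
      rw [hF, Finset.mem_filter, Finset.mem_Icc]
      refine ⟨⟨Nat.one_le_iff_ne_zero.2 (Int.natAbs_ne_zero.2 h3.ne_zero), Nat.le_floor h2⟩, ?_⟩
      intro l hl hlD
      exact h4 l hl (Int.natCast_dvd.2 hlD)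
    rw [Finset.coe_union, Set.mem_union, Finset.mem_coe, Finset.mem_coe, Finset.mem_image,
      Finset.mem_image]
    rcases Int.natAbs_eq D with h5 | h5
    · exact Or.inl ⟨_, hD, h5.symm⟩
    · exact Or.inr ⟨_, hD, h5.symm⟩
  have h2 := Set.ncard_le_ncard hsub (Finset.finite_toSet _)
  rw [Set.ncard_coe_finset] at h2
  have h3 := (h2.trans (Finset.card_union_le _ _)).trans
    (add_le_add Finset.card_image_le Finset.card_image_le)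
  have h4 : (({D : ℤ | (D.natAbs : ℝ) ≤ X ∧ Squarefree D ∧ ∀ l ∈ P, ¬ (l : ℤ) ∣ D}.ncard : ℕ) : ℝ) ≤
      F.card + F.card := by exact_mod_cast h3
  linarith

theorem xh_sep {h : ℤ[X]} (hirr : Irreducible (h.map (Int.castRingHom ℚ))) (h0 : h.coeff 0 ≠ 0) :
    ((X * h : ℤ[X]).map (Int.castRingHom ℚ)).Separable := by
  rw [Polynomial.map_mul, Polynomial.map_X]
  refine separable_X.mul hirr.separable ?_
  refine (hirr.coprime_iff_not_dvd.2 ?_).symm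
  intro h1
  have h2 : ¬ IsUnit (X : ℚ[X]) := not_isUnit_X
  have h3 : Associated (h.map (Int.castRingHom ℚ)) X :=
    hirr.associated_of_dvd (irreducible_X) h1
  have h4 : (X : ℚ[X]) ∣ h.map (Int.castRingHom ℚ) := h3.symm.dvd
  rw [X_dvd_iff, coeff_map] at h4
  apply h0
  have h5 : ((h.coeff 0 : ℤ) : ℚ) = 0 := h4
  exact_mod_cast h5

attribute [-instance] DivisionRing.toRatAlgebra in
theorem fin3 (h : ℤ[X]) (hirr : Irreducible (h.map (Int.castRingHom ℚ))) (h0 : h.coeff 0 ≠ 0)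
    (h5 : 5 ≤ h.natDegree) (hodd : Odd h.natDegree) (A : Type) [Field A] [Algebra ℚ A]
    [IsAlgClosure ℚ A] (B0 : ℕ) (hB0 : B0 ≠ 0) (ε : ℝ) (hε : 0 < ε) : ∃ X0 : ℝ, ∀ X : ℝ, X0 ≤ X →
    (({D : ℤ | (D.natAbs : ℝ) ≤ X ∧ Squarefree D ∧
      ∃ (M : Type v) (_ : Field M) (S : Sec (Polynomial.X * h) A M),
        S.Good D B0 ∧ Eqn h D S ∧ ¬ RT h D S}.ncard : ℕ) : ℝ) ≤ ε * X := by
  classical
  obtain ⟨L, _, _, θ, hs⟩ := Pool.Agent.Q251.SX.exists_L h hirr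
  obtain ⟨BD, hBD0, hBD⟩ := Pool.Agent.Q162.SX.dst (X * h) (xh_sep hirr h0)
  have hf0 : (X * h : ℤ[X]) ≠ 0 := mul_ne_zero X_ne_zero (Setup.f0 hs)
  have halg : Algebra.IsAlgebraic ℚ A := IsAlgClosure.isAlgebraic
  have hfd : FiniteDimensional ℚ (spl (X * h) A) := spl_fd hf0
  have hB : B0 * BD ≠ 0 := mul_ne_zero hB0 hBD0
  have hfin : Finite (spl (X * h) A →ₐ[ℚ] A) := inferInstance
  have hft : Fintype (spl (X * h) A →ₐ[ℚ] A) := Fintype.ofFinite _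
  obtain ⟨X1, hX1⟩ := t_fin2.{v} h hirr h0 h5 hodd A B0 hB0 (ε / 2) (by positivity)
  have hP : ∀ τ : spl (X * h) A →ₐ[ℚ] A, ∃ P : Set ℕ, Dvg P ∧
      ∀ σ0 : A ≃ₐ[ℚ] A, (∀ z : spl (X * h) A, σ0 (z : A) = τ z) → ∀ l ∈ P, l.Prime ∧
        ¬ l ∣ B0 * BD ∧ ∃ (V : ValuationSubring A) (φ : A ≃ₐ[ℚ] A), (l : A) ∈ V.nonunits ∧
          Frb V l φ ∧ ∀ z ∈ spl (X * h) A, φ z = σ0 z := by
    intro τ
    by_cases hτ : ∃ σ0 : A ≃ₐ[ℚ] A, ∀ z : spl (X * h) A, σ0 (z : A) = τ z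
    · obtain ⟨σ1, hσ1⟩ := hτ
      refine ⟨_, (chk A (spl (X * h) A) hfd σ1).diff hB, ?_⟩
      rintro σ0 hσ0 l ⟨⟨hl, V, φ, h1, h2, h3⟩, hlB⟩
      refine ⟨hl, hlB, V, φ, h1, h2, fun z hz => ?_⟩
      rw [h3 z hz]
      exact (hσ1 ⟨z, hz⟩).trans (hσ0 ⟨z, hz⟩).symm
    · exact ⟨_, dvg_primes, fun σ0 hσ0 => absurd ⟨σ0, hσ0⟩ hτ⟩
  choose P hPD hP using hP
  set N : ℕ := Fintype.card (spl (X * h) A →ₐ[ℚ] A) with hN
  have hZ : ∀ τ : spl (X * h) A →ₐ[ℚ] A, ∃ X0 : ℝ, ∀ X : ℝ, X0 ≤ X →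
      (({D : ℤ | (D.natAbs : ℝ) ≤ X ∧ Squarefree D ∧ ∀ l ∈ P τ, ¬ (l : ℤ) ∣ D}.ncard : ℕ) : ℝ) ≤
        ε / (2 * (N + 1)) * X := fun τ => z1_int (P τ) (hPD τ) _ (by positivity)
  choose Z hZ using hZ
  refine ⟨max (max X1 0) (∑ τ, |Z τ|), fun X hX => ?_⟩
  have hXX1 : X1 ≤ X := ((le_max_left _ _).trans (le_max_left _ _)).trans hX
  have hX0 : 0 ≤ X := ((le_max_right _ _).trans (le_max_left _ _)).trans hX
  have hXZ : ∀ τ, Z τ ≤ X := by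
    intro τ
    refine (le_abs_self _).trans (le_trans ?_ ((le_max_right _ _).trans hX))
    exact Finset.single_le_sum (f := fun τ => |Z τ|) (fun _ _ => abs_nonneg _) (Finset.mem_univ τ)
  obtain ⟨E1, hE1⟩ : ∃ E1 : Set ℤ, E1 = {D : ℤ | (D.natAbs : ℝ) ≤ X ∧ Squarefree D ∧
      ∃ (M : Type v) (_ : Field M) (S : Sec (Polynomial.X * h) A M), S.Good D B0 ∧ NT h S} :=
    ⟨_, rfl⟩
  obtain ⟨E2, hE2⟩ : ∃ E2 : (spl (Polynomial.X * h) A →ₐ[ℚ] A) → Set ℤ, E2 = fun τ =>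
      {D : ℤ | (D.natAbs : ℝ) ≤ X ∧ Squarefree D ∧ ∀ l ∈ P τ, ¬ (l : ℤ) ∣ D} := ⟨_, rfl⟩
  have hsub : {D : ℤ | (D.natAbs : ℝ) ≤ X ∧ Squarefree D ∧
      ∃ (M : Type v) (_ : Field M) (S : Sec (Polynomial.X * h) A M),
        S.Good D B0 ∧ Eqn h D S ∧ ¬ RT h D S} ⊆ E1 ∪ ⋃ τ, E2 τ := by
    rintro D ⟨h1, h2, M, _, S, h3, h4, h6⟩
    by_cases hNT : NT h S
    · left
      rw [hE1]
      exact ⟨h1, h2, M, inferInstance, S, h3, hNT⟩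
    · right
      obtain ⟨σ0, hσ0⟩ := ql hs hodd (by omega) h0 (B0 := B0) (BD := BD)
        (fun l hl hlB V hV => (hBD A l hl hlB V hV).2.2) h2.ne_zero h3 h4 hNT h6
      obtain ⟨τ, hτ⟩ : ∃ τ : spl (Polynomial.X * h) A →ₐ[ℚ] A, ∀ z : spl (Polynomial.X * h) A,
          σ0 (z : A) = τ z := ⟨(σ0 : A →ₐ[ℚ] A).comp (spl (Polynomial.X * h) A).val, fun z => rfl⟩
      rw [Set.mem_iUnion]
      refine ⟨τ, ?_⟩
      rw [hE2]
      refine ⟨h1, h2, fun l hl => ?_⟩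
      obtain ⟨g1, g2, g3⟩ := hP τ σ0 hτ l hl
      exact hσ0 l g1 g2 g3
  have hE1f : E1.Finite := by
    rw [hE1]
    exact natAbs_finite X _
  have hE2f : ∀ τ, (E2 τ).Finite := by
    intro τ
    rw [hE2]
    exact natAbs_finite X _
  have h6 := Set.ncard_le_ncard hsub (hE1f.union (Set.finite_iUnion hE2f))
  have h7 := h6.trans (Set.ncard_union_le _ _)
  have h8 := Set.ncard_iUnion_le_of_fintype E2
  have h9 : (({D : ℤ | (D.natAbs : ℝ) ≤ X ∧ Squarefree D ∧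
      ∃ (M : Type v) (_ : Field M) (S : Sec (Polynomial.X * h) A M),
        S.Good D B0 ∧ Eqn h D S ∧ ¬ RT h D S}.ncard : ℕ) : ℝ) ≤
      (E1.ncard : ℝ) + ∑ τ, ((E2 τ).ncard : ℝ) := by
    exact_mod_cast h7.trans (Nat.add_le_add_left h8 _)
  have h10 : (E1.ncard : ℝ) ≤ ε / 2 * X := by
    rw [hE1]
    exact hX1 X hXX1
  have h11 : ∑ τ, ((E2 τ).ncard : ℝ) ≤ ε / 2 * X := by
    have h12 : ∀ τ, ((E2 τ).ncard : ℝ) ≤ ε / (2 * (N + 1)) * X := by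
      intro τ
      rw [hE2]
      exact hZ τ X (hXZ τ)
    refine (Finset.sum_le_sum fun τ _ => h12 τ).trans ?_
    rw [Finset.sum_const, Finset.card_univ, ← hN, nsmul_eq_mul]
    have h13 : (N : ℝ) * (ε / (2 * (N + 1)) * X) = (N / (N + 1)) * (ε / 2 * X) := by
      have : (N : ℝ) + 1 ≠ 0 := by positivity
      field_simp
    rw [h13]
    refine mul_le_of_le_one_left (by positivity) ?_
    rw [div_le_one (by positivity)]
    linarith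
  linarith

end Pool.Agent.Q161.OD
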