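import Pool.Agent.Q161.OD.TopN
import Pool.Agent.Q161.OS.Pts

/-! # Project OD: sections and the 2-covering of the point at infinity, final form -/

set_option autoImplicit false

namespace Pool.Agent.Q161.OD

open Polynomial IntermediateField
open Pool.Agent.W620.SC
open Pool.Agent.Q161.SX

universe u v w

section gen

variable {k : Type u} {F : Type v} {Ω : Type w} [Field k] [Field F] [Field Ω] [Algebra k F]
  [Algebra F Ω] [Algebra k Ω]

/-- the point of `D y² = f(x)` with the coordinate `x` lifts to the 2-covering `a D (x - θ) = η(θ)²`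
over the field fixed by the section -/
def Lft (f : ℤ[X]) (D : ℤ) {N : IntermediateField F Ω} (G : NSec k F Ω N) (x : F) : Prop :=
  ∃ η : N[X], (∀ σ i, G.toHom σ (η.coeff i) = η.coeff i) ∧ ∀ θ : Ω, aeval θ f = 0 →
    (aeval θ η) ^ 2 = ((f.leadingCoeff * D : ℤ) : Ω) * (algebraMap F Ω x - θ)

/-- elements of `F` which are algebraic over `k` are in `k` if there is a section -/
theorem nsec_alg [IsScalarTower k F Ω] [CharZero k] [IsAlgClosed Ω] {N : IntermediateField F Ω}
    (G : NSec k F Ω N) (z : F) (hz : IsAlgebraic k z) : ∃ c : k, algebraMap k F c = z := by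
  have hac : IsAlgClosure k (algebraicClosure k Ω) := inferInstance
  have : Normal k (algebraicClosure k Ω) := IsAlgClosure.normal k _
  have hGal : IsGalois k (algebraicClosure k Ω) := ⟨⟩
  have h1 : IsIntegral k (algebraMap F Ω z) := by
    have h2 : IsIntegral k z := isAlgebraic_iff_isIntegral.1 hz
    exact h2.map (IsScalarTower.toAlgHom k F Ω)
  set b : algebraicClosure k Ω := ⟨algebraMap F Ω z, h1⟩ with hb
  have h2 : b ∈ (⊥ : IntermediateField k (algebraicClosure k Ω)) := by
    apply Pool.Agent.W620.SC.mem_of_fixed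
    intro σ _
    apply Subtype.ext
    rw [← G.compat σ b (algebraMap F N z) rfl, (G.toHom σ).commutes]
    rfl
  obtain ⟨c, hc⟩ := IntermediateField.mem_bot.1 h2
  refine ⟨c, (algebraMap F Ω).injective ?_⟩
  rw [← IsScalarTower.algebraMap_apply]
  exact congrArg Subtype.val hc

/-- the zeros of an irreducible polynomial are conjugate -/
theorem conj_root [CharZero k] [IsAlgClosed Ω] {f : ℤ[X]}
    (hf : Irreducible (f.map (Int.castRingHom k))) {a b : algebraicClosure k Ω}
    (ha : aeval a f = 0) (hb : aeval b f = 0) :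
    ∃ σ : algebraicClosure k Ω ≃ₐ[k] algebraicClosure k Ω, σ a = b := by
  have hac : IsAlgClosure k (algebraicClosure k Ω) := inferInstance
  have : Normal k (algebraicClosure k Ω) := IsAlgClosure.normal k _
  have key : ∀ c : algebraicClosure k Ω, aeval c f = 0 → aeval c (f.map (Int.castRingHom k)) = 0 := by
    intro c hc
    rw [aeval_def, eval₂_map]
    rw [aeval_def] at hc
    rw [← hc]
    congr 1
    exact RingHom.ext_int _ _
  have h1 := minpoly.eq_of_irreducible hf (key a ha)
  have h2 := minpoly.eq_of_irreducible hf (key b hb)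
  have h3 : IsConjRoot k a b := by
    rw [isConjRoot_def, ← h1, ← h2]
  obtain ⟨σ, hσ⟩ := (isConjRoot_iff_exists_algEquiv).1 h3
  exact ⟨σ.symm, by rw [← hσ, σ.symm_apply_apply]⟩

open Classical in
/-- from square roots over the fields `k(θ)` to a point of the 2-covering -/
theorem lft_of_roots [IsScalarTower k F Ω] [CharZero k] [IsAlgClosed Ω] {f : ℤ[X]}
    (hf : Irreducible (f.map (Int.castRingHom k))) (D : ℤ) {N : IntermediateField F Ω}
    (hN : ∀ c : algebraicClosure k Ω, (c : Ω) ∈ N) (G : NSec k F Ω N) (x : F)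
    (h : ∀ θ : algebraicClosure k Ω, aeval (θ : Ω) f = 0 → ∃ β : N,
      (β : Ω) ^ 2 = ((f.leadingCoeff * D : ℤ) : Ω) * (algebraMap F Ω x - θ) ∧ FixN G θ β) :
    Lft f D G x := by
  have hac : IsAlgClosure k (algebraicClosure k Ω) := inferInstance
  have hkb : IsAlgClosed (algebraicClosure k Ω) := hac.1
  have hinj : Function.Injective (Int.castRingHom k) := by
    intro a b hab
    exact Int.cast_injective hab
  have hf0 : f ≠ 0 := by
    rintro rfl
    exact hf.ne_zero (Polynomial.map_zero _)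
  have hcz : CharZero (algebraicClosure k Ω) :=
    charZero_of_injective_algebraMap (algebraMap k (algebraicClosure k Ω)).injective
  obtain ⟨P, hP⟩ : ∃ P : (algebraicClosure k Ω)[X],
    P = f.map (Int.castRingHom (algebraicClosure k Ω)) := ⟨_, rfl⟩
  have hP0 : P ≠ 0 := by
    rw [hP]
    exact (Polynomial.map_ne_zero_iff (RingHom.injective_int _)).2 hf0
  obtain ⟨R, hR⟩ : ∃ R : Finset (algebraicClosure k Ω), R = P.roots.toFinset := ⟨_, rfl⟩
  have hmem : ∀ c : algebraicClosure k Ω, c ∈ R ↔ aeval c f = 0 := by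
    intro c
    rw [hR, Multiset.mem_toFinset, mem_roots hP0, IsRoot.def, hP, eval_map, aeval_def]
    have : algebraMap ℤ (algebraicClosure k Ω) = Int.castRingHom _ := RingHom.ext_int _ _
    rw [this]
  have hdeg : 0 < P.natDegree := by
    rw [hP, natDegree_map_eq_of_injective (RingHom.injective_int _)]
    have h1 := hf.natDegree_pos
    rwa [natDegree_map_eq_of_injective hinj] at h1
  obtain ⟨θ0, hθ0⟩ : ∃ θ0 : algebraicClosure k Ω, aeval θ0 f = 0 := by
    obtain ⟨c, hc⟩ := IsAlgClosed.exists_root P (by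
      rw [Ne, degree_eq_natDegree hP0]
      exact_mod_cast hdeg.ne')
    refine ⟨c, ?_⟩
    rw [← hmem, hR, Multiset.mem_toFinset, mem_roots hP0]
    exact hc
  have hcoe : ∀ c : algebraicClosure k Ω, aeval c f = 0 → aeval (c : Ω) f = 0 := by
    intro c hc
    have h1 := congrArg (algebraMap (algebraicClosure k Ω) Ω) hc
    rw [map_zero, ← aeval_algebraMap_apply] at h1
    exact h1
  obtain ⟨β0, hβ0, hfix⟩ := h θ0 (hcoe θ0 hθ0)
  have hσ : ∀ c : algebraicClosure k Ω, ∃ σ : algebraicClosure k Ω ≃ₐ[k] algebraicClosure k Ω,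
      aeval c f = 0 → σ θ0 = c := by
    intro c
    by_cases hc : aeval c f = 0
    · obtain ⟨σ, h1⟩ := conj_root hf hθ0 hc
      exact ⟨σ, fun _ => h1⟩
    · exact ⟨1, fun h => absurd h hc⟩
  choose s hs using hσ
  set b : algebraicClosure k Ω → N := fun c => G.toHom (s c) β0 with hb
  set nd : algebraicClosure k Ω → N := fun c => ⟨(c : Ω), hN c⟩ with hnd
  have hndi : Set.InjOn nd R := by
    intro c _ c' _ hcc
    have h1 := congrArg (algebraMap N Ω) hcc
    exact Subtype.ext h1
  have hGnd : ∀ σ c, G.toHom σ (nd c) = nd (σ c) := by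
    intro σ c
    exact Subtype.ext (G.compat σ c (nd c) rfl)
  -- the action on the square roots
  have hact : ∀ σ c, aeval c f = 0 → G.toHom σ (b c) = b (σ c) := by
    intro σ c hc
    have hc' : aeval (σ c) f = 0 := by
      have h1 := congrArg σ hc
      rw [map_zero] at h1
      have h2 : aeval (σ c) f = σ (aeval c f) := by
        have := (aeval_algHom_apply (σ.toAlgHom.restrictScalars ℤ) c f)
        exact this
      rw [h2, h1]
    have h3 : G.toHom ((s (σ c))⁻¹ * (σ * s c)) β0 = β0 := by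
      apply hfix
      show (s (σ c))⁻¹ (σ (s c θ0)) = θ0
      rw [hs c hc]
      have h4 := hs (σ c) hc'
      nth_rewrite 2 [← h4]
      show (s (σ c))⁻¹ ((s (σ c)) θ0) = θ0
      exact (s (σ c)).symm_apply_apply θ0
    have h5 := congrArg (G.toHom (s (σ c))) h3
    rw [map_mul, map_mul, map_inv] at h5
    show G.toHom σ (G.toHom (s c) β0) = G.toHom (s (σ c)) β0
    rw [← h5]
    show _ = G.toHom (s (σ c)) ((G.toHom (s (σ c)))⁻¹ (G.toHom σ (G.toHom (s c) β0)))
    exact ((G.toHom (s (σ c))).apply_symm_apply _).symm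
  obtain ⟨η, hη⟩ : ∃ η : N[X], η = Lagrange.interpolate R nd b := ⟨_, rfl⟩
  have heval : ∀ c, aeval c f = 0 → eval (nd c) η = b c := by
    intro c hc
    rw [hη]
    exact Lagrange.eval_interpolate_at_node b hndi ((hmem c).2 hc)
  refine ⟨η, ?_, ?_⟩
  · intro σ i
    have h1 : η.map (G.toHom σ : N →+* N) = η := by
      conv_rhs => rw [hη]
      apply Lagrange.eq_interpolate_of_eval_eq b hndi
      · refine lt_of_le_of_lt degree_map_le ?_
        rw [hη]
        exact Lagrange.degree_interpolate_lt b hndi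
      · intro c hc
        rw [hmem] at hc
        have hc' : aeval (σ⁻¹ c) f = 0 := by
          have h2 := congrArg (σ⁻¹ : algebraicClosure k Ω ≃ₐ[k] algebraicClosure k Ω) hc
          rw [map_zero] at h2
          have h3 : aeval (σ⁻¹ c) f = σ⁻¹ (aeval c f) := by
            have := (aeval_algHom_apply ((σ⁻¹ : algebraicClosure k Ω ≃ₐ[k]
              algebraicClosure k Ω).toAlgHom.restrictScalars ℤ) c f)
            exact this
          rw [h3, h2]
        have hcc : σ (σ⁻¹ c) = c := σ.apply_symm_apply c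
        have e1 : nd c = (G.toHom σ : N →+* N) (nd (σ⁻¹ c)) := by
          show nd c = G.toHom σ (nd (σ⁻¹ c))
          rw [hGnd, hcc]
        rw [e1, eval_map_apply, heval _ hc']
        show G.toHom σ (b (σ⁻¹ c)) = b c
        rw [hact σ _ hc', hcc]
    have h2 := congrArg (fun p => coeff p i) h1
    simp only [coeff_map] at h2
    exact h2
  · intro θ hθ
    have hint : IsIntegral k θ := by
      refine ⟨(f.map (Int.castRingHom k)) * C (f.map (Int.castRingHom k)).leadingCoeff⁻¹,
        monic_mul_leadingCoeff_inv hf.ne_zero, ?_⟩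
      rw [eval₂_mul, eval₂_map]
      have h1 : (algebraMap k Ω).comp (Int.castRingHom k) = algebraMap ℤ Ω := RingHom.ext_int _ _
      rw [h1, ← aeval_def, hθ, zero_mul]
    obtain ⟨c, hc⟩ : ∃ c : algebraicClosure k Ω, (c : Ω) = θ := ⟨⟨θ, hint⟩, rfl⟩
    have hc0 : aeval c f = 0 := by
      apply (algebraMap (algebraicClosure k Ω) Ω).injective
      rw [map_zero, ← aeval_algebraMap_apply]
      change aeval (c : Ω) f = 0
      rw [hc]
      exact hθ
    have h1 : aeval θ η = ((b c : N) : Ω) := by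
      have h2 := congrArg (algebraMap N Ω) (heval c hc0)
      have h3 : aeval (algebraMap N Ω (nd c)) η = algebraMap N Ω (eval (nd c) η) := by
        rw [aeval_algebraMap_apply]
        rfl
      rw [← h3] at h2
      have h4 : algebraMap N Ω (nd c) = θ := hc
      rw [h4] at h2
      exact h2
    have h5 : β0 ^ 2 = ((f.leadingCoeff * D : ℤ) : N) * (algebraMap F N x - nd θ0) := by
      apply (algebraMap N Ω).injective
      rw [map_pow, map_mul, map_sub, map_intCast]
      exact hβ0
    have h6 := congrArg (G.toHom (s c)) h5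
    rw [map_pow, map_mul, map_sub, map_intCast, (G.toHom (s c)).commutes, hGnd, hs c hc0] at h6
    have h7 := congrArg (algebraMap N Ω) h6
    rw [map_pow, map_mul, map_sub, map_intCast] at h7
    rw [h1, ← hc]
    exact h7

end gen

attribute [-instance] DivisionRing.toRatAlgebra in
/-- there is a point over a field and a section which does not lift to the 2-covering -/
def BdL (f : ℤ[X]) (D : ℤ) : Prop :=
  ∃ (F : Type v) (Ω : Type w) (_ : Field F) (_ : Field Ω) (_ : Algebra ℚ F)
    (_ : Algebra F Ω) (_ : Algebra ℚ Ω) (_ : IsScalarTower ℚ F Ω) (_ : IsAlgClosed Ω)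
    (_ : Algebra.IsAlgebraic F Ω) (U : Set (ValuationSubring F))
    (N : IntermediateField F Ω) (x y : F)
    (G : NSec ℚ F Ω N), (∀ O ∈ U, ∀ c : ℚ, algebraMap ℚ F c ∈ O) ∧ SqC ℚ F Ω U N ∧
    (D : F) * y ^ 2 = aeval x f ∧ ¬ Lft f D G x

attribute [-instance] DivisionRing.toRatAlgebra in
theorem bdl_cases (f : ℤ[X]) (hf : Irreducible (f.map (Int.castRingHom ℚ)))
    (h5 : 2 ≤ f.natDegree) (hodd : Odd f.natDegree) (D : ℤ) (hD : Squarefree D)
    (h : BdL.{v, w} f D) : BdN.{v, w} f D ∨ Pool.Agent.Q161.OS.BdP f D := by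
  by_contra hcon
  rw [not_or] at hcon
  obtain ⟨hN, hP⟩ := hcon
  obtain ⟨F, Ω, i1, i2, i3, i4, i5, i6, i7, i8, U, N, x, y, G, hU, hSq, hxy, hL⟩ := h
  apply hL
  by_cases hx : Transcendental ℚ x
  · apply lft_of_roots hf D hSq.const G x
    by_contra hT
    exact hN ⟨F, Ω, i1, i2, i3, i4, i5, i6, i7, i8, U, N, x, y, G, hU, hSq, hxy, hx, hT⟩
  · rw [Transcendental, not_not] at hx
    obtain ⟨q, rfl⟩ := nsec_alg G x hx
    have hcF : CharZero F := charZero_of_injective_algebraMap (algebraMap ℚ F).injective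
    have hDF : (D : F) ≠ 0 := Int.cast_ne_zero.2 hD.ne_zero
    have hev : aeval (algebraMap ℚ F q) f = algebraMap ℚ F (aeval q f) :=
      aeval_algebraMap_apply F q f
    have hy : IsAlgebraic ℚ y := by
      apply IsAlgebraic.of_pow (n := 2) (by norm_num)
      have h1 : y ^ 2 = algebraMap ℚ F (aeval q f / D) := by
        rw [map_div₀, ← hev, ← hxy, map_intCast]
        field_simp
      rw [h1]
      exact isAlgebraic_algebraMap _
    obtain ⟨r, rfl⟩ := nsec_alg G y hy
    have hqr : (D : ℚ) * r ^ 2 = aeval q f := by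
      apply (algebraMap ℚ F).injective
      rw [map_mul, map_intCast, map_pow, hxy, hev]
    obtain ⟨η, hη⟩ := Pool.Agent.Q161.OS.pts_rat f hf hodd h5 D hD.ne_zero hP q r hqr
    obtain ⟨j, hj⟩ : ∃ j : ℚ →+* N, j = (algebraMap F N).comp (algebraMap ℚ F) := ⟨_, rfl⟩
    refine ⟨η.map j, ?_, ?_⟩
    · intro σ i
      rw [coeff_map, hj]
      exact (G.toHom σ).commutes _
    · intro θ hθ
      obtain ⟨p, hp⟩ := hη
      have h1 := congrArg (eval₂ ((algebraMap N Ω).comp j) θ) hp
      have h2 : ((algebraMap N Ω).comp j).comp (Int.castRingHom ℚ) = algebraMap ℤ Ω :=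
        RingHom.ext_int _ _
      have h3 : eval₂ ((algebraMap N Ω).comp j) θ (f.map (Int.castRingHom ℚ)) = 0 := by
        rw [eval₂_map, h2, ← aeval_def, hθ]
      have h4 : aeval θ (η.map j) = eval₂ ((algebraMap N Ω).comp j) θ η := by
        rw [aeval_def, eval₂_map]
      have h6 : ((algebraMap N Ω).comp j) q = algebraMap F Ω (algebraMap ℚ F q) := by
        rw [hj]
        rfl
      rw [eval₂_mul, h3, zero_mul, eval₂_sub, eval₂_mul, eval₂_sub, eval₂_pow, eval₂_C, eval₂_C,
        eval₂_X, h6, map_intCast, sub_eq_zero] at h1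
      rw [h4, ← h1]

attribute [-instance] DivisionRing.toRatAlgebra in
theorem bdl_density (f : ℤ[X]) (hf : Irreducible (f.map (Int.castRingHom ℚ)))
    (h5 : 5 ≤ f.natDegree) (hodd : Odd f.natDegree) (ε : ℝ) (hε : 0 < ε) :
    ∃ X0 : ℝ, ∀ X : ℝ, X0 ≤ X →
    (({D : ℤ | (D.natAbs : ℝ) ≤ X ∧ Squarefree D ∧ BdL.{v, w} f D}.ncard : ℕ) : ℝ) ≤ ε * X := by
  obtain ⟨X1, h1⟩ := secN_density.{v, w} f hf h5 hodd (ε / 2) (by positivity)
  obtain ⟨X2, h2⟩ := Pool.Agent.Q161.OS.pts_density f hf hodd h5 (ε / 2) (by positivity)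
  refine ⟨max X1 X2, fun X hX => ?_⟩
  have h3 := h1 X ((le_max_left _ _).trans hX)
  have h4 := h2 X ((le_max_right _ _).trans hX)
  have hfin1 : {D : ℤ | (D.natAbs : ℝ) ≤ X ∧ Squarefree D ∧ BdN.{v, w} f D}.Finite :=
    natAbs_finite X _
  have hfin2 : {D : ℤ | (D.natAbs : ℝ) ≤ X ∧ Squarefree D ∧ Pool.Agent.Q161.OS.BdP f D}.Finite :=
    natAbs_finite X _
  have hsub : {D : ℤ | (D.natAbs : ℝ) ≤ X ∧ Squarefree D ∧ BdL.{v, w} f D} ⊆
      {D : ℤ | (D.natAbs : ℝ) ≤ X ∧ Squarefree D ∧ BdN.{v, w} f D} ∪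
      {D : ℤ | (D.natAbs : ℝ) ≤ X ∧ Squarefree D ∧ Pool.Agent.Q161.OS.BdP f D} := by
    rintro D ⟨h5, h6, h7⟩
    rcases bdl_cases f hf (by omega) hodd D h6 h7 with h8 | h8
    · exact Or.inl ⟨h5, h6, h8⟩
    · exact Or.inr ⟨h5, h6, h8⟩
  have h8 := (Set.ncard_le_ncard hsub (hfin1.union hfin2)).trans (Set.ncard_union_le _ _)
  have h9 : (({D : ℤ | (D.natAbs : ℝ) ≤ X ∧ Squarefree D ∧ BdL.{v, w} f D}.ncard : ℕ) : ℝ) ≤
      (({D : ℤ | (D.natAbs : ℝ) ≤ X ∧ Squarefree D ∧ BdN.{v, w} f D}.ncard : ℕ) : ℝ) +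
      (({D : ℤ | (D.natAbs : ℝ) ≤ X ∧ Squarefree D ∧ Pool.Agent.Q161.OS.BdP f D}.ncard : ℕ) : ℝ) := by
    exact_mod_cast h8
  linarith

end Pool.Agent.Q161.OD
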