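import Pool.Agent.Q161.OD.All

/-! # Project OD: the class of the section over `ℚ(i)` -/

set_option autoImplicit false

namespace Pool.Agent.Q161.OD

open Polynomial NumberField IsDedekindDomain
open Pool.Agent.W623.SecC (IsU isU_one)
open Pool.Agent.Q51.EL
open Pool.Agent.Q161.SX

universe u v w

open Pool.Agent.W401.Cheb (TaskTor HasFrob Chebotarev xp) in
open Pool.Agent.Q224.OD in
/-- the primes with a given Frobenius element on `K` -/
theorem chk (A : Type) [Field A] [Algebra ℚ A] [IsAlgClosure ℚ A] (K : IntermediateField ℚ A)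
    (hKf : FiniteDimensional ℚ K) (φ1 : A ≃ₐ[ℚ] A) :
    Dvg {l : ℕ | l.Prime ∧ ∃ (V : ValuationSubring A) (φ : A ≃ₐ[ℚ] A), (l : A) ∈ V.nonunits ∧
      Frb V l φ ∧ ∀ z ∈ K, φ z = φ1 z} := by
  obtain ⟨M, _, _, _, e, heK, -⟩ := exists_field K hKf 0
  obtain ⟨g, hg⟩ := exists_res e φ1
  obtain ⟨D, hD0, hD⟩ := frob_core W54.ChTor.main e
  refine dvg_of g D hD0 (Nat.card Gal(M/ℚ)) Nat.card_pos _ (fun l hl => hl.1) ?_ ?_
  · intro l hl hlD hx
    have : Fact l.Prime := ⟨hl⟩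
    unfold xp at hx
    rw [dif_pos hl] at hx
    obtain ⟨⟨ψ, hψ⟩⟩ := (Nat.card_ne_zero.1 hx).1
    obtain ⟨V, φ, h1, h2, h3⟩ := (hD l hlD).2 g ψ hψ
    refine ⟨hl, V, φ, h1, h2, ?_⟩
    intro x hx
    obtain ⟨y, rfl⟩ := heK x hx
    rw [h3, ← hg]
  · intro l hl hlD
    have : Fact l.Prime := ⟨hl⟩
    rw [← (hD l hlD).1]
    unfold xp
    rw [dif_pos hl]
    have hfin : Finite (𝓞 M →+* AlgebraicClosure (ZMod l)) := by
      refine Nat.finite_of_card_ne_zero ?_
      rw [(hD l hlD).1]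
      exact Nat.card_pos.ne'
    exact Nat.card_le_card_of_injective _ Subtype.val_injective

section defs

variable {A : Type u} {M : Type v} [Field A] [Algebra ℚ A] [Field M]

/-- the second coordinate -/
def Eqn (h : ℤ[X]) (D : ℤ) (S : Sec (X * h) A M) : Prop :=
  ∃ y : M, (∀ σ, S.s σ y = y) ∧ (D : M) * y ^ 2 = S.x * aeval S.x h

/-- the section has the class of the section of the point `u = 0` -/
def RT (h : ℤ[X]) (D : ℤ) (S : Sec (X * h) A M) : Prop :=
  ∀ i : A, aeval i h = 0 → ∃ β : M,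
    β ^ 2 = S.ι (-((h.coeff 0 * D : ℤ) : A) / i) * ((S.x - S.ι i) / S.x) ∧
    ∀ σ : A ≃ₐ[ℚ] A, σ i = i → S.s σ β = β

end defs

section

variable {h : ℤ[X]} {A : Type} {M : Type v} [Field A] [Algebra ℚ A] [Field M]

theorem aeval_prod [IsAlgClosed A] [Fintype (Rt h A)] (hsep : (h.map (Int.castRingHom ℚ)).Separable)
    {R : Type v} [Field R] (ι : A →+* R) (z : R) :
    aeval z h = ι (h.leadingCoeff : A) * ∏ i : Rt h A, (z - ι i.1) := by
  classical
  have hch : CharZero A := algebraRat.charZero A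
  have h1 : h.map (algebraMap ℤ A) = C (h.leadingCoeff : A) * ∏ i : Rt h A, (X - C i.1) := by
    have hs : (h.map (algebraMap ℤ A)).Separable := by
      have h2 : h.map (algebraMap ℤ A) = (h.map (Int.castRingHom ℚ)).map (algebraMap ℚ A) := by
        rw [map_map]
        congr 1
        exact RingHom.ext_int _ _
      rw [h2]
      exact hsep.map
    have hne : h.map (algebraMap ℤ A) ≠ 0 := hs.ne_zero
    have hsp := IsAlgClosed.splits (h.map (algebraMap ℤ A))
    have h3 := hsp.eq_prod_roots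
    have hnd : (h.map (algebraMap ℤ A)).roots.Nodup := nodup_roots hs
    have h4 : ((h.map (algebraMap ℤ A)).roots.map (fun a => X - C a)).prod =
        ∏ i : Rt h A, (X - C i.1) := by
      have h5 : (h.map (algebraMap ℤ A)).roots = (h.map (algebraMap ℤ A)).roots.toFinset.val := by
        rw [Multiset.toFinset_val, hnd.dedup]
      rw [h5]
      change ∏ a ∈ (h.map (algebraMap ℤ A)).roots.toFinset, (X - C a) = _
      have hm : ∀ a : A, a ∈ (h.map (algebraMap ℤ A)).roots.toFinset ↔ aeval a h = 0 := by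
        intro a
        rw [Multiset.mem_toFinset, mem_roots hne, IsRoot.def, eval_map]
        rfl
      exact Finset.prod_subtype _ hm _
    rw [h4] at h3
    rw [h3]
    congr 2
    rw [leadingCoeff_map_of_injective (algebraMap ℤ A).injective_int]
    rfl
  have h2 : aeval z h = (h.map (algebraMap ℤ A)).eval₂ ι z := by
    rw [eval₂_map, aeval_def]
    congr 1
    exact RingHom.ext_int _ _
  rw [h2, h1, eval₂_mul, eval₂_C, eval₂_finsetProd]
  congr 1
  refine Finset.prod_congr rfl fun i _ => ?_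
  rw [eval₂_sub, eval₂_X, eval₂_C]

/-- the products over the zeros -/
theorem prods [IsAlgClosed A] [Fintype (Rt h A)] (hsep : (h.map (Int.castRingHom ℚ)).Separable)
    (hodd : Odd h.natDegree) {R : Type v} [Field R] (ι : A →+* R) (z : R) :
    aeval z h = (h.leadingCoeff : R) * ∏ i : Rt h A, (z - ι i.1) ∧
    (h.coeff 0 : R) = -((h.leadingCoeff : R) * ∏ i : Rt h A, ι i.1) ∧
    Fintype.card (Rt h A) = h.natDegree := by
  classical
  have hch : CharZero A := algebraRat.charZero A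
  have hcard : Fintype.card (Rt h A) = h.natDegree := by
    have h1 : Fintype.card ((h.map (Int.castRingHom ℚ)).rootSet A) =
        (h.map (Int.castRingHom ℚ)).natDegree :=
      card_rootSet_eq_natDegree hsep (IsAlgClosed.splits _)
    rw [natDegree_map_eq_of_injective (Int.castRingHom ℚ).injective_int] at h1
    rw [← h1]
    refine Fintype.card_congr (Equiv.subtypeEquivRight fun z => ?_)
    rw [mem_rootSet, aeval_map_int]
    exact ⟨fun h => ⟨hsep.ne_zero, h⟩, fun h => h.2⟩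
  have h1 := aeval_prod hsep ι z
  have h2 := aeval_prod hsep ι 0
  rw [map_intCast] at h1 h2
  refine ⟨h1, ?_, hcard⟩
  have h3 : aeval (0 : R) h = (h.coeff 0 : R) := by
    rw [← coeff_zero_eq_aeval_zero']
    rfl
  rw [h3] at h2
  rw [h2]
  have h4 : ∏ i : Rt h A, (0 - ι i.1) = - ∏ i : Rt h A, ι i.1 := by
    have h5 : ∀ i : Rt h A, (0 - ι i.1) = (-1) * ι i.1 := fun i => by ring
    rw [Finset.prod_congr rfl fun i _ => h5 i, Finset.prod_mul_distrib, Finset.prod_const,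
      Finset.card_univ, hcard, hodd.neg_one_pow, neg_one_mul]
  rw [h4, mul_neg]

/-- the square roots over the splitting field -/
theorem sq_of_nt [IsAlgClosed A] [Fintype (Rt h A)] (hsep : (h.map (Int.castRingHom ℚ)).Separable)
    (hodd : Odd h.natDegree) (h0 : h.coeff 0 ≠ 0) {D : ℤ} (hD : D ≠ 0) {S : Sec (X * h) A M}
    (hE : Eqn h D S) (hN : ¬ NT h S) (i : Rt h A) :
    ∃ β : M, β ≠ 0 ∧ S.Fix (spl (X * h) A) β ∧
      β ^ 2 = S.ι (-((h.coeff 0 * D : ℤ) : A) / i.1) * ((S.x - S.ι i.1) / S.x) := by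
  have hch : CharZero A := algebraRat.charZero A
  have hchM : CharZero M := charZero_of_injective_ringHom S.ι.injective
  obtain ⟨y, hy, hxy⟩ := hE
  have hx : ∀ a : A, S.x - S.ι a ≠ 0 := fun a h => S.htr a (sub_eq_zero.1 h).symm
  have hι : ∀ {a : A}, a ≠ 0 → S.ι a ≠ 0 := fun h => (_root_.map_ne_zero S.ι).2 h
  have hx0 : S.x ≠ 0 := by
    have := hx 0
    rwa [map_zero, sub_zero] at this
  have hD' : (D : M) ≠ 0 := Int.cast_ne_zero.2 hD
  have h0' : (h.coeff 0 : M) ≠ 0 := Int.cast_ne_zero.2 h0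
  have hne0 : ∀ j : Rt h A, S.ι j.1 ≠ 0 := fun j => hι (rt_ne0 h0 j)
  obtain ⟨hp1, hp2, hp3⟩ := prods (A := A) hsep hodd S.ι S.x
  have hlc : (h.leadingCoeff : M) ≠ 0 := by
    intro h1
    rw [h1, zero_mul, neg_zero] at hp2
    exact h0' hp2
  obtain ⟨P1, hP1⟩ : ∃ P1 : M, P1 = ∏ j : Rt h A, (S.x - S.ι j.1) := ⟨_, rfl⟩
  obtain ⟨J, hJ⟩ : ∃ J : M, J = ∏ j : Rt h A, S.ι j.1 := ⟨_, rfl⟩
  rw [← hP1] at hp1
  rw [← hJ] at hp2
  have hP10 : P1 ≠ 0 := by
    rw [hP1]
    exact Finset.prod_ne_zero_iff.2 fun j _ => hx j.1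
  have hJ0 : J ≠ 0 := by
    rw [hJ]
    exact Finset.prod_ne_zero_iff.2 fun j _ => hne0 j
  have hy0 : y ≠ 0 := by
    rintro rfl
    rw [zero_pow two_ne_zero, mul_zero, hp1] at hxy
    exact mul_ne_zero hx0 (mul_ne_zero hlc hP10) hxy.symm
  have hb : ∀ j : Rt h A, ∃ b : M, S.Fix (spl (X * h) A) b ∧
      b ^ 2 = (S.x - S.ι j.1) / (S.x - S.ι i.1) * S.ι (i.1 / j.1) := by
    intro j
    by_contra hc
    exact hN ⟨j.1, i.1, j.2, i.2, hc⟩
  choose b hbF hb2 using hb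
  obtain ⟨Bp, hBp⟩ : ∃ Bp : M, Bp = ∏ j : Rt h A, b j := ⟨_, rfl⟩
  obtain ⟨k, hk⟩ := hodd
  obtain ⟨Q, hQ⟩ : ∃ Q : M, Q = (S.x - S.ι i.1) / S.ι i.1 := ⟨_, rfl⟩
  have hQ0 : Q ≠ 0 := by
    rw [hQ]
    exact div_ne_zero (hx _) (hne0 i)
  have hB2 : Bp ^ 2 * (J * Q ^ (2 * k + 1)) = P1 := by
    rw [hBp, ← Finset.prod_pow, Finset.prod_congr rfl fun j _ => hb2 j]
    have h1 : ∀ j : Rt h A, (S.x - S.ι j.1) / (S.x - S.ι i.1) * S.ι (i.1 / j.1) =
        (S.x - S.ι j.1) * ((S.ι j.1)⁻¹ * Q⁻¹) := by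
      intro j
      rw [hQ, map_div₀]
      have f1 := hx i.1
      have f2 := hne0 i
      have f3 := hne0 j
      field_simp
    rw [Finset.prod_congr rfl fun j _ => h1 j, Finset.prod_mul_distrib, Finset.prod_mul_distrib,
      Finset.prod_const, Finset.card_univ, hp3, hk, Finset.prod_inv_distrib, ← hP1, ← hJ, inv_pow]
    have f1 := pow_ne_zero (2 * k + 1) hQ0
    field_simp
  have hBp0 : Bp ≠ 0 := by
    rintro rfl
    rw [zero_pow two_ne_zero, zero_mul] at hB2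
    exact hP10 hB2.symm
  refine ⟨(D : M) * y / (S.x * Q ^ k * Bp), ?_, ?_, ?_⟩
  · exact div_ne_zero (mul_ne_zero hD' hy0) (mul_ne_zero (mul_ne_zero hx0 (pow_ne_zero _ hQ0)) hBp0)
  · intro σ hσ
    have hi : σ i.1 = i.1 := (IntermediateField.mem_fixingSubgroup_iff _ _).1 hσ _ (rt_mem (inc i))
    have e1 : S.s σ Q = Q := by
      rw [hQ, map_div₀, map_sub, S.hx, S.hι, hi]
    have e2 : S.s σ Bp = Bp := by
      rw [hBp, map_prod]
      exact Finset.prod_congr rfl fun j _ => hbF j σ hσ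
    rw [map_div₀, map_mul, map_mul, map_mul, map_pow, map_intCast, hy, S.hx, e1, e2]
  · have e1 : S.ι (-((h.coeff 0 * D : ℤ) : A) / i.1) * ((S.x - S.ι i.1) / S.x) =
        -((h.coeff 0 : M) * (D : M)) * Q / S.x := by
      rw [hQ, map_div₀, map_neg, map_intCast]
      push_cast
      have f2 := hne0 i
      field_simp
    have e2 : (D : M) * y ^ 2 = S.x * ((h.leadingCoeff : M) * (Bp ^ 2 * (J * Q ^ (2 * k + 1)))) := by
      rw [hB2, ← hp1]
      exact hxy
    rw [e1, div_pow, div_eq_div_iff (pow_ne_zero _ (mul_ne_zero (mul_ne_zero hx0 (pow_ne_zero _ hQ0))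
      hBp0)) hx0]
    have e3 : ((D : M) * y) ^ 2 * S.x = (D : M) * S.x * ((D : M) * y ^ 2) := by ring
    rw [e3, e2, hp2]
    ring

/-- the product of the square roots -/
theorem prod_sq [IsAlgClosed A] [Fintype (Rt h A)] (hsep : (h.map (Int.castRingHom ℚ)).Separable)
    (hodd : Odd h.natDegree) (h0 : h.coeff 0 ≠ 0) {D : ℤ} (hD : D ≠ 0) {S : Sec (X * h) A M}
    {y : M} (hxy : (D : M) * y ^ 2 = S.x * aeval S.x h) {β : Rt h A → M}
    (hβ : ∀ i, β i ^ 2 = S.ι (-((h.coeff 0 * D : ℤ) : A) / i.1) * ((S.x - S.ι i.1) / S.x)) :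
    ∃ k : ℕ, (∏ i, β i) ^ 2 = ((h.coeff 0 : M) ^ k * (D : M) ^ (k + 1) * y / S.x ^ (k + 1)) ^ 2 := by
  have hch : CharZero A := algebraRat.charZero A
  have hchM : CharZero M := charZero_of_injective_ringHom S.ι.injective
  have hx : ∀ a : A, S.x - S.ι a ≠ 0 := fun a h => S.htr a (sub_eq_zero.1 h).symm
  have hι : ∀ {a : A}, a ≠ 0 → S.ι a ≠ 0 := fun h => (_root_.map_ne_zero S.ι).2 h
  have hx0 : S.x ≠ 0 := by
    have := hx 0
    rwa [map_zero, sub_zero] at this
  have hD' : (D : M) ≠ 0 := Int.cast_ne_zero.2 hD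
  have h0' : (h.coeff 0 : M) ≠ 0 := Int.cast_ne_zero.2 h0
  have hne0 : ∀ j : Rt h A, S.ι j.1 ≠ 0 := fun j => hι (rt_ne0 h0 j)
  obtain ⟨hp1, hp2, hp3⟩ := prods (A := A) hsep hodd S.ι S.x
  obtain ⟨P1, hP1⟩ : ∃ P1 : M, P1 = ∏ j : Rt h A, (S.x - S.ι j.1) := ⟨_, rfl⟩
  obtain ⟨J, hJ⟩ : ∃ J : M, J = ∏ j : Rt h A, S.ι j.1 := ⟨_, rfl⟩
  rw [← hP1] at hp1
  rw [← hJ] at hp2
  have hJ0 : J ≠ 0 := by
    rw [hJ]
    exact Finset.prod_ne_zero_iff.2 fun j _ => hne0 j
  obtain ⟨k, hk⟩ := hodd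
  refine ⟨k, ?_⟩
  have h1 : ∀ j : Rt h A, β j ^ 2 = (-((h.coeff 0 : M) * (D : M)) * S.x⁻¹) *
      ((S.x - S.ι j.1) * (S.ι j.1)⁻¹) := by
    intro j
    rw [hβ, map_div₀, map_neg, map_intCast]
    push_cast
    have f2 := hne0 j
    field_simp
  rw [← Finset.prod_pow, Finset.prod_congr rfl fun j _ => h1 j, Finset.prod_mul_distrib,
    Finset.prod_const, Finset.card_univ, hp3, hk, Finset.prod_mul_distrib, Finset.prod_inv_distrib,
    ← hP1, ← hJ]
  have h2 : (D : M) * y ^ 2 * J = -(S.x * ((h.coeff 0 : M) * P1)) := by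
    rw [hxy, hp1, hp2]
    ring
  have h3 : P1 * J⁻¹ = -((D : M) * y ^ 2) / (S.x * (h.coeff 0 : M)) := by
    rw [← div_eq_mul_inv, div_eq_div_iff hJ0 (mul_ne_zero hx0 h0')]
    linear_combination h2
  rw [h3, mul_pow, Odd.neg_pow (by exact ⟨k, rfl⟩), inv_pow]
  have f1 := pow_ne_zero (2 * k + 1) hx0
  have f2 := pow_ne_zero (k + 1) hx0
  field_simp
  ring

/-- if the class is trivial over the splitting field, but not over `ℚ(i)`, then `D` has no prime factor with a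
certain Frobenius element -/
theorem ql {L : Type} [Field L] [NumberField L] {θ : L} (hs : Setup h L θ) [IsAlgClosure ℚ A]
    (hodd : Odd h.natDegree) (hn : 2 ≤ h.natDegree) (h0 : h.coeff 0 ≠ 0) {B0 BD : ℕ}
    (hBD : ∀ l : ℕ, l.Prime → ¬ l ∣ BD → ∀ V : ValuationSubring A, (l : A) ∈ V.nonunits →
      ∀ i j : Rt (X * h) A, i ≠ j → IsU V (i.1 - j.1)) {D : ℤ} (hD : D ≠ 0)
    {S : Sec (X * h) A M} (hS : S.Good D B0) (hE : Eqn h D S) (hN : ¬ NT h S) (hR : ¬ RT h D S) :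
    ∃ σ0 : A ≃ₐ[ℚ] A, ∀ l : ℕ, l.Prime → ¬ l ∣ B0 * BD →
      (∃ (V : ValuationSubring A) (φ : A ≃ₐ[ℚ] A), (l : A) ∈ V.nonunits ∧ Frb V l φ ∧
        ∀ z ∈ spl (X * h) A, φ z = σ0 z) → ¬ (l : ℤ) ∣ D := by
  classical
  have hcl : IsAlgClosed A := IsAlgClosure.isAlgClosed ℚ
  have hch : CharZero A := algebraRat.charZero A
  have hchM : CharZero M := charZero_of_injective_ringHom S.ι.injective
  have hfin : Finite (Rt h A) := rt_fin (Setup.f0 hs)
  have hft : Fintype (Rt h A) := Fintype.ofFinite _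
  have hx : ∀ a : A, S.x - S.ι a ≠ 0 := fun a h => S.htr a (sub_eq_zero.1 h).symm
  have hι : ∀ {a : A}, a ≠ 0 → S.ι a ≠ 0 := fun h => (_root_.map_ne_zero S.ι).2 h
  have hx0 : S.x ≠ 0 := by
    have := hx 0
    rwa [map_zero, sub_zero] at this
  have hne0 : ∀ j : Rt h A, S.ι j.1 ≠ 0 := fun j => hι (rt_ne0 h0 j)
  have h0D : ((h.coeff 0 * D : ℤ) : A) ≠ 0 := Int.cast_ne_zero.2 (mul_ne_zero h0 hD)
  choose β hβ0 hβF hβ using fun i => sq_of_nt (Setup.sep hs) hodd h0 hD hE hN i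
  obtain ⟨y, hy, hxy⟩ := hE
  have hR' := hR
  unfold RT at hR'
  push Not at hR'
  obtain ⟨b, hb, hR2⟩ := hR'
  obtain ⟨σ0, hσb, hσβ⟩ := hR2 (β ⟨b, hb⟩) (hβ ⟨b, hb⟩)
  set b' : Rt h A := ⟨b, hb⟩ with hb'
  have hneg : S.s σ0 (β b') = - β b' := by
    have h1 : (S.s σ0 (β b')) ^ 2 = (β b') ^ 2 := by
      rw [← map_pow, hβ b']
      change S.s σ0 (S.ι (-((h.coeff 0 * D : ℤ) : A) / b) * ((S.x - S.ι b) / S.x)) =
        S.ι (-((h.coeff 0 * D : ℤ) : A) / b) * ((S.x - S.ι b) / S.x)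
      rw [map_mul, S.hι, map_div₀ σ0, map_neg, map_intCast, hσb, map_div₀ (S.s σ0), map_sub, S.hx,
        S.hι, hσb]
    rcases sq_eq_sq_iff_eq_or_eq_neg.1 h1 with h2 | h2
    · exact absurd h2 hσβ
    · exact h2
  refine ⟨σ0, ?_⟩
  rintro l hl hlB ⟨V, φ, hV, hφ, hφσ⟩ hlD
  have hlB0 : ¬ l ∣ B0 := fun h => hlB (h.mul_right _)
  have hlBD : ¬ l ∣ BD := fun h => hlB (h.mul_left _)
  obtain ⟨r, hr1, hr2, hr3, hr4⟩ := (hS l hl hlB0 V hV φ hφ).odd hlD
  rcases rt_cases r with rfl | ⟨k, rfl⟩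
  swap
  · -- concentrated at a zero of `h`
    obtain ⟨k', hk'⟩ := exists_other (A := A) hs hn k
    have hK : S.Kc (inc k') (inc k) (k'.1 / k.1) := by
      refine ⟨div_mem (rt_mem (inc k')) (rt_mem (inc k)), div_ne_zero (rt_ne0 h0 k') (rt_ne0 h0 k),
        β k' / β k, div_ne_zero (hβ0 _) (hβ0 _), ?_, ?_⟩
      · rw [div_eq_mul_inv]
        exact S.fix_mul (hβF _) (S.fix_inv (hβF _))
      · rw [div_pow, hβ, hβ]
        change _ = (S.x - S.ι k'.1) / (S.x - S.ι k.1)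
        rw [map_div₀, map_div₀, map_div₀, map_neg]
        have f1 := hne0 k
        have f2 := hne0 k'
        have f3 := hx k.1
        have f4 := hι h0D
        field_simp
    have h5 := hr3 _ _ (fun h => hk' (inc_inj h)) hK
    have hu : ∀ j : Rt h A, IsU V j.1 := by
      intro j
      have := hBD l hl hlBD V hV (inc j) r0 (inc_ne h0 j)
      rwa [r0_val, sub_zero] at this
    have h6 := PV.div hl.ne_zero (PV.unit (l := l) (hu k')) (PV.unit (l := l) (hu k))
    rw [sub_zero] at h6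
    exact pv_contra hl.ne_zero hV h6 h5
  · obtain ⟨γ, hγ0, hγ⟩ := hr4
    have hφb : ra φ b' = b' := Subtype.ext ((hφσ b (rt_mem (inc b'))).trans hσb)
    have hsφ : ∀ z : M, S.Fix (spl (X * h) A) z → S.s φ z = S.s σ0 z := by
      intro z hz
      have h1 : σ0⁻¹ * φ ∈ (spl (X * h) A).fixingSubgroup := by
        rw [IntermediateField.mem_fixingSubgroup_iff]
        intro w hw
        change σ0.symm (φ w) = w
        rw [hφσ w hw, σ0.symm_apply_apply]
      have h2 := hz _ h1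
      have h3 : φ = σ0 * (σ0⁻¹ * φ) := by group
      rw [h3, map_mul]
      change S.s σ0 (S.s (σ0⁻¹ * φ) z) = _
      rw [h2]
    have hφneg : S.s φ (β b') = - β b' := by
      rw [hsφ _ (hβF _), hneg]
    -- the signs
    have hη : ∀ j : Rt h A, ∃ η : M, η * η = 1 ∧ (∀ σ, S.s σ η = η) ∧
        γ (inc j) / γ (inc b') = η * (β j / β b') := by
      intro j
      have h1 := (hγ (inc j) (inc b') (inc_ne h0 _) (inc_ne h0 _)).1
      change _ = (S.x - S.ι j.1) / (S.x - S.ι b'.1) * S.ι ((0 - b'.1) / (0 - j.1)) at h1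
      have h2 : (γ (inc j) / γ (inc b')) ^ 2 = (β j / β b') ^ 2 := by
        rw [h1, div_pow, hβ, hβ, zero_sub, zero_sub, neg_div_neg_eq]
        rw [map_div₀, map_div₀, map_div₀, map_neg]
        have f1 := hne0 j
        have f2 := hne0 b'
        have f3 := hx b'.1
        have f4 := hι h0D
        field_simp
      rcases sq_eq_sq_iff_eq_or_eq_neg.1 h2 with h3 | h3
      · exact ⟨1, by ring, fun σ => map_one _, by rw [h3, one_mul]⟩
      · exact ⟨-1, by ring, fun σ => by rw [map_neg, map_one], by rw [h3]; ring⟩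
    choose η hη1 hηs hη2 using hη
    have hη0 : ∀ j, η j ≠ 0 := by
      intro j h
      have := hη1 j
      rw [h, zero_mul] at this
      exact zero_ne_one this
    have hηb : η b' = 1 := by
      have h1 := hη2 b'
      rw [div_self (hγ0 _), div_self (hβ0 _), mul_one] at h1
      exact h1.symm
    have hβφ : ∀ j : Rt h A, S.s φ (β j) = (-1) * (η j * (η (ra φ j) * β (ra φ j))) := by
      intro j
      have h1 := (hγ (inc j) (inc b') (inc_ne h0 _) (inc_ne h0 _)).2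
      rw [ra_inc, ra_inc, hφb, hη2, hη2, map_mul, hηs, map_div₀, hφneg] at h1
      have f1 := hβ0 b'
      have f2 := hβ0 (ra φ j)
      have h2 : η j * S.s φ (β j) = - (η (ra φ j) * β (ra φ j)) := by
        field_simp at h1
        linear_combination -h1
      have h3 := hη1 j
      linear_combination (η j) * h2 - (S.s φ (β j)) * h3
    obtain ⟨-, -, hcard⟩ := prods (A := A) (Setup.sep hs) hodd S.ι S.x
    have hprod : S.s φ (∏ j, β j) = - ∏ j, β j := by
      rw [map_prod, Finset.prod_congr rfl fun j _ => hβφ j, Finset.prod_mul_distrib,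
        Finset.prod_mul_distrib, Finset.prod_mul_distrib, Finset.prod_const, Finset.card_univ, hcard,
        hodd.neg_one_pow, Equiv.prod_comp (ra φ) η, Equiv.prod_comp (ra φ) β]
      have h1 : (∏ j, η j) * (∏ j, η j) = 1 := by
        rw [← Finset.prod_mul_distrib]
        exact Finset.prod_eq_one fun j _ => hη1 j
      linear_combination (-(∏ j, β j)) * h1
    obtain ⟨m, hm⟩ := prod_sq (Setup.sep hs) hodd h0 hD hxy hβ
    have hfixed : S.s φ (∏ j, β j) = ∏ j, β j := by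
      have h1 : S.s φ ((h.coeff 0 : M) ^ m * (D : M) ^ (m + 1) * y / S.x ^ (m + 1)) =
          (h.coeff 0 : M) ^ m * (D : M) ^ (m + 1) * y / S.x ^ (m + 1) := by
        rw [map_div₀, map_mul, map_mul, map_pow, map_pow, map_pow, map_intCast, map_intCast, hy, S.hx]
      rcases sq_eq_sq_iff_eq_or_eq_neg.1 hm with h2 | h2
      · rw [h2, h1]
      · rw [h2, map_neg, h1]
    have hne : (∏ j, β j) ≠ 0 := Finset.prod_ne_zero_iff.2 fun j _ => hβ0 j
    rw [hfixed] at hprod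
    have h2 : 2 * (∏ j, β j) = 0 := by linear_combination hprod
    rcases mul_eq_zero.1 h2 with h3 | h3
    · exact two_ne_zero h3
    · exact hne h3

end

end Pool.Agent.Q161.OD
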