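import Pool.Agent.Q161.OD.Top

/-! # Project OD: sections of quotients of the fundamental group, for example the geometrically pro-2 one -/

set_option autoImplicit false

namespace Pool.Agent.Q161.OD

open Polynomial IntermediateField
open Pool.Agent.W620.SC
open Pool.Agent.W623.SecC
open Pool.Agent.Q161.SX
open Pool.Agent.Q161.SH

universe u v w

section defs

variable (k : Type u) (F : Type v) (Ω : Type w) [Field k] [Field F] [Field Ω] [Algebra k F]
  [Algebra F Ω] [Algebra k Ω]

/-- the sections of `Gal(N/F) → G_k` -/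
structure NSec (N : IntermediateField F Ω) where
  toHom : (algebraicClosure k Ω ≃ₐ[k] algebraicClosure k Ω) →* (N ≃ₐ[F] N)
  cont : Continuous toHom
  compat : ∀ σ (c : algebraicClosure k Ω) (z : N), (z : Ω) = c → (toHom σ z : Ω) = σ c

/-- `N` lies between the constants and `F_U` and is closed under square roots in `F_U` -/
structure SqC (U : Set (ValuationSubring F)) (N : IntermediateField F Ω) : Prop where
  le : N ≤ unramified F Ω U
  const : ∀ c : algebraicClosure k Ω, (c : Ω) ∈ N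
  sq : ∀ z ∈ unramified F Ω U, z ^ 2 ∈ N → z ∈ N

end defs

section gen

variable {k : Type u} {F : Type v} {Ω : Type w} [Field k] [Field F] [Field Ω] [Algebra k F]
  [Algebra F Ω] [Algebra k Ω] [IsScalarTower k F Ω]

omit [Algebra k F] [IsScalarTower k F Ω] in
theorem SqC.root {U : Set (ValuationSubring F)} {N : IntermediateField F Ω}
    (h : SqC k F Ω U N) (n : ℕ) : ∀ z ∈ unramified F Ω U, z ^ 2 ^ n ∈ N → z ∈ N := by
  induction n with
  | zero =>
    intro z _ hz2
    rwa [pow_zero, pow_one] at hz2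
  | succ n ih =>
    intro z hz hz2
    rw [pow_succ, pow_mul] at hz2
    exact ih z hz (h.sq _ (pow_mem hz _) hz2)

/-- the constants of `N` -/
def cN {U : Set (ValuationSubring F)} {N : IntermediateField F Ω} (h : SqC k F Ω U N) :
    algebraicClosure k Ω →+* N :=
  (algebraMap (algebraicClosure k Ω) Ω).codRestrict N h.const

omit [Algebra k F] [IsScalarTower k F Ω] in
theorem nsec_cont [CharZero k] [IsAlgClosed Ω] [Algebra.IsAlgebraic F Ω]
    {N : IntermediateField F Ω} (G : NSec k F Ω N) (w : N) :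
    ∃ E : IntermediateField k (algebraicClosure k Ω), FiniteDimensional k E ∧
      ∀ σ ∈ E.fixingSubgroup, G.toHom σ w = w := by
  have h1 : {e : N ≃ₐ[F] N | e w = w} ∈ nhds (1 : N ≃ₐ[F] N) := by
    rw [krullTopology_mem_nhds_one_iff]
    refine ⟨F⟮w⟯, ?_, ?_⟩
    · exact adjoin.finiteDimensional (Algebra.IsIntegral.isIntegral _)
    · intro e he
      exact (mem_fixingSubgroup_iff _ _).1 he _ (mem_adjoin_simple_self F _)
  have h2 := G.cont.tendsto 1
  rw [map_one] at h2
  have h3 := h2 h1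
  rw [Filter.mem_map, krullTopology_mem_nhds_one_iff] at h3
  obtain ⟨E, hE, hE'⟩ := h3
  exact ⟨E, hE, fun σ hσ => hE' hσ⟩

/-- the roots needed by the local theory -/
theorem mk_anyN [CharZero k] [IsAlgClosed Ω] [Algebra.IsAlgebraic F Ω]
    {U : Set (ValuationSubring F)} (hU : ∀ O ∈ U, ∀ c : k, algebraMap k F c ∈ O)
    {N : IntermediateField F Ω} (hN : SqC k F Ω U N)
    (D : Dat k (algebraicClosure k Ω) N) (hι : D.ι = cN hN) :
    D.HasRoots ∧ D.HasSq := by
  have hιv : ∀ a, ((D.ι a : N) : Ω) = (a : Ω) := fun a => by rw [hι]; rfl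
  constructor
  · intro z w e W hWe hzw htrS n x' y' hxy' f hf
    have hcomp : ∀ a, ((algebraMap N Ω).comp (D.ι.comp (algebraMap D.S (algebraicClosure k Ω)))) a =
        ((algebraMap (algebraicClosure k Ω) Ω).comp (algebraMap D.S (algebraicClosure k Ω))) a :=
      fun a => hιv _
    have hzw'' : W.polynomial.eval₂ (eval₂RingHom ((algebraMap N Ω).comp
        (D.ι.comp (algebraMap D.S (algebraicClosure k Ω)))) (z : Ω)) (w : Ω) = 0 := by
      have h3 := congrArg (algebraMap N Ω) hzw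
      rw [hom_eval₂, map_zero] at h3
      rw [← h3]
      congr 1
      ext a
      · simp
      · simp
    have hev : algebraMap N Ω (Pool.Agent.W623.SecC.ev W (D.ι.comp (algebraMap D.S (algebraicClosure k Ω))) z w hzw f) =
        Pool.Agent.W623.SecC.ev W ((algebraMap N Ω).comp (D.ι.comp (algebraMap D.S (algebraicClosure k Ω)))) (z : Ω)
          (w : Ω) hzw'' f :=
      ev_map W _ _ _ hzw (algebraMap N Ω) _ _ _ hzw'' rfl rfl rfl f
    obtain ⟨v0, hv0⟩ : ∃ v0 : N, v0 =
      Pool.Agent.W623.SecC.ev W (D.ι.comp (algebraMap D.S (algebraicClosure k Ω))) z w hzw f := ⟨_, rfl⟩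
    rw [← hv0] at hev ⊢
    obtain ⟨α, hα⟩ := exists_root_unramified (k := k) U hU (n := 2 ^ n) (by positivity)
      (⟨(v0 : Ω), hN.le v0.2⟩ : unramified F Ω U) (by
        intro hne O hO
        obtain ⟨t, ht, ht0, h3, h4⟩ := allA7 D.S Ω ((algebraMap N Ω).comp
            (D.ι.comp (algebraMap D.S (algebraicClosure k Ω)))) O
            (fun c => by
              rw [hcomp]
              exact const_place U hU O hO (c : algebraicClosure k Ω))
            e W hWe (z : Ω) (w : Ω) hzw'' (by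
              intro P hP h
              apply htrS P hP
              apply (algebraMap N Ω).injective
              rw [hom_eval₂, map_zero]
              exact h) (2 ^ n) x' y' hxy' f hf
        rw [← hev] at h3 h4
        refine ⟨t, ?_, ht0, h3, h4⟩
        apply hN.le
        rcases ht with rfl | rfl | rfl
        · exact sub_mem z.2 (D.ι _).2
        · exact sub_mem w.2 (D.ι _).2
        · exact div_mem w.2 z.2)
    have hα' : (α : Ω) ^ 2 ^ n = (v0 : Ω) := congrArg (algebraMap (unramified F Ω U) Ω) hα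
    refine ⟨⟨(α : Ω), hN.root n _ α.2 (by rw [hα']; exact v0.2)⟩, Subtype.ext hα'⟩
  · intro a b c s t hs ht ha hb
    obtain ⟨α, hα⟩ := sum_root (k := k) U hU (⟨(a : Ω), hN.le a.2⟩ : unramified F Ω U)
      ⟨(b : Ω), hN.le b.2⟩ ⟨(c : Ω), hN.le c.2⟩ s t hs ht (by
        apply Subtype.ext
        have h1 := congrArg (algebraMap N Ω) ha
        rw [map_sub, map_pow, map_pow] at h1
        exact h1.trans (hιv s)) (by
        apply Subtype.ext
        have h1 := congrArg (algebraMap N Ω) hb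
        rw [map_sub, map_pow, map_pow] at h1
        exact h1.trans (hιv t))
    have hα' : (α : Ω) ^ 2 = ((a : Ω) + c) * ((b : Ω) + c) :=
      congrArg (algebraMap (unramified F Ω U) Ω) hα
    refine ⟨⟨(α : Ω), hN.sq _ α.2 ?_⟩, Subtype.ext hα'⟩
    rw [hα']
    exact mul_mem (add_mem a.2 c.2) (add_mem b.2 c.2)

end gen

attribute [-instance] DivisionRing.toRatAlgebra in
theorem sechN {J : Type} [Fintype J] (f : ℤ[X]) (g : J → ℤ[X])
    (hsep : ((f * ∏ j, g j).map (Int.castRingHom ℚ)).Separable) (hev : Even f.natDegree)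
    (h4 : 4 ≤ f.natDegree) (hg : ∀ j, Even (g j).natDegree) :
    ∃ B : ℕ, B ≠ 0 ∧ ∀ D : ℤ, Squarefree D →
    ∀ (F : Type v) (Ω : Type w) [Field F] [Field Ω] [Algebra ℚ F] [Algebra F Ω] [Algebra ℚ Ω]
      [IsScalarTower ℚ F Ω] [IsAlgClosed Ω] [Algebra.IsAlgebraic F Ω]
      (U : Set (ValuationSubring F)), (∀ O ∈ U, ∀ c : ℚ, algebraMap ℚ F c ∈ O) →
      ∀ (N : IntermediateField F Ω) (_ : SqC ℚ F Ω U N) (G : NSec ℚ F Ω N) (x y : F) (z : J → F),
      (D : F) * y ^ 2 = aeval x f →
      (∀ j, z j ^ 2 = aeval x (g j)) → Transcendental ℚ x →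
      ∃ S : Sec f (algebraicClosure ℚ Ω) N, GoodH g S D B ∧
        S.s = (toRingAutHom F N).comp G.toHom ∧
        (∀ a, (S.ι a : Ω) = (a : Ω)) ∧ S.x = algebraMap F N x := by
  classical
  obtain ⟨B, hB, h⟩ := locH f g hsep hev h4 hg
  refine ⟨B, hB, ?_⟩
  intro D hD F Ω _ _ _ _ _ _ _ _ U hU N hN G x y z hxy hz hx
  have hac : IsAlgClosure ℚ (algebraicClosure ℚ Ω) := inferInstance
  have hkb : IsAlgClosed (algebraicClosure ℚ Ω) := hac.1
  have hch : CharZero (algebraicClosure ℚ Ω) := algebraRat.charZero _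
  have htr := Pool.Agent.W623.SecE.tr_const (k := ℚ) (Ω := Ω) hx
  obtain ⟨P, hP⟩ : ∃ P : ℤ[X], P = f * ∏ j, g j := ⟨_, rfl⟩
  have hsep' := hsep
  rw [← hP] at hsep'
  have hPz0 : P ≠ 0 := by
    rintro rfl
    rw [Polynomial.map_zero] at hsep'
    exact hsep'.ne_zero rfl
  -- the equation
  set Q := PA (algebraicClosure ℚ Ω) P with hQ
  have hlc0 : (P.leadingCoeff : algebraicClosure ℚ Ω) ≠ 0 :=
    Int.cast_ne_zero.2 (leadingCoeff_ne_zero.2 hPz0)
  have hQ0 : Q ≠ 0 := by
    rw [Ne, ← leadingCoeff_eq_zero, hQ, PA_lc]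
    exact hlc0
  have hQsep : Q.Separable := by
    rw [hQ, PA_map]
    exact hsep'.map
  have hnd : Q.roots.Nodup := nodup_roots hQsep
  have hmemr : ∀ θ, θ ∈ Q.roots.toFinset ↔ aeval θ P = 0 := by
    intro θ
    rw [Multiset.mem_toFinset, mem_roots hQ0, hQ, PA_root]
  have hev' : aeval (algebraMap F Ω x) P = algebraMap (algebraicClosure ℚ Ω) Ω
      (P.leadingCoeff : algebraicClosure ℚ Ω) *
      ∏ i : Pool.Agent.W623.SecE.Rt Q, (algebraMap F Ω x - ((i : algebraicClosure ℚ Ω) : Ω)) := by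
    have h1 := Pool.Agent.W623.SecE.RQ_eval₂ Q Q hQ0 dvd_rfl hnd
      (algebraMap (algebraicClosure ℚ Ω) Ω) (algebraMap F Ω x)
    rw [Pool.Agent.W623.SecE.RQ_self, hQ, PA_eval, PA_lc] at h1
    exact h1
  have hyzP : (D : Ω) * algebraMap F Ω (y * ∏ j, z j) ^ 2 = aeval (algebraMap F Ω x) P := by
    have h1 : (D : F) * (y * ∏ j, z j) ^ 2 = aeval x P := by
      rw [mul_pow, ← mul_assoc, hxy, ← Finset.prod_pow, Finset.prod_congr rfl (fun j _ => hz j),
        hP, map_mul, map_prod]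
    rw [aeval_algebraMap_apply, ← h1]
    simp only [map_mul, map_intCast, map_pow]
  have hprod0 : ∏ i : Pool.Agent.W623.SecE.Rt Q,
      (algebraMap F Ω x - ((i : algebraicClosure ℚ Ω) : Ω)) ≠ 0 :=
    Finset.prod_ne_zero_iff.2 fun i _ h => htr i.1 (sub_eq_zero.1 h).symm
  have hlcΩ : algebraMap (algebraicClosure ℚ Ω) Ω (P.leadingCoeff : algebraicClosure ℚ Ω) ≠ 0 :=
    (_root_.map_ne_zero _).2 hlc0
  have hD0 : (D : algebraicClosure ℚ Ω) ≠ 0 := Int.cast_ne_zero.2 hD.ne_zero
  have hY0 : y * ∏ j, z j ≠ 0 := by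
    intro h
    rw [h, map_zero, zero_pow two_ne_zero, mul_zero, hev'] at hyzP
    exact mul_ne_zero hlcΩ hprod0 hyzP.symm
  have hxyΩ : (((D : algebraicClosure ℚ Ω) / (P.leadingCoeff : algebraicClosure ℚ Ω) :
      algebraicClosure ℚ Ω) : Ω) * algebraMap F Ω (y * ∏ j, z j) ^ 2 =
      ∏ i : Pool.Agent.W623.SecE.Rt Q, (algebraMap F Ω x - ((i : algebraicClosure ℚ Ω) : Ω)) := by
    have h1 : (((D : algebraicClosure ℚ Ω) / (P.leadingCoeff : algebraicClosure ℚ Ω) :
        algebraicClosure ℚ Ω) : Ω) = (D : Ω) / algebraMap (algebraicClosure ℚ Ω) Ω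
          (P.leadingCoeff : algebraicClosure ℚ Ω) := by
      have h2 : (((D : algebraicClosure ℚ Ω) / (P.leadingCoeff : algebraicClosure ℚ Ω) :
        algebraicClosure ℚ Ω) : Ω) = algebraMap (algebraicClosure ℚ Ω) Ω
          ((D : algebraicClosure ℚ Ω) / (P.leadingCoeff : algebraicClosure ℚ Ω)) := rfl
      rw [h2, map_div₀, map_intCast]
    rw [h1, div_mul_eq_mul_div, hyzP, hev', mul_div_cancel_left₀ _ hlcΩ]
  have hιv : ∀ a, ((cN hN a : N) : Ω) = (a : Ω) := fun a => rfl
  have hsq : ∀ i j : algebraicClosure ℚ Ω, aeval i P = 0 → aeval j P = 0 →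
      ∃ α : N, α ^ 2 = (algebraMap F N x - cN hN i) / (algebraMap F N x - cN hN j) := by
    intro i j hi hj
    obtain ⟨α, hα⟩ := ratio_root U hU
      (fun i : Pool.Agent.W623.SecE.Rt Q => (i : algebraicClosure ℚ Ω))
      Subtype.val_injective x (y * ∏ j, z j) hY0 _ (div_ne_zero hD0 hlc0) hxyΩ htr
      ⟨i, (hmemr _).2 hi⟩ ⟨j, (hmemr _).2 hj⟩
    have hα' : (α : Ω) ^ 2 = (algebraMap F Ω x - (i : Ω)) / (algebraMap F Ω x - (j : Ω)) := by
      have h1 := congrArg (algebraMap (unramified F Ω U) Ω) hα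
      rw [map_pow, map_div₀, map_sub, map_sub] at h1
      exact h1
    have hr : algebraMap N Ω ((algebraMap F N x - cN hN i) / (algebraMap F N x - cN hN j)) =
        (algebraMap F Ω x - (i : Ω)) / (algebraMap F Ω x - (j : Ω)) := by
      rw [map_div₀, map_sub, map_sub]
      rfl
    refine ⟨⟨(α : Ω), hN.sq _ α.2 ?_⟩, Subtype.ext (hα'.trans hr.symm)⟩
    rw [hα', ← hr]
    exact ((algebraMap F N x - cN hN i) / (algebraMap F N x - cN hN j)).2
  let S : Sec f (algebraicClosure ℚ Ω) N :=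
    { s := (toRingAutHom F N).comp G.toHom
      ι := cN hN
      hι := fun σ x => Subtype.ext (G.compat σ x (cN hN x) rfl)
      cont := nsec_cont G
      x := algebraMap F N x
      hx := fun σ => (G.toHom σ).commutes x
      htr := fun a h => htr a (congrArg (algebraMap N Ω) h)
      hsq := fun e e' he he' => hsq e e' (by rw [hP, map_mul, he, zero_mul])
        (by rw [hP, map_mul, he', zero_mul]) }
  have haev : ∀ g0 : ℤ[X], aeval S.x g0 = algebraMap F N (aeval x g0) := by
    intro g0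
    exact aeval_algebraMap_apply _ x g0
  refine ⟨S, h _ _ S D hD ?_ ?_ (algebraMap F N y)
    (fun j => algebraMap F N (z j)) ?_ ?_ ?_ ?_, rfl, fun a => rfl, rfl⟩
  · exact fun Dt h1 h2 => mk_anyN hU hN Dt h2
  · intro i j hi hj
    rw [← hP] at hi hj
    exact hsq i j hi hj
  · exact fun σ => (G.toHom σ).commutes y
  · exact fun j σ => (G.toHom σ).commutes (z j)
  · rw [haev, ← hxy, map_mul, map_intCast, map_pow]
  · intro j
    rw [haev, ← hz, map_pow]

end Pool.Agent.Q161.OD
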