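import Pool.Agent.Q161.SX.Ar3

/-!
# Project OD (helper161): 100% of ALL quadratic twists of an odd degree hyperelliptic curve

GOAL.  `f ∈ ℤ[X]` irreducible over `ℚ`, of ODD degree `n ≥ 5`, `C_D : D y² = f(x)` (it has the rational
point `∞`), `K` the splitting field of `f`.  For 100% of all squarefree `D` (natural density): for every
section `s` of the fundamental group of `C_D` (or of an open subcurve, or of a curve over `C_D`), and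
all zeros `i, j` of `f`, `(x - i)/(x - j)` is the square of an element fixed by `s(G_K)`: over `K` the
section agrees with the section of the point `∞` on the maximal elementary abelian 2-covering.  The
same for rational points `(x, y)`: `(x - i)/(x - j) ∈ K^*²`.

PROOF.  With `x = a + 1/u` the curve is `D y² = u h(u)`, `h` irreducible of degree `n`, `h(0) ≠ 0`, and
`∞` is the point `u = 0`.  Let `L = ℚ(θ)`, `h(θ) = 0`.  By the local theorem (`Sec.Good`) there is for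
each prime `l ∣ D` outside a finite set a zero `r` of `X h` fixed by Frobenius, at which the section is
concentrated.  Let `m` be the product of the `l` with `r = 0`, and `α ∈ 𝓞 L` the generator of the
product of the primes given by `r`, for the other `l`; `|σ α| ≤ C (|D| / m)^(1/n)`.  The class of
`(u - i)/u` is `t i * m * α_i`.  For each type `(t, lam)` the set `T` of the pairs `(α, m)` satisfies local
conditions `P1`, `P2` modulo all primes `l` (outside a finite set): of the `l^(n+1)` classes of `𝓞 L × ℤ`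
modulo `l` only the proportion `1 - (N1 l + 1 - rho l) / l` is allowed, `rho ≤ 1`, `rho ≤ 3/8` if `l` splits
completely (`S_CNT2`).  The large sieve in dimension `n + 1` (`S_SIEVE2`, `S_CORE2`) bounds the number of
pairs with `|σ α| ≤ Y`, `|m| ≤ M` by `C Y^n M (log min(Y, M))^(-1-c)`.  Summation over dyadic boxes
(`S_CT`); the pairs with `m` bounded by the theorem of project EL (`EL.S_CORE`); the pairs with `α`
bounded: `m` has no prime factor in a set of primes of positive density (`S_CHB`, `S_Z1`), as the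
section is different from the one of `∞`.
-/

set_option autoImplicit false

namespace Pool.Agent.Q161.OD

open Polynomial NumberField IsDedekindDomain Finset
open Pool.Agent.W623.SecC (IsU)
open Pool.Agent.Q51.EL
open Pool.Agent.Q161.SX

universe u v w

section pairs

variable {L : Type} [Field L] [NumberField L]

/-- first local condition at the prime `l` for a set of pairs `(α, m)`: either `l ∤ m` and `α` is a unit at
`l` or contained in exactly one of the primes above `l`, which has norm `l`; or `l ∣ m` and `α` is a unit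
at `l` -/
def P1 (l : ℕ) (T : Set (𝓞 L × ℤ)) : Prop :=
  ∀ p ∈ T,
    (¬ (l : ℤ) ∣ p.2 ∧ ((∀ v : HeightOneSpectrum (𝓞 L), Abv v l → p.1 ∉ v.asIdeal) ∨
      ∃ v0 : HeightOneSpectrum (𝓞 L), Abv v0 l ∧ Ideal.absNorm v0.asIdeal = l ∧ p.1 ∈ v0.asIdeal ∧
        ∀ v : HeightOneSpectrum (𝓞 L), Abv v l → v ≠ v0 → p.1 ∉ v.asIdeal)) ∨
    ((l : ℤ) ∣ p.2 ∧ ∀ v : HeightOneSpectrum (𝓞 L), Abv v l → p.1 ∉ v.asIdeal)

/-- second local condition at the prime `l`: if `α, α'` lie in the same prime `v0` above `l` then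
`m m' α α'` is a square modulo all the other primes above `l`; if `l ∣ m` and `l ∣ m'` then `α α'` is a
rational integer prime to `l` times a square modulo all primes above `l` -/
def P2 (l : ℕ) (T : Set (𝓞 L × ℤ)) : Prop :=
  (∀ p ∈ T, ∀ q ∈ T, ∀ v0 : HeightOneSpectrum (𝓞 L), Abv v0 l → p.1 ∈ v0.asIdeal → q.1 ∈ v0.asIdeal →
    ∀ v : HeightOneSpectrum (𝓞 L), Abv v l → v ≠ v0 →
      ∃ g : 𝓞 L, ((p.2 * q.2 : ℤ) : 𝓞 L) * p.1 * q.1 - g ^ 2 ∈ v.asIdeal) ∧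
  ∀ p ∈ T, ∀ q ∈ T, (l : ℤ) ∣ p.2 → (l : ℤ) ∣ q.2 → ∃ c : ℤ, ¬ (l : ℤ) ∣ c ∧
    ∀ v : HeightOneSpectrum (𝓞 L), Abv v l → ∃ g : 𝓞 L, (c : 𝓞 L) * p.1 * q.1 - g ^ 2 ∈ v.asIdeal

variable (L) in
/-- an upper bound for `(N1 + 1) * 2 ^ (1 - r)`, `r` the number of the primes above `l` -/
noncomputable def rho (l : ℕ) : ℝ :=
  if N1 L l = Module.finrank ℚ L then
    ((Module.finrank ℚ L : ℝ) + 1) * 2 / 2 ^ Module.finrank ℚ L else 1

variable (L) in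
/-- the reduction of pairs modulo `l` -/
noncomputable def red (l : ℕ) (p : 𝓞 L × ℤ) : (𝓞 L ⧸ Ideal.span {(l : 𝓞 L)}) × ZMod l :=
  (Ideal.Quotient.mk (Ideal.span {(l : 𝓞 L)}) p.1, (p.2 : ZMod l))

end pairs

open Classical in
/-- the sum of `1 / l` over the set `P` of primes diverges -/
def Dvg (P : Set ℕ) : Prop :=
  (∀ l ∈ P, l.Prime) ∧ ∀ R : ℝ, ∃ Y : ℝ, R ≤ ∑ l ∈ (pr Y).filter (fun l => l ∈ P), (1 : ℝ) / l

/-! ## Part A: the sieve -/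

open Classical in
/-- JOB SIEVE2. The large sieve for pairs.  (`EL.S_LSV` is the large sieve in dimension `k` for CUBES at
any place.)
Proof: adapt `Q247.EL.sieve` (`Pool/Agent/Q247/EL/SIEVE.lean`).  Coordinates of `α` with respect to the basis
of `𝓞 L` are at most `C1 Y` in absolute value, the last coordinate `m` at most `M`.  Let
`N = ⌊min(Y, M)⌋₊ ≥ 1`, `Q = ⌊√(min(Y, M))⌋₊`, so `Q² ≤ N`.  Cover the box by at most
`(C2 Y / N)^n * (C2 M / N)` cubes of side `N` (after a shift all coordinates are natural numbers), apply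
`S_LSV` with `k = n + 1` to each of them, the number in the cube times the sum is `≤ (12 N)^(n+1)`; and add:
`≤ C Y^n M`. -/
def S_SIEVE2 : Prop := ∀ (L : Type) [Field L] [NumberField L], ∃ C : ℝ, 0 < C ∧
  ∀ (Y M : ℝ) (P : Finset ℕ) (T : Set (𝓞 L × ℤ)) (η : ℕ → ℝ), 1 ≤ Y → 1 ≤ M → (∀ t ∈ P, t.Prime) →
  (∀ t ∈ P, 0 < η t ∧ (((red L t '' T).ncard : ℕ) : ℝ) ≤
    (1 - η t) * (t : ℝ) ^ (Module.finrank ℚ L + 1)) →
  {p ∈ T | (∀ σ : L →+* ℂ, ‖σ (p.1 : L)‖ ≤ Y) ∧ |(p.2 : ℝ)| ≤ M}.Finite ∧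
  (({p ∈ T | (∀ σ : L →+* ℂ, ‖σ (p.1 : L)‖ ≤ Y) ∧ |(p.2 : ℝ)| ≤ M}.ncard : ℕ) : ℝ) *
    ∑ D ∈ P.powerset.filter (fun D => (((∏ t ∈ D, t : ℕ) : ℝ)) ^ 2 ≤ min Y M), ∏ t ∈ D, η t ≤
    C * Y ^ Module.finrank ℚ L * M

/-- JOB CNT2. The number of the classes modulo `l` allowed by the local conditions.
Proof: adapt `Q247.EL.cnt` (`Pool/Agent/Q247/EL/CNT.lean`, `CNT1.lean`).  `q_1, .., q_r` the primes above `l`,
`k_i = 𝓞/q_i`, `N = N1 L l` of them have norm `l`, `n = [L : ℚ]`.  (a) `l ∤ m`, `α` a unit at all `q_i`: at most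
`(l - 1) ∏ (|k_i| - 1) ≤ l^(n+1) (1 - 1/l)^(N+1) ≤ l^(n+1) (1 - (N+1)/l + (n+1)²/l²)` classes.
(b) `l ∤ m`, `α ∈ q_1` (one of the `N` primes of norm `l`): the classes `(α mod q_i, m)_{i ≥ 2}` lie in
`R^* × F_l^*`, `R = ∏_{i ≥ 2} k_i`; by `P2` the elements `m α ∈ R^*/R^{*2}` are all equal, and this group has
`2^(r-1)` elements; so at most `(l - 1) |R^*| / 2^(r-1) ≤ l^n 2^(1-r)` classes.
(c) `l ∣ m`: the classes of `α` lie in one coset of the subgroup `F_l^* R'^{*2}` of `R'^*`,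
`R' = ∏_{all i} k_i`, of index at least `2^(r-1)`; so at most `l^n 2^(1-r)` classes.  Altogether
`≤ l^(n+1) (1 - (N+1)/l + (n+1)²/l²) + (N+1) 2^(1-r) l^n`.  If `N < n` then `r ≥ N + 1` and
`(N+1) 2^(1-r) ≤ (N+1) 2^(-N) ≤ 1`; if `N = n` then `r = n`. -/
def S_CNT2 : Prop := ∀ (L : Type) [Field L] [NumberField L] (l : ℕ), l.Prime → l ≠ 2 →
  Squarefree (Ideal.span {(l : 𝓞 L)}) → ∀ T : Set (𝓞 L × ℤ), P1 l T → P2 l T →
  (((red L l '' T).ncard : ℕ) : ℝ) ≤ (l : ℝ) ^ (Module.finrank ℚ L + 1) *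
    (1 - (N1 L l + 1 - rho L l) / l + ((Module.finrank ℚ L : ℝ) + 1) ^ 2 / (l : ℝ) ^ 2)

/-- JOB CORE2. The main upper bound.
Proof: adapt `Q91.EL.core` (`Pool/Agent/Q91/EL/Core.lean`) (from `S_SIEVE2`, `S_CNT2`, `EL.S_SUMS`, `EL.S_RAM`,
`EL.S_M1`, `EL.S_M2`).  `n = [L : ℚ] ≥ 5`, replace `B` by a multiple divisible by `2` and the ramified primes.
Let `P` be the set of the primes `l`, `(n+1)² < l`, `l² ≤ min(Y, M)`, `l ∤ B`, with `N1 L l ≥ 1`, and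
`η l = (N1 L l + 1 - rho L l) / l - (n+1)² / l²`; here `N1 L l + 1 - rho L l ≥ 1`, so `0 < η l ≤ (n+1) / l`.
`∑_{l ∈ P} η l ≥ ∑_{l ≤ √min} (N1 l + 1 - rho l)/l - C ≥ ∑ N1 l / l + (5/8) ∑_{N1 l = n} 1 / l - C
≥ (1 - ε + (5/8) c) log log √min - C` (`rho ≤ 1`, and `rho = (n+1)/2^(n-1) ≤ 3/8` if `N1 = n`). -/
def S_CORE2 : Prop := ∀ (L : Type) [Field L] [NumberField L], 5 ≤ Module.finrank ℚ L → ∀ B : ℕ, B ≠ 0 →
  ∃ c C : ℝ, 0 < c ∧ 0 < C ∧ ∀ T : Set (𝓞 L × ℤ), (∀ l : ℕ, l.Prime → ¬ l ∣ B → P1 l T ∧ P2 l T) →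
  ∀ Y M : ℝ, 3 ≤ Y → 3 ≤ M →
    {p ∈ T | (∀ σ : L →+* ℂ, ‖σ (p.1 : L)‖ ≤ Y) ∧ |(p.2 : ℝ)| ≤ M}.Finite ∧
    (({p ∈ T | (∀ σ : L →+* ℂ, ‖σ (p.1 : L)‖ ≤ Y) ∧ |(p.2 : ℝ)| ≤ M}.ncard : ℕ) : ℝ) ≤
      C * Y ^ Module.finrank ℚ L * M * Real.log (min Y M) ^ (-(1 + c))

open Classical in
/-- JOB Z1. The integers without prime factors in a set `P` with divergent sum of reciprocals have
density zero.
Proof: for a finite subset `F ⊆ P`, `Q = ∏_{l ∈ F} l`, the number of the `m ≤ X` prime to `Q` is at most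
`(X/Q + 1) φ(Q)`, and `φ(Q)/Q = ∏ (1 - 1/l) ≤ exp (- ∑_{l ∈ F} 1/l)`. -/
def S_Z1 : Prop := ∀ P : Set ℕ, Dvg P → ∀ ε : ℝ, 0 < ε → ∃ X0 : ℝ, ∀ X : ℝ, X0 ≤ X →
  (((Icc 1 ⌊X⌋₊).filter (fun m : ℕ => ∀ l ∈ P, ¬ l ∣ m)).card : ℝ) ≤ ε * X

/-- JOB CTA. The pairs with a fixed `m`.
Proof (from `EL.S_CORE`): the set `{α | (α, m) ∈ T}` satisfies `EL.Ty1`, `EL.Ty2` at all primes not dividing
`B * m.natAbs` (`P2`, first part, for two pairs with the same `m`: `c = m²`), so the number is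
`≤ C_m Y^n exp (GN L Y) (log Y)^(-1-c)` for `Y = C (X/m)^(1/n) + 3`, and `GN L Y ≤ log log Y + C'` (Mertens' second
theorem, the sum over all primes; it is used in `Q91.EL.Sums`). -/
def S_CTA : Prop := ∀ (L : Type) [Field L] [NumberField L], 5 ≤ Module.finrank ℚ L → ∀ (B : ℕ) (C : ℝ)
  (T : Set (𝓞 L × ℤ)), B ≠ 0 → 0 < C → (∀ l : ℕ, l.Prime → ¬ l ∣ B → P1 l T ∧ P2 l T) →
  ∀ m : ℤ, 1 ≤ m → ∀ ε : ℝ, 0 < ε → ∃ X0 : ℝ, ∀ X : ℝ, X0 ≤ X →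
    {α : 𝓞 L | (α, m) ∈ T ∧
      ∀ σ : L →+* ℂ, ‖σ (α : L)‖ ≤ C * (X / m) ^ ((1 : ℝ) / Module.finrank ℚ L)}.Finite ∧
    (({α : 𝓞 L | (α, m) ∈ T ∧
      ∀ σ : L →+* ℂ, ‖σ (α : L)‖ ≤ C * (X / m) ^ ((1 : ℝ) / Module.finrank ℚ L)}.ncard : ℕ) : ℝ) ≤
      ε * X

/-- JOB CTB. The pairs with `α` and `m` large, by dyadic boxes.
Proof (from `S_CORE2`): take `T0 = 2^(j0)`.  For `j ≥ j0` and `2^j < m ≤ 2^(j+1)`, `Y_j = C (X/2^j)^(1/n)` (`≥ T1`),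
`M_j = 2^(j+1)`: `S_CORE2` gives `≤ C' Y_j^n M_j (log min(Y_j, M_j))^(-1-c)
= 2 C' C^n X (log min(Y_j, M_j))^(-1-c) ≤ C'' X (((j+1) log 2)^(-1-c) + (log Y_j)^(-1-c))`.  The numbers `log Y_j`,
`j0 ≤ j ≤ J`, are an arithmetic progression with difference `- (log 2)/n` and all terms `≥ log T1`.  So the
sum over `j` is at most `C'' X (∑_{j ≥ j0} ((j+1) log 2)^(-1-c) + ∑_{i ≥ 0} (log T1 + i (log 2)/n)^(-1-c))`,
which tends to `0` for `j0, T1 → ∞` (tails of convergent sums). -/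
def S_CTB : Prop := ∀ (L : Type) [Field L] [NumberField L], 5 ≤ Module.finrank ℚ L → ∀ (B : ℕ) (C : ℝ)
  (T : Set (𝓞 L × ℤ)), B ≠ 0 → 0 < C → (∀ l : ℕ, l.Prime → ¬ l ∣ B → P1 l T ∧ P2 l T) →
  ∀ ε : ℝ, 0 < ε → ∃ T0 T1 : ℝ, ∀ X : ℝ, 1 ≤ X →
    {p ∈ T | T0 < p.2 ∧ 1 ≤ p.2 ∧ (p.2 : ℝ) ≤ X ∧ T1 ≤ C * (X / p.2) ^ ((1 : ℝ) / Module.finrank ℚ L) ∧
      ∀ σ : L →+* ℂ, ‖σ (p.1 : L)‖ ≤ C * (X / p.2) ^ ((1 : ℝ) / Module.finrank ℚ L)}.Finite ∧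
    (({p ∈ T | T0 < p.2 ∧ 1 ≤ p.2 ∧ (p.2 : ℝ) ≤ X ∧
      T1 ≤ C * (X / p.2) ^ ((1 : ℝ) / Module.finrank ℚ L) ∧
      ∀ σ : L →+* ℂ, ‖σ (p.1 : L)‖ ≤ C * (X / p.2) ^ ((1 : ℝ) / Module.finrank ℚ L)}.ncard : ℕ) : ℝ) ≤
      ε * X

/-- JOB CT. The count for one set of pairs.
Proof (from `S_CTA`, `S_CTB`, `S_Z1`), `n = [L : ℚ]`.  Let `T0, T1` be as in `S_CTB` for `ε/3`.
(i) `m ≤ T0`: finitely many `m`, `S_CTA` for each of them.  (ii) `m > T0` and `C (X/m)^(1/n) ≥ T1`: `S_CTB`.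
(iii) `C (X/m)^(1/n) < T1`: then all `|σ α| ≤ T1`, which leaves finitely many `α`
(`NumberField.Embeddings.finite_of_norm_le`), and for each of them the number of the `m ≤ X` is `o(X)` by
`S_Z1`. -/
def S_CT : Prop := ∀ (L : Type) [Field L] [NumberField L], 5 ≤ Module.finrank ℚ L → ∀ (B : ℕ) (C : ℝ)
  (T : Set (𝓞 L × ℤ)), B ≠ 0 → 0 < C → (∀ l : ℕ, l.Prime → ¬ l ∣ B → P1 l T ∧ P2 l T) →
  (∀ α : 𝓞 L, ∃ P : Set ℕ, Dvg P ∧ ∀ m : ℤ, (α, m) ∈ T → ∀ l ∈ P, ¬ (l : ℤ) ∣ m) →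
  ∀ ε : ℝ, 0 < ε → ∃ X0 : ℝ, ∀ X : ℝ, X0 ≤ X →
    {p ∈ T | 1 ≤ p.2 ∧ (p.2 : ℝ) ≤ X ∧
      ∀ σ : L →+* ℂ, ‖σ (p.1 : L)‖ ≤ C * (X / p.2) ^ ((1 : ℝ) / Module.finrank ℚ L)}.Finite ∧
    (({p ∈ T | 1 ≤ p.2 ∧ (p.2 : ℝ) ≤ X ∧
      ∀ σ : L →+* ℂ, ‖σ (p.1 : L)‖ ≤ C * (X / p.2) ^ ((1 : ℝ) / Module.finrank ℚ L)}.ncard : ℕ) : ℝ) ≤
      ε * X

/-- JOB CHB. Chebotarev's theorem for a quadratic extension `K(w)` of a Galois extension `K` of `ℚ`.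
Proof.  `E` = normal closure of `K(w)` in `A`; there is a `g ∈ Gal(E/ℚ)` trivial on `K` with `g w = - w`.  By
Chebotarev's theorem (`Pool.Agent.W401.Cheb.chebotarev`, natural density; compare
`Pool/Agent/Q154/EL/CH1a.lean`) the set of the primes `l` with a homomorphism `ψ : 𝓞 E → F̄_l`,
`ψ (g x) = (ψ x)^l`, has a divergent sum of reciprocals.  By `SX.S_PLC` (proved: `Q150.SX.plc`) there are `V`, `φ`
above `l`; the prime of `E` under `V` is conjugate to the kernel of `ψ`, so we may assume (replace `V`,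
`φ` by conjugates) that it is equal to it; then `φ x ≡ x^l ≡ g x` modulo `V` for all integral `x ∈ E`.  Apply
this to an integral generator `ξ` of `K` (outside the primes dividing the discriminant of its minimal
polynomial: `φ ξ` and `ξ` are conjugate and congruent, so equal) and to an integral multiple of `w`:
`φ w = ± w`, and `φ w ≡ g w = - w`. -/
def S_CHB : Prop := ∀ (A : Type) [Field A] [Algebra ℚ A] [IsAlgClosure ℚ A] (K : IntermediateField ℚ A),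
  FiniteDimensional ℚ K → Normal ℚ K → ∀ w : A, w ^ 2 ∈ K → w ∉ K →
  Dvg {l : ℕ | l.Prime ∧ ∃ (V : ValuationSubring A) (φ : A ≃ₐ[ℚ] A), (l : A) ∈ V.nonunits ∧ Frb V l φ ∧
    φ ∈ K.fixingSubgroup ∧ φ w = - w}

/-! ## Part B: sections -/

/-- the section is different from the section of the point `u = 0` of `D y² = u h(u)` (over the splitting
field, modulo squares) -/
def NT (h : ℤ[X]) {A : Type u} {M : Type v} [Field A] [Algebra ℚ A] [Field M] (S : Sec (X * h) A M) :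
    Prop :=
  ∃ i j : A, aeval i h = 0 ∧ aeval j h = 0 ∧ ¬ ∃ β : M, S.Fix (spl (X * h) A) β ∧
    β ^ 2 = (S.x - S.ι i) / (S.x - S.ι j) * S.ι (j / i)

/-- (helper161) The pairs attached to sections. -/
def S_AR2 : Prop := ∀ (h : ℤ[X]) (L : Type) [Field L] [NumberField L] (θ : L), Setup h L θ →
  h.coeff 0 ≠ 0 → 3 ≤ h.natDegree → Odd h.natDegree →
  ∀ (A : Type) [Field A] [Algebra ℚ A] [IsAlgClosure ℚ A] (B0 : ℕ), B0 ≠ 0 →
  ∃ (B : ℕ) (C : ℝ) (N : ℕ) (T : Fin N → Set (𝓞 L × ℤ)), B ≠ 0 ∧ 0 < C ∧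
    (∀ k, ∀ l : ℕ, l.Prime → ¬ l ∣ B → P1 l (T k) ∧ P2 l (T k)) ∧
    (∀ k, ∀ α : 𝓞 L, ∃ P : Set ℕ, Dvg P ∧ ∀ m : ℤ, (α, m) ∈ T k → ∀ l ∈ P, ¬ (l : ℤ) ∣ m) ∧
    ∀ (D : ℤ) (M : Type v) [Field M] (S : Sec (X * h) A M), Squarefree D → S.Good D B0 → NT h S →
      ∃ k, ∃ p ∈ T k, (∀ l : ℕ, l.Prime → ¬ l ∣ B → ((l : ℤ) ∣ D ↔
          (l : ℤ) ∣ p.2 ∨ ∃ v : HeightOneSpectrum (𝓞 L), Abv v l ∧ p.1 ∈ v.asIdeal)) ∧
        1 ≤ p.2 ∧ (p.2 : ℝ) ≤ D.natAbs ∧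
        ∀ σ : L →+* ℂ, ‖σ (p.1 : L)‖ ≤
          C * ((D.natAbs : ℝ) / p.2) ^ ((1 : ℝ) / Module.finrank ℚ L)

/-- JOB FIN2. The final count (from `S_AR2`, `S_CT`).
Proof: adapt `Pool/Agent/Q251/SX/Fin.lean` (lemma `count`).  `h` has a zero `θ` in a number field `L`
(`exists_L` there).  The set of the squarefree `D`, `|D| ≤ X`, in question is mapped to the union over
`k` of the sets of `S_CT` (`(|D|/m)^(1/n) ≤ (X/m)^(1/n)`), and `p` determines the primes `l ∣ D` not dividing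
`B`, so there are at most `3 (B + 1)` (or `2 ^ (1 + ω(B))`) squarefree `D` with the same `p`. -/
def S_FIN2 : Prop := ∀ h : ℤ[X], Irreducible (h.map (Int.castRingHom ℚ)) → h.coeff 0 ≠ 0 →
  5 ≤ h.natDegree → Odd h.natDegree →
  ∀ (A : Type) [Field A] [Algebra ℚ A] [IsAlgClosure ℚ A] (B0 : ℕ), B0 ≠ 0 →
  ∀ ε : ℝ, 0 < ε → ∃ X0 : ℝ, ∀ X : ℝ, X0 ≤ X →
    (({D : ℤ | (D.natAbs : ℝ) ≤ X ∧ Squarefree D ∧
      ∃ (M : Type v) (_ : Field M) (S : Sec (Polynomial.X * h) A M), S.Good D B0 ∧ NT h S}.ncard : ℕ) : ℝ) ≤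
    ε * X

end Pool.Agent.Q161.OD
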