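import Pool.Agent.Q161.OD.Sec2

/-! # Project OD: sections of the fundamental groups of the twists -/

set_option autoImplicit false

namespace Pool.Agent.Q161.OD

open Polynomial NumberField IsDedekindDomain
open Pool.Agent.W623.SecC (IsU isU_one)
open Pool.Agent.Q51.EL
open Pool.Agent.Q161.SX
open Pool.Agent.Q16.SX
open Pool.Agent.W620.SC (GSection unramified)

universe u v w

section tra

variable {A : Type u} {A' : Type w} [Field A] [Field A'] [Algebra ℚ A] [Algebra ℚ A']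
  (e : A ≃ₐ[ℚ] A') {M : Type v} [Field M]

theorem good_cS {f : ℤ[X]} {S' : Sec f A' M} {D : ℤ} {B : ℕ} (hS : S'.Good D B) :
    (cS e S').Good D B := by
  intro l hl hlB V hV φ hφ
  have hV' : (l : A') ∈ (cV e V).nonunits := by
    rw [non_cV, map_natCast]
    exact hV
  have hL := hS l hl hlB (cV e V) hV' (cA e φ) (Frb_cV e hφ)
  refine ⟨fun hD i j a ha => PV_cV e (hL.even hD _ _ _ (cS_Kc e S' ha)), fun hD => ?_⟩
  obtain ⟨r, h1, h2, h3, γ, h4, h5⟩ := hL.odd hD
  have hr : cR e (cR' e r) = r := cR_cR' e r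
  have hne : ∀ i : Rt f A, i ≠ cR' e r → cR e i ≠ r := by
    intro i hi h
    apply hi
    rw [← h, cR'_cR]
  refine ⟨cR' e r, ?_, fun i j a hi hj ha => PV_cV e (h2 _ _ _ (hne i hi) (hne j hj)
    (cS_Kc e S' ha)), fun i a hi ha => PV_cV e (h3 _ _ (hne i hi) ?_), fun i => γ (cR e i),
    fun i => h4 _, fun i j hi hj => ?_⟩
  · apply cR_inj e
    rw [← ra_cR, hr, h1]
  · have h6 := cS_Kc e S' ha
    rw [hr] at h6
    exact h6
  · obtain ⟨h6, h7⟩ := h5 (cR e i) (cR e j) (hne i hi) (hne j hj)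
    refine ⟨?_, ?_⟩
    · rw [h6]
      show _ = (S'.x - S'.ι (e i.1)) / (S'.x - S'.ι (e j.1)) *
        S'.ι (e ((e.symm r.1 - j.1) / (e.symm r.1 - i.1)))
      rw [map_div₀ e, map_sub e, map_sub e, e.apply_symm_apply]
      rfl
    · show S'.s (cA e φ) _ = _
      rw [h7, ra_cR, ra_cR]

theorem eqn_cS {h : ℤ[X]} {S' : Sec (X * h) A' M} {D : ℤ} (hE : Eqn h D S') :
    Eqn h D (cS e S') := by
  obtain ⟨y, hy, hxy⟩ := hE
  exact ⟨y, fun σ => hy _, hxy⟩

theorem rt_cS {h : ℤ[X]} {S' : Sec (X * h) A' M} {D : ℤ} (hR : RT h D (cS e S')) :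
    RT h D S' := by
  intro i hi
  obtain ⟨β, h1, h2⟩ := hR (e.symm i) (root' e h i hi)
  refine ⟨β, ?_, ?_⟩
  · rw [h1]
    change S'.ι (e (-((h.coeff 0 * D : ℤ) : A) / e.symm i)) *
      ((S'.x - S'.ι (e (e.symm i))) / S'.x) = _
    rw [map_div₀ e, map_neg, map_intCast, e.apply_symm_apply]
  · intro σ hσ
    obtain ⟨τ, rfl⟩ := (cA e).surjective σ
    refine h2 τ (e.injective ?_)
    rw [cA_apply] at hσ
    rw [hσ, e.apply_symm_apply]

end tra

section rev

theorem rev_rev {R : Type u} [Field R] (F : R[X]) (h0 : F.coeff 0 ≠ 0) : F.reverse.reverse = F := by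
  have hdeg : F.reverse.natDegree = F.natDegree := by
    rw [reverse_natDegree, natTrailingDegree_eq_zero.2 (Or.inr h0), Nat.sub_zero]
  ext i
  rw [coeff_reverse, coeff_reverse, hdeg, revAt_invol]

theorem irr_rev {R : Type u} [Field R] (P : R[X]) (hP : Irreducible P) (hP0 : P.coeff 0 ≠ 0) :
    Irreducible P.reverse := by
  have key : ∀ a : R[X], a.coeff 0 ≠ 0 → IsUnit a.reverse → IsUnit a := by
    intro a ha hu
    have hd : a.reverse.natDegree = a.natDegree := by
      rw [reverse_natDegree, natTrailingDegree_eq_zero.2 (Or.inr ha), Nat.sub_zero]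
    have h1 := natDegree_eq_zero_of_isUnit hu
    rw [hd] at h1
    obtain ⟨c, rfl⟩ := natDegree_eq_zero.1 h1
    rwa [reverse_C] at hu
  refine ⟨fun hu => hP.not_isUnit (key P hP0 hu), ?_⟩
  intro a b hab
  have h0 : P.reverse.coeff 0 ≠ 0 := by
    rw [coeff_zero_reverse]
    exact leadingCoeff_ne_zero.2 hP.ne_zero
  have ha : a.coeff 0 ≠ 0 := by
    intro h
    apply h0
    rw [hab, mul_coeff_zero, h, zero_mul]
  have hb : b.coeff 0 ≠ 0 := by
    intro h
    apply h0
    rw [hab, mul_coeff_zero, h, mul_zero]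
  have h1 : P = a.reverse * b.reverse := by
    rw [← reverse_mul_of_domain, ← hab, rev_rev P hP0]
  have h2 : ∀ c : R[X], c.coeff 0 ≠ 0 → c.reverse.coeff 0 ≠ 0 := by
    intro c hc
    rw [coeff_zero_reverse]
    refine leadingCoeff_ne_zero.2 ?_
    rintro rfl
    exact hc rfl
  rcases hP.isUnit_or_isUnit h1 with h3 | h3
  · exact Or.inl (key a ha h3)
  · exact Or.inr (key b hb h3)

theorem map_rev (f : ℤ[X]) :
    f.reverse.map (Int.castRingHom ℚ) = (f.map (Int.castRingHom ℚ)).reverse := by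
  ext i
  rw [coeff_map, coeff_reverse, coeff_reverse, coeff_map,
    natDegree_map_eq_of_injective (Int.castRingHom ℚ).injective_int]

/-- the properties of the reversed polynomial -/
theorem rev_props {f : ℤ[X]} (hf : Irreducible (f.map (Int.castRingHom ℚ))) (hn : 2 ≤ f.natDegree) :
    f.coeff 0 ≠ 0 ∧ Irreducible (f.reverse.map (Int.castRingHom ℚ)) ∧
    f.reverse.natDegree = f.natDegree ∧ f.reverse.coeff 0 = f.leadingCoeff ∧
    f.leadingCoeff ≠ 0 := by
  have h0 : f.coeff 0 ≠ 0 := by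
    intro h
    have h1 : (X : ℚ[X]) ∣ f.map (Int.castRingHom ℚ) := by
      rw [X_dvd_iff, coeff_map, h, map_zero]
    have h2 := (irreducible_X (R := ℚ)).associated_of_dvd hf h1
    have h3 := natDegree_eq_of_degree_eq (degree_eq_degree_of_associated h2)
    rw [natDegree_X, natDegree_map_eq_of_injective (Int.castRingHom ℚ).injective_int] at h3
    omega
  have hQ0 : (f.map (Int.castRingHom ℚ)).coeff 0 ≠ 0 := by
    rw [coeff_map]
    exact (map_ne_zero_iff _ (Int.castRingHom ℚ).injective_int).2 h0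
  refine ⟨h0, ?_, ?_, coeff_zero_reverse f, ?_⟩
  · rw [map_rev]
    exact irr_rev _ hf hQ0
  · rw [reverse_natDegree, natTrailingDegree_eq_zero.2 (Or.inr h0), Nat.sub_zero]
  · refine leadingCoeff_ne_zero.2 ?_
    rintro rfl
    exact h0 rfl

/-- values of the reversed polynomial -/
theorem rev_eval {R : Type u} [Field R] (f : ℤ[X]) {x : R} (hx : x ≠ 0) :
    aeval x f = x ^ f.natDegree * aeval x⁻¹ f.reverse := by
  have hi : Invertible x := invertibleOfNonzero hx
  have h1 := eval₂_reverse_mul_pow (algebraMap ℤ R) x f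
  rw [invOf_eq_inv] at h1
  rw [aeval_def, aeval_def, ← h1, mul_comm]

end rev

/-- `β` is fixed by `s(σ)` for all `σ` which fix `θ` -/
def FixG {k : Type u} {F : Type v} {Ω : Type w} [Field k] [Field F] [Field Ω] [Algebra k F]
    [Algebra F Ω] [Algebra k Ω] {U : Set (ValuationSubring F)} (G : GSection k F Ω U)
    (θ : algebraicClosure k Ω) (β : unramified F Ω U) : Prop :=
  ∀ σ : algebraicClosure k Ω ≃ₐ[k] algebraicClosure k Ω, σ θ = θ → G.toHom σ β = β

attribute [-instance] DivisionRing.toRatAlgebra in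
/-- the section `G` has the class of the section of the point at infinity -/
def TrG (f : ℤ[X]) (D : ℤ) {F : Type v} {Ω : Type w} [Field F] [Field Ω] [Algebra ℚ F]
    [Algebra F Ω] [Algebra ℚ Ω] (U : Set (ValuationSubring F)) (G : GSection ℚ F Ω U) (x : F) :
    Prop :=
  ∀ θ : algebraicClosure ℚ Ω, aeval (θ : Ω) f = 0 → ∃ β : unramified F Ω U,
    (β : Ω) ^ 2 = ((f.leadingCoeff * D : ℤ) : Ω) * (algebraMap F Ω x - θ) ∧ FixG G θ β

attribute [-instance] DivisionRing.toRatAlgebra in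
/-- there is a section with nontrivial class -/
def BdG (f : ℤ[X]) (D : ℤ) : Prop :=
  ∃ (F : Type v) (Ω : Type w) (_ : Field F) (_ : Field Ω) (_ : Algebra ℚ F)
    (_ : Algebra F Ω) (_ : Algebra ℚ Ω) (_ : IsScalarTower ℚ F Ω) (_ : IsAlgClosed Ω)
    (_ : Algebra.IsAlgebraic F Ω) (U : Set (ValuationSubring F)) (x y : F)
    (G : GSection ℚ F Ω U), (∀ O ∈ U, ∀ c : ℚ, algebraMap ℚ F c ∈ O) ∧
    (D : F) * y ^ 2 = aeval x f ∧ Transcendental ℚ x ∧ ¬ TrG f D U G x

attribute [-instance] DivisionRing.toRatAlgebra in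
theorem sec_density (f : ℤ[X]) (hf : Irreducible (f.map (Int.castRingHom ℚ)))
    (h5 : 5 ≤ f.natDegree) (hodd : Odd f.natDegree) (ε : ℝ) (hε : 0 < ε) :
    ∃ X0 : ℝ, ∀ X : ℝ, X0 ≤ X →
    (({D : ℤ | (D.natAbs : ℝ) ≤ X ∧ Squarefree D ∧ BdG.{v, w} f D}.ncard : ℕ) : ℝ) ≤ ε * X := by
  classical
  obtain ⟨hf0, hirr, hdeg, hlc, hlc0⟩ := rev_props hf (by omega)
  obtain ⟨h, hh⟩ : ∃ h : ℤ[X], h = f.reverse := ⟨_, rfl⟩
  rw [← hh] at hirr hdeg hlc
  have hh0 : h.coeff 0 ≠ 0 := by
    rw [hlc]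
    exact hlc0
  have hhne : h ≠ 0 := by
    rintro rfl
    exact hh0 rfl
  have hXh : (X * h : ℤ[X]).natDegree = f.natDegree + 1 := by
    rw [natDegree_mul X_ne_zero hhne, natDegree_X, hdeg, add_comm]
  obtain ⟨B, hB, hS⟩ := sech1.{v, w} (J := Empty) (X * h) (fun e => e.elim) (by
    rw [Finset.univ_eq_empty, Finset.prod_empty, mul_one]
    exact xh_sep hirr hh0) (by rw [hXh]; exact hodd.add_one) (by omega) (fun e => e.elim)
  obtain ⟨A, iA, iA', hA⟩ := closure_ex ℚ
  obtain ⟨X0, hX0⟩ := fin3.{w} h hirr hh0 (by omega) (by rw [hdeg]; exact hodd) A B hB ε hε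
  refine ⟨X0, fun X hX => le_trans ?_ (hX0 X hX)⟩
  have hfin : {D : ℤ | (D.natAbs : ℝ) ≤ X ∧ Squarefree D ∧
      ∃ (M : Type w) (_ : Field M) (S : Sec (Polynomial.X * h) A M), S.Good D B ∧ Eqn h D S ∧
        ¬ RT h D S}.Finite := natAbs_finite X _
  have hsub : {D : ℤ | (D.natAbs : ℝ) ≤ X ∧ Squarefree D ∧ BdG.{v, w} f D} ⊆
      {D : ℤ | (D.natAbs : ℝ) ≤ X ∧ Squarefree D ∧
      ∃ (M : Type w) (_ : Field M) (S : Sec (Polynomial.X * h) A M), S.Good D B ∧ Eqn h D S ∧
        ¬ RT h D S} := by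
    rintro D ⟨h1, h2, F, Ω, i1, i2, i3, i4, i5, i6, i7, i8, U, x, y, G, hU, hxy, hx, hT⟩
    refine ⟨h1, h2, ?_⟩
    have hx0 : x ≠ 0 := by
      rintro rfl
      exact hx (isAlgebraic_zero)
    obtain ⟨k, hk⟩ := hodd
    have hev : (D : F) * (y * x⁻¹ ^ (k + 1)) ^ 2 = aeval x⁻¹ (Polynomial.X * h) := by
      rw [mul_pow, ← mul_assoc, hxy, rev_eval f hx0, ← hh, map_mul, aeval_X, hk, ← pow_mul]
      have e1 : x ^ (2 * k + 1) * x⁻¹ ^ ((k + 1) * 2) = x⁻¹ := by
        have e2 : x⁻¹ ^ ((k + 1) * 2) = x⁻¹ ^ (2 * k + 1) * x⁻¹ := by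
          rw [← pow_succ]
          congr 1
          ring
        rw [e2, ← mul_assoc, ← mul_pow, mul_inv_cancel₀ hx0, one_pow, one_mul]
      linear_combination (aeval x⁻¹ h) * e1
    have hx' : Transcendental ℚ x⁻¹ := by
      intro h
      apply hx
      have := h.inv
      rwa [inv_inv] at this
    obtain ⟨S', hG, hs, hι, hxS⟩ := hS D h2 F Ω U hU G x⁻¹ (y * x⁻¹ ^ (k + 1)) (fun e => e.elim)
      hev (fun e => e.elim) hx'
    obtain ⟨e0⟩ := equiv_ex ℚ A Ω
    obtain ⟨e⟩ := @rat_equiv A (algebraicClosure ℚ Ω) _ _ _ (algebraicClosure ℚ Ω).algebra' e0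
    refine ⟨_, inferInstance, cS e S', good_cS e hG.good, eqn_cS e ?_, fun hR => hT ?_⟩
    · refine ⟨algebraMap F (unramified F Ω U) (y * x⁻¹ ^ (k + 1)), ?_, ?_⟩
      · intro σ
        rw [hs]
        exact (G.toHom σ).commutes _
      · have h3 := congrArg (algebraMap F (unramified F Ω U)) hev
        rw [map_mul (algebraMap F (unramified F Ω U)), map_intCast,
          map_pow (algebraMap F (unramified F Ω U))] at h3
        rw [h3, hxS, map_mul, aeval_X, map_mul (algebraMap F (unramified F Ω U))]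
        congr 1
        exact (aeval_algebraMap_apply _ _ _).symm
    · have hR' := rt_cS e hR
      intro θ hθ
      have hθ' : aeval θ f = 0 := by
        apply (algebraMap (algebraicClosure ℚ Ω) Ω).injective
        rw [map_zero, ← aeval_algebraMap_apply]
        exact hθ
      have hθ0 : θ ≠ 0 := by
        rintro rfl
        have h3 : aeval (0 : algebraicClosure ℚ Ω) f = ((f.coeff 0 : ℤ) : algebraicClosure ℚ Ω) := by
          rw [← coeff_zero_eq_aeval_zero']
          rfl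
        rw [h3] at hθ'
        have hch : CharZero (algebraicClosure ℚ Ω) := algebraRat.charZero _
        exact hf0 (by exact_mod_cast hθ')
      have hi : aeval θ⁻¹ h = 0 := by
        have h3 := rev_eval f hθ0
        rw [hθ', ← hh] at h3
        rcases mul_eq_zero.1 h3.symm with h4 | h4
        · exact absurd h4 (pow_ne_zero _ hθ0)
        · exact h4
      obtain ⟨β, hβ1, hβ2⟩ := hR' θ⁻¹ hi
      refine ⟨β, ?_, ?_⟩
      · have h3 := congrArg (algebraMap (unramified F Ω U) Ω) hβ1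
        have hx0Ω : algebraMap F Ω x ≠ 0 := (_root_.map_ne_zero _).2 hx0
        have hθ0Ω : (θ : Ω) ≠ 0 := fun h => hθ0 (Subtype.ext h)
        have e1 : algebraMap (unramified F Ω U) Ω (S'.ι (-((h.coeff 0 * D : ℤ) :
            algebraicClosure ℚ Ω) / θ⁻¹)) = -((h.coeff 0 * D : ℤ) : Ω) * (θ : Ω) := by
          have e2 := hι (-((h.coeff 0 * D : ℤ) : algebraicClosure ℚ Ω) / θ⁻¹)
          change ((S'.ι (-((h.coeff 0 * D : ℤ) : algebraicClosure ℚ Ω) / θ⁻¹) :
            unramified F Ω U) : Ω) = _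
          rw [e2, div_inv_eq_mul]
          push_cast
          rfl
        have e3 : algebraMap (unramified F Ω U) Ω (S'.ι θ⁻¹) = (θ : Ω)⁻¹ := by
          change ((S'.ι θ⁻¹ : unramified F Ω U) : Ω) = _
          rw [hι]
          push_cast
          rfl
        have e4 : algebraMap (unramified F Ω U) Ω S'.x = (algebraMap F Ω x)⁻¹ := by
          rw [hxS, ← IsScalarTower.algebraMap_apply, map_inv₀]
        rw [map_pow, map_mul, e1, map_div₀, map_sub, e3, e4, hlc] at h3
        change (algebraMap (unramified F Ω U) Ω β) ^ 2 = _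
        rw [h3]
        field_simp
        ring
      · intro σ hσ
        have h3 := hβ2 σ (by rw [map_inv₀, hσ])
        rw [hs] at h3
        exact h3
  exact_mod_cast Set.ncard_le_ncard hsub hfin

end Pool.Agent.Q161.OD
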