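import Pool.Agent.Q161.OD.SecN

/-! # Project OD: sections of the fundamental groups of the twists, general form -/

set_option autoImplicit false

namespace Pool.Agent.Q161.OD

open Polynomial NumberField IsDedekindDomain
open Pool.Agent.W623.SecC (IsU isU_one)
open Pool.Agent.Q51.EL
open Pool.Agent.Q161.SX
open Pool.Agent.Q16.SX

universe u v w

/-- `β` is fixed by `s(σ)` for all `σ` which fix `θ` -/
def FixN {k : Type u} {F : Type v} {Ω : Type w} [Field k] [Field F] [Field Ω] [Algebra k F]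
    [Algebra F Ω] [Algebra k Ω] {N : IntermediateField F Ω} (G : NSec k F Ω N)
    (θ : algebraicClosure k Ω) (β : N) : Prop :=
  ∀ σ : algebraicClosure k Ω ≃ₐ[k] algebraicClosure k Ω, σ θ = θ → G.toHom σ β = β

attribute [-instance] DivisionRing.toRatAlgebra in
/-- the section `G` has the class of the section of the point at infinity -/
def TrN (f : ℤ[X]) (D : ℤ) {F : Type v} {Ω : Type w} [Field F] [Field Ω] [Algebra ℚ F]
    [Algebra F Ω] [Algebra ℚ Ω] {N : IntermediateField F Ω} (G : NSec ℚ F Ω N) (x : F) :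
    Prop :=
  ∀ θ : algebraicClosure ℚ Ω, aeval (θ : Ω) f = 0 → ∃ β : N,
    (β : Ω) ^ 2 = ((f.leadingCoeff * D : ℤ) : Ω) * (algebraMap F Ω x - θ) ∧ FixN G θ β

attribute [-instance] DivisionRing.toRatAlgebra in
/-- there is a section with nontrivial class -/
def BdN (f : ℤ[X]) (D : ℤ) : Prop :=
  ∃ (F : Type v) (Ω : Type w) (_ : Field F) (_ : Field Ω) (_ : Algebra ℚ F)
    (_ : Algebra F Ω) (_ : Algebra ℚ Ω) (_ : IsScalarTower ℚ F Ω) (_ : IsAlgClosed Ω)
    (_ : Algebra.IsAlgebraic F Ω) (U : Set (ValuationSubring F))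
    (N : IntermediateField F Ω) (x y : F)
    (G : NSec ℚ F Ω N), (∀ O ∈ U, ∀ c : ℚ, algebraMap ℚ F c ∈ O) ∧ SqC ℚ F Ω U N ∧
    (D : F) * y ^ 2 = aeval x f ∧ Transcendental ℚ x ∧ ¬ TrN f D G x

attribute [-instance] DivisionRing.toRatAlgebra in
theorem secN_density (f : ℤ[X]) (hf : Irreducible (f.map (Int.castRingHom ℚ)))
    (h5 : 5 ≤ f.natDegree) (hodd : Odd f.natDegree) (ε : ℝ) (hε : 0 < ε) :
    ∃ X0 : ℝ, ∀ X : ℝ, X0 ≤ X →
    (({D : ℤ | (D.natAbs : ℝ) ≤ X ∧ Squarefree D ∧ BdN.{v, w} f D}.ncard : ℕ) : ℝ) ≤ ε * X := by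
  classical
  obtain ⟨hf0, hirr, hdeg, hlc, hlc0⟩ := rev_props hf (by omega)
  obtain ⟨h, hh⟩ : ∃ h : ℤ[X], h = f.reverse := ⟨_, rfl⟩
  rw [← hh] at hirr hdeg hlc
  have hh0 : h.coeff 0 ≠ 0 := by
    rw [hlc]
    exact hlc0
  have hhne : h ≠ 0 := by
    rintro rfl
    exact hh0 rfl
  have hXh : (X * h : ℤ[X]).natDegree = f.natDegree + 1 := by
    rw [natDegree_mul X_ne_zero hhne, natDegree_X, hdeg, add_comm]
  obtain ⟨B, hB, hS⟩ := sechN.{v, w} (J := Empty) (X * h) (fun e => e.elim) (by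
    rw [Finset.univ_eq_empty, Finset.prod_empty, mul_one]
    exact xh_sep hirr hh0) (by rw [hXh]; exact hodd.add_one) (by omega) (fun e => e.elim)
  obtain ⟨A, iA, iA', hA⟩ := closure_ex ℚ
  obtain ⟨X0, hX0⟩ := fin3.{w} h hirr hh0 (by omega) (by rw [hdeg]; exact hodd) A B hB ε hε
  refine ⟨X0, fun X hX => le_trans ?_ (hX0 X hX)⟩
  have hfin : {D : ℤ | (D.natAbs : ℝ) ≤ X ∧ Squarefree D ∧
      ∃ (M : Type w) (_ : Field M) (S : Sec (Polynomial.X * h) A M), S.Good D B ∧ Eqn h D S ∧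
        ¬ RT h D S}.Finite := natAbs_finite X _
  have hsub : {D : ℤ | (D.natAbs : ℝ) ≤ X ∧ Squarefree D ∧ BdN.{v, w} f D} ⊆
      {D : ℤ | (D.natAbs : ℝ) ≤ X ∧ Squarefree D ∧
      ∃ (M : Type w) (_ : Field M) (S : Sec (Polynomial.X * h) A M), S.Good D B ∧ Eqn h D S ∧
        ¬ RT h D S} := by
    rintro D ⟨h1, h2, F, Ω, i1, i2, i3, i4, i5, i6, i7, i8, U, N, x, y, G, hU, hN, hxy, hx, hT⟩
    refine ⟨h1, h2, ?_⟩
    have hx0 : x ≠ 0 := by
      rintro rfl
      exact hx (isAlgebraic_zero)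
    obtain ⟨k, hk⟩ := hodd
    have hev : (D : F) * (y * x⁻¹ ^ (k + 1)) ^ 2 = aeval x⁻¹ (Polynomial.X * h) := by
      rw [mul_pow, ← mul_assoc, hxy, rev_eval f hx0, ← hh, map_mul, aeval_X, hk, ← pow_mul]
      have e1 : x ^ (2 * k + 1) * x⁻¹ ^ ((k + 1) * 2) = x⁻¹ := by
        have e2 : x⁻¹ ^ ((k + 1) * 2) = x⁻¹ ^ (2 * k + 1) * x⁻¹ := by
          rw [← pow_succ]
          congr 1
          ring
        rw [e2, ← mul_assoc, ← mul_pow, mul_inv_cancel₀ hx0, one_pow, one_mul]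
      linear_combination (aeval x⁻¹ h) * e1
    have hx' : Transcendental ℚ x⁻¹ := by
      intro h
      apply hx
      have := h.inv
      rwa [inv_inv] at this
    obtain ⟨S', hG, hs, hι, hxS⟩ := hS D h2 F Ω U hU N hN G x⁻¹ (y * x⁻¹ ^ (k + 1)) (fun e => e.elim)
      hev (fun e => e.elim) hx'
    obtain ⟨e0⟩ := equiv_ex ℚ A Ω
    obtain ⟨e⟩ := @rat_equiv A (algebraicClosure ℚ Ω) _ _ _ (algebraicClosure ℚ Ω).algebra' e0
    refine ⟨_, inferInstance, cS e S', good_cS e hG.good, eqn_cS e ?_, fun hR => hT ?_⟩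
    · refine ⟨algebraMap F (N) (y * x⁻¹ ^ (k + 1)), ?_, ?_⟩
      · intro σ
        rw [hs]
        exact (G.toHom σ).commutes _
      · have h3 := congrArg (algebraMap F (N)) hev
        rw [map_mul (algebraMap F (N)), map_intCast,
          map_pow (algebraMap F (N))] at h3
        rw [h3, hxS, map_mul, aeval_X, map_mul (algebraMap F (N))]
        congr 1
        exact (aeval_algebraMap_apply _ _ _).symm
    · have hR' := rt_cS e hR
      intro θ hθ
      have hθ' : aeval θ f = 0 := by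
        apply (algebraMap (algebraicClosure ℚ Ω) Ω).injective
        rw [map_zero, ← aeval_algebraMap_apply]
        exact hθ
      have hθ0 : θ ≠ 0 := by
        rintro rfl
        have h3 : aeval (0 : algebraicClosure ℚ Ω) f = ((f.coeff 0 : ℤ) : algebraicClosure ℚ Ω) := by
          rw [← coeff_zero_eq_aeval_zero']
          rfl
        rw [h3] at hθ'
        have hch : CharZero (algebraicClosure ℚ Ω) := algebraRat.charZero _
        exact hf0 (by exact_mod_cast hθ')
      have hi : aeval θ⁻¹ h = 0 := by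
        have h3 := rev_eval f hθ0
        rw [hθ', ← hh] at h3
        rcases mul_eq_zero.1 h3.symm with h4 | h4
        · exact absurd h4 (pow_ne_zero _ hθ0)
        · exact h4
      obtain ⟨β, hβ1, hβ2⟩ := hR' θ⁻¹ hi
      refine ⟨β, ?_, ?_⟩
      · have h3 := congrArg (algebraMap (N) Ω) hβ1
        have hx0Ω : algebraMap F Ω x ≠ 0 := (_root_.map_ne_zero _).2 hx0
        have hθ0Ω : (θ : Ω) ≠ 0 := fun h => hθ0 (Subtype.ext h)
        have e1 : algebraMap (N) Ω (S'.ι (-((h.coeff 0 * D : ℤ) :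
            algebraicClosure ℚ Ω) / θ⁻¹)) = -((h.coeff 0 * D : ℤ) : Ω) * (θ : Ω) := by
          have e2 := hι (-((h.coeff 0 * D : ℤ) : algebraicClosure ℚ Ω) / θ⁻¹)
          change ((S'.ι (-((h.coeff 0 * D : ℤ) : algebraicClosure ℚ Ω) / θ⁻¹) :
            N) : Ω) = _
          rw [e2, div_inv_eq_mul]
          push_cast
          rfl
        have e3 : algebraMap (N) Ω (S'.ι θ⁻¹) = (θ : Ω)⁻¹ := by
          change ((S'.ι θ⁻¹ : N) : Ω) = _
          rw [hι]
          push_cast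
          rfl
        have e4 : algebraMap (N) Ω S'.x = (algebraMap F Ω x)⁻¹ := by
          rw [hxS, ← IsScalarTower.algebraMap_apply, map_inv₀]
        rw [map_pow, map_mul, e1, map_div₀, map_sub, e3, e4, hlc] at h3
        change (algebraMap (N) Ω β) ^ 2 = _
        rw [h3]
        field_simp
        ring
      · intro σ hσ
        have h3 := hβ2 σ (by rw [map_inv₀, hσ])
        rw [hs] at h3
        exact h3
  exact_mod_cast Set.ncard_le_ncard hsub hfin

end Pool.Agent.Q161.OD
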