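import Pool.Agent.Q161.OD.Stm

/-! # Project OD: two sections of the same type, general form -/

set_option autoImplicit false

namespace Pool.Agent.Q161.OD

open Polynomial NumberField IsDedekindDomain
open Pool.Agent.W623.SecC (IsU isU_one)
open Pool.Agent.Q51.EL
open Pool.Agent.W620.SC (root_mem)
open Pool.Agent.Q161.SX

universe u v w

/-- the family `e` and the type `(t, lam)` belong to the section `S` -/
structure AttE {f : ℤ[X]} {A : Type} {M : Type v} [Field A] [Algebra ℚ A] [Field M]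
    (S : Sec f A M) (i0 : Rt f A) (e : Rt f A → A) (t : Rt f A → A)
    (lam : (A ≃ₐ[ℚ] A) → Rt f A → A) : Prop where
  e0 : ∀ i, e i ≠ 0
  eσ : ∀ (σ : A ≃ₐ[ℚ] A) i, σ (e i) = e (ra σ i)
  t0 : ∀ i, t i ≠ 0
  ts : ∀ i, t i ∈ spl f A
  ex : ∃ β : Rt f A → M, (∀ i, β i ≠ 0) ∧ (∀ i, S.Fix (spl f A) (β i)) ∧
    (∀ i, S.ι (t i * (e i / e i0)) * β i ^ 2 = (S.x - S.ι i.1) / (S.x - S.ι i0.1)) ∧
    ∀ σ i, S.s σ (β i) * β (ra σ i0) = S.ι (lam σ i) * β (ra σ i)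

section rho

variable {f : ℤ[X]} {A : Type} [Field A] [Algebra ℚ A] [IsAlgClosed A] {N : Type v} [Field N]

/-- the constants which relate the square roots `β i` and `γ i` -/
theorem exists_rhoE (φ : A ≃ₐ[ℚ] A) (i0 r : Rt f A) (e t : Rt f A → A) (lam : Rt f A → A)
    (S : Sec f A N) (β γ : Rt f A → N) (he0 : ∀ i, e i ≠ 0) (ht0 : ∀ i, t i ≠ 0)
    (hβ0 : ∀ i, β i ≠ 0) (hγ0 : ∀ i, γ i ≠ 0) (hr : ra φ r = r)
    (hβ : ∀ i, S.ι (t i * (e i / e i0)) * β i ^ 2 = (S.x - S.ι i.1) / (S.x - S.ι i0.1))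
    (hβs : ∀ i, S.s φ (β i) * β (ra φ i0) = S.ι (lam i) * β (ra φ i))
    (hγ : ∀ i j, i ≠ r → j ≠ r →
        (γ i / γ j) ^ 2 = (S.x - S.ι i.1) / (S.x - S.ι j.1) * S.ι ((r.1 - j.1) / (r.1 - i.1)) ∧
        S.s φ (γ i / γ j) = γ (ra φ i) / γ (ra φ j)) :
    ∃ ρ : Rt f A → Rt f A → A,
      (∀ i j, i ≠ r → j ≠ r → ρ i j ≠ 0 ∧ ρ i j ^ 2 = (r.1 - i.1) / (r.1 - j.1) *
        (t j * e j / (t i * e i))) ∧
      (∀ i j, i ≠ r → j ≠ r → φ (ρ i j) = lam i / lam j * ρ (ra φ i) (ra φ j)) ∧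
      ∀ i j k, i ≠ r → j ≠ r → k ≠ r → ρ i j * ρ j k = ρ i k := by
  classical
  have hx : ∀ a : A, S.x - S.ι a ≠ 0 := fun a h => S.htr a (sub_eq_zero.1 h).symm
  have hne : ∀ {i j : Rt f A}, i ≠ j → i.1 - j.1 ≠ 0 := fun h h' => h (Subtype.ext (sub_eq_zero.1 h'))
  have hι : ∀ {a : A}, a ≠ 0 → S.ι a ≠ 0 := fun h => (_root_.map_ne_zero S.ι).2 h
  have hra : ∀ {i : Rt f A}, i ≠ r → ra φ i ≠ r := by
    intro i hi h
    apply hi
    apply (ra φ).injective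
    rw [h, hr]
  have hsq : ∀ i j, i ≠ r → j ≠ r → ((β i / β j) / (γ i / γ j)) ^ 2 =
      S.ι ((r.1 - i.1) / (r.1 - j.1) * (t j * e j / (t i * e i))) := by
    intro i j hi hj
    have h1 := hβ i
    have h2 := hβ j
    have h3 := (hγ i j hi hj).1
    have hb : (β i / β j) ^ 2 = (S.x - S.ι i.1) / (S.x - S.ι j.1) *
        (S.ι (t j * e j) / S.ι (t i * e i)) := by
      have e1 : S.ι (t i * (e i / e i0)) = S.ι (t i * e i) / S.ι (e i0) := by
        rw [← map_div₀, mul_div_assoc]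
      have e2 : S.ι (t j * (e j / e i0)) = S.ι (t j * e j) / S.ι (e i0) := by
        rw [← map_div₀, mul_div_assoc]
      rw [e1] at h1
      rw [e2] at h2
      have f1 := hι (mul_ne_zero (ht0 i) (he0 i))
      have f2 := hι (mul_ne_zero (ht0 j) (he0 j))
      have f3 := hι (he0 i0)
      have f4 := hβ0 j
      have f5 := hx i.1
      have f6 := hx j.1
      have f7 := hx i0.1
      rw [div_pow, div_eq_iff (pow_ne_zero 2 f4)]
      have g1 : β i ^ 2 = (S.x - S.ι i.1) / (S.x - S.ι i0.1) * S.ι (e i0) / S.ι (t i * e i) := by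
        rw [← h1]
        field_simp
      have g2 : β j ^ 2 = (S.x - S.ι j.1) / (S.x - S.ι i0.1) * S.ι (e i0) / S.ι (t j * e j) := by
        rw [← h2]
        field_simp
      rw [g1, g2]
      field_simp
    have e3 : S.ι ((r.1 - i.1) / (r.1 - j.1) * (t j * e j / (t i * e i))) =
        S.ι (r.1 - i.1) / S.ι (r.1 - j.1) * (S.ι (t j * e j) / S.ι (t i * e i)) := by
      rw [map_mul, map_div₀, map_div₀]
    have e4 : S.ι ((r.1 - j.1) / (r.1 - i.1)) = S.ι (r.1 - j.1) / S.ι (r.1 - i.1) := map_div₀ _ _ _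
    rw [div_pow, hb, h3, e3, e4]
    have f1 := hι (mul_ne_zero (ht0 i) (he0 i))
    have f2 := hι (mul_ne_zero (ht0 j) (he0 j))
    have f5 := hx i.1
    have f6 := hx j.1
    have f8 := hι (hne (Ne.symm hi))
    have f9 := hι (hne (Ne.symm hj))
    field_simp
  have hex : ∀ i j, i ≠ r → j ≠ r → ∃ ρ : A, S.ι ρ = (β i / β j) / (γ i / γ j) :=
    fun i j hi hj => root_mem S.ι (n := 2) (by norm_num) (hsq i j hi hj)
  choose! ρ hρ using hex
  have hlam : ∀ i, lam i ≠ 0 := by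
    intro i h
    have h1 := hβs i
    rw [h, map_zero, zero_mul] at h1
    exact mul_ne_zero ((_root_.map_ne_zero _).2 (hβ0 i)) (hβ0 _) h1
  refine ⟨ρ, ?_, ?_, ?_⟩
  · intro i j hi hj
    constructor
    · intro h
      have h1 := hρ i j hi hj
      rw [h, map_zero] at h1
      exact div_ne_zero (div_ne_zero (hβ0 i) (hβ0 j)) (div_ne_zero (hγ0 i) (hγ0 j)) h1.symm
    · apply S.ι.injective
      rw [map_pow, hρ i j hi hj, hsq i j hi hj]
  · intro i j hi hj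
    apply S.ι.injective
    have h1 := hβs i
    have h2 := hβs j
    have h3 := (hγ i j hi hj).2
    rw [← S.hι, hρ i j hi hj, map_mul, hρ _ _ (hra hi) (hra hj), map_div₀, h3, map_div₀, map_div₀]
    have g1 : S.s φ (β i) = S.ι (lam i) * β (ra φ i) / β (ra φ i0) := by
      rw [← h1]
      field_simp [hβ0 (ra φ i0)]
    have g2 : S.s φ (β j) = S.ι (lam j) * β (ra φ j) / β (ra φ i0) := by
      rw [← h2]
      field_simp [hβ0 (ra φ i0)]
    rw [g1, g2]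
    have f1 := hβ0 (ra φ i0)
    have f2 := hβ0 (ra φ i)
    have f3 := hβ0 (ra φ j)
    have f4 := hι (hlam i)
    have f5 := hι (hlam j)
    have f6 := hγ0 (ra φ i)
    have f7 := hγ0 (ra φ j)
    field_simp
  · intro i j k hi hj hk
    apply S.ι.injective
    rw [map_mul, hρ i j hi hj, hρ j k hj hk, hρ i k hi hk]
    have f1 := hβ0 i
    have f2 := hβ0 j
    have f3 := hβ0 k
    have f4 := hγ0 i
    have f5 := hγ0 j
    have f6 := hγ0 k
    field_simp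

end rho

/-- compatible square roots of the products, for two sections of the same type -/
theorem tyE {f : ℤ[X]} {A : Type} [Field A] [Algebra ℚ A] [IsAlgClosed A] {l : ℕ} (hl : l.Prime)
    (hl2 : l ≠ 2) {V : ValuationSubring A} {φ : A ≃ₐ[ℚ] A} (hV : (l : A) ∈ V.nonunits)
    (hφ : Frb V l φ) (i0 r : Rt f A) (t : Rt f A → A) (lam : (A ≃ₐ[ℚ] A) → Rt f A → A)
    (M : Type v) (M' : Type w) [Field M] [Field M'] (S : Sec f A M) (S' : Sec f A M')
    (e e' : Rt f A → A) (hA : AttE S i0 e t lam) (hA' : AttE S' i0 e' t lam) (hr : ra φ r = r)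
    (hγ : Can S r φ) (hγ' : Can S' r φ) :
    ∃ (c : ℤ) (z : Rt f A → A), ¬ (l : ℤ) ∣ c ∧
      ∀ i, i ≠ r → z i ^ 2 = c * (e i * e' i) ∧ φ (z i) = z (ra φ i) := by
  obtain ⟨β, hβ0, hβF, hβ, hβs⟩ := hA.ex
  obtain ⟨β', hβ0', hβF', hβ', hβs'⟩ := hA'.ex
  obtain ⟨γ, hγ0, hγ⟩ := hγ
  obtain ⟨γ', hγ0', hγ'⟩ := hγ'
  have h1l : ¬ (l : ℤ) ∣ 1 := by
    intro h
    have h1 : l ∣ 1 := by exact_mod_cast h
    exact hl.one_lt.ne' (Nat.dvd_one.1 h1)
  by_cases hb : ∃ b : Rt f A, b ≠ r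
  swap
  · push Not at hb
    exact ⟨1, fun _ => 0, h1l, fun i hi => absurd (hb i) hi⟩
  obtain ⟨b, hb⟩ := hb
  have hne : ∀ {i j : Rt f A}, i ≠ j → i.1 - j.1 ≠ 0 := fun h h' => h (Subtype.ext (sub_eq_zero.1 h'))
  have hra : ∀ {i : Rt f A}, i ≠ r → ra φ i ≠ r := by
    intro i hi h
    apply hi
    apply (ra φ).injective
    rw [h, hr]
  obtain ⟨ρ, hρ1, hρ2, hρ3⟩ := exists_rhoE φ i0 r e t (lam φ) S β γ hA.e0 hA.t0 hβ0 hγ0 hr hβ
    (hβs φ) hγ
  obtain ⟨ρ', hρ1', hρ2', hρ3'⟩ := exists_rhoE φ i0 r e' t (lam φ) S' β' γ' hA'.e0 hA'.t0 hβ0'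
    hγ0' hr hβ' (hβs' φ) hγ'
  have hlam : ∀ i, lam φ i ≠ 0 := by
    intro i h
    have h1 := hβs φ i
    rw [h, map_zero, zero_mul] at h1
    exact mul_ne_zero ((_root_.map_ne_zero _).2 (hβ0 i)) (hβ0 _) h1
  -- the elements `K i k`
  set K : Rt f A → Rt f A → A := fun i k => ρ i k / ρ' i k * (e' k / e' i) with hK
  have hK2 : ∀ i k, i ≠ r → k ≠ r → K i k ^ 2 = (e k * e' k) / (e i * e' i) := by
    intro i k hi hk
    have h1 := (hρ1 i k hi hk).2
    have h2 := (hρ1' i k hi hk).2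
    simp only [hK]
    rw [mul_pow, div_pow, div_pow, h1, h2]
    have f1 := hne (Ne.symm hi)
    have f2 := hne (Ne.symm hk)
    have f3 := hA.t0 i
    have f4 := hA.t0 k
    have f5 := hA.e0 i
    have f6 := hA.e0 k
    have f7 := hA'.e0 i
    have f8 := hA'.e0 k
    field_simp
  have hKφ : ∀ i k, i ≠ r → k ≠ r → φ (K i k) = K (ra φ i) (ra φ k) := by
    intro i k hi hk
    simp only [hK]
    rw [map_mul, map_div₀, map_div₀, hρ2 i k hi hk, hρ2' i k hi hk, hA'.eσ, hA'.eσ]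
    congr 1
    rw [mul_div_mul_left]
    exact div_ne_zero (hlam i) (hlam k)
  have hKc : ∀ i j k, i ≠ r → j ≠ r → k ≠ r → K i j * K j k = K i k := by
    intro i j k hi hj hk
    simp only [hK]
    rw [← hρ3 i j k hi hj hk, ← hρ3' i j k hi hj hk]
    have f1 := (hρ1' i j hi hj).1
    have f2 := (hρ1' j k hj hk).1
    have f7 := hA'.e0 i
    have f8 := hA'.e0 j
    field_simp
  -- square roots of the `h i`
  set h : Rt f A → A := fun i => e i * e' i with hh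
  have hh0 : ∀ i, h i ≠ 0 := fun i => mul_ne_zero (hA.e0 i) (hA'.e0 i)
  have hhφ : ∀ i, φ (h i) = h (ra φ i) := by
    intro i
    simp only [hh]
    rw [map_mul, hA.eσ, hA'.eσ]
  obtain ⟨ρb, hρb⟩ := IsAlgClosed.exists_pow_nat_eq (h b) (n := 2) (by norm_num)
  set g : Rt f A → A := fun i => ρb * K b i with hg
  have hg2 : ∀ i, i ≠ r → g i ^ 2 = h i := by
    intro i hi
    simp only [hg]
    rw [mul_pow, hρb, hK2 b i hb hi]
    change h b * (h i / h b) = h i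
    field_simp [hh0 b]
  have hφb : (φ ρb) ^ 2 = (ρb * K b (ra φ b)) ^ 2 := by
    rw [← map_pow, hρb, hhφ, mul_pow, hρb, hK2 b _ hb (hra hb)]
    change _ = h b * (h (ra φ b) / h b)
    field_simp [hh0 b]
  obtain ⟨ε, hε, hgφ⟩ : ∃ ε : A, (ε = 1 ∨ ε = -1) ∧ ∀ i, i ≠ r → φ (g i) = ε * g (ra φ i) := by
    rcases sq_eq_sq_iff_eq_or_eq_neg.1 hφb with h1 | h1
    · refine ⟨1, Or.inl rfl, fun i hi => ?_⟩
      simp only [hg]
      rw [map_mul, h1, hKφ b i hb hi, mul_assoc, hKc b _ _ hb (hra hb) (hra hi), one_mul]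
    · refine ⟨-1, Or.inr rfl, fun i hi => ?_⟩
      simp only [hg]
      rw [map_mul, h1, hKφ b i hb hi, neg_mul, mul_assoc, hKc b _ _ hb (hra hb) (hra hi), neg_one_mul]
  -- the twist
  obtain ⟨c, w, hc, hw, hφw⟩ : ∃ (c : ℤ) (w : A), ¬ (l : ℤ) ∣ c ∧ w ^ 2 = (c : A) ∧ φ w = ε * w := by
    rcases hε with rfl | rfl
    · exact ⟨1, 1, h1l, by norm_num, by rw [map_one, one_mul]⟩
    · obtain ⟨c, w, h1, h2, h3⟩ := exists_twist hl hl2 hV φ hφ
      exact ⟨c, w, h1, h2, by rw [h3, neg_one_mul]⟩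
  have hε2 : ε * ε = 1 := by
    rcases hε with rfl | rfl <;> ring
  refine ⟨c, fun i => w * g i, hc, fun i hi => ⟨?_, ?_⟩⟩
  · change (w * g i) ^ 2 = _
    rw [mul_pow, hw, hg2 i hi]
  · change φ (w * g i) = w * g (ra φ i)
    rw [map_mul, hφw, hgφ i hi]
    linear_combination (w * g (ra φ i)) * hε2

theorem lam_aux {M : Type v} [Field M] {Xi X0 Xz P Q R L : M} (hXi : Xi ≠ 0) (hX0 : X0 ≠ 0)
    (hXz : Xz ≠ 0) (hP : P ≠ 0) (hQ : Q ≠ 0) (hR : R ≠ 0)
    (h : Xi / X0 / P * (X0 / Xz / R) = L ^ 2 * (Xi / Xz / Q)) : Q = L ^ 2 * P * R := by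
  field_simp at h
  linear_combination h

/-- the relations satisfied by `lam` -/
theorem lamE {f : ℤ[X]} {A : Type} [Field A] [Algebra ℚ A] {M : Type v} [Field M] {S : Sec f A M}
    {i0 : Rt f A} {e t : Rt f A → A} {lam : (A ≃ₐ[ℚ] A) → Rt f A → A}
    (hA : AttE S i0 e t lam) :
    (∀ σ i, lam σ i ^ 2 * σ (t i) * t (ra σ i0) = t (ra σ i)) ∧
    (∀ σ τ : A ≃ₐ[ℚ] A, (∀ z ∈ spl f A, σ z = τ z) → lam σ = lam τ) ∧
    ∀ σ : A ≃ₐ[ℚ] A, σ ∈ (spl f A).fixingSubgroup → ∀ i j, lam σ i = lam σ j := by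
  obtain ⟨β, hβ0, hβF, hβ, hβs⟩ := hA.ex
  have hx : ∀ a : A, S.x - S.ι a ≠ 0 := fun a h => S.htr a (sub_eq_zero.1 h).symm
  have hι : ∀ {a : A}, a ≠ 0 → S.ι a ≠ 0 := fun h => (_root_.map_ne_zero S.ι).2 h
  refine ⟨?_, ?_, ?_⟩
  · intro σ i
    have h1 := congrArg (S.s σ) (hβ i)
    rw [map_mul, map_pow, map_div₀, map_sub, map_sub, S.hι, S.hι, S.hι, S.hx] at h1
    have h2 := hβ (ra σ i)
    have h3 := hβ (ra σ i0)
    have h4 := congrArg (fun z => z ^ 2) (hβs σ i)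
    simp only [mul_pow] at h4
    have a1 := hA.t0 i
    have a2 := hA.t0 (ra σ i)
    have a3 := hA.t0 (ra σ i0)
    have b1 := hA.e0 (ra σ i)
    have b2 := hA.e0 (ra σ i0)
    have b3 := hA.e0 i0
    have a1' := (_root_.map_ne_zero σ).2 a1
    have q1 : σ (t i * (e i / e i0)) = σ (t i) * (e (ra σ i) / e (ra σ i0)) := by
      rw [map_mul, map_div₀, hA.eσ, hA.eσ]
    rw [q1] at h1
    have c1 : S.ι (σ (t i) * (e (ra σ i) / e (ra σ i0))) ≠ 0 :=
      hι (mul_ne_zero a1' (div_ne_zero b1 b2))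
    have c2 : S.ι (t (ra σ i) * (e (ra σ i) / e i0)) ≠ 0 := hι (mul_ne_zero a2 (div_ne_zero b1 b3))
    have c3 : S.ι (t (ra σ i0) * (e (ra σ i0) / e i0)) ≠ 0 := hι (mul_ne_zero a3 (div_ne_zero b2 b3))
    have d1 := hx (ra σ i).1
    have d2 := hx (ra σ i0).1
    have d3 := hx i0.1
    have g1 : (S.s σ (β i)) ^ 2 = (S.x - S.ι (ra σ i).1) / (S.x - S.ι (ra σ i0).1) /
        S.ι (σ (t i) * (e (ra σ i) / e (ra σ i0))) := by
      rw [eq_div_iff c1, mul_comm]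
      exact h1
    have g2 : β (ra σ i) ^ 2 = (S.x - S.ι (ra σ i).1) / (S.x - S.ι i0.1) /
        S.ι (t (ra σ i) * (e (ra σ i) / e i0)) := by
      rw [eq_div_iff c2, mul_comm]
      exact h2
    have g3 : β (ra σ i0) ^ 2 = (S.x - S.ι (ra σ i0).1) / (S.x - S.ι i0.1) /
        S.ι (t (ra σ i0) * (e (ra σ i0) / e i0)) := by
      rw [eq_div_iff c3, mul_comm]
      exact h3
    rw [g1, g2, g3] at h4
    apply S.ι.injective
    have h5 := lam_aux d1 d2 d3 c1 c2 c3 h4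
    have h6 : S.ι (t (ra σ i) * (e (ra σ i) / e i0)) =
        S.ι (lam σ i ^ 2 * (σ (t i) * (e (ra σ i) / e (ra σ i0))) *
          (t (ra σ i0) * (e (ra σ i0) / e i0))) := by
      rw [h5, map_mul S.ι (lam σ i ^ 2 * (σ (t i) * (e (ra σ i) / e (ra σ i0)))),
        map_mul S.ι (lam σ i ^ 2), map_pow]
    have h7 := S.ι.injective h6
    congr 1
    have h8 : t (ra σ i) * (e (ra σ i) / e i0) =
        (lam σ i ^ 2 * σ (t i) * t (ra σ i0)) * (e (ra σ i) / e i0) := by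
      rw [h7]
      field_simp
    exact (mul_right_cancel₀ (div_ne_zero b1 b3) h8).symm
  · intro σ τ h
    have hra : ∀ i : Rt f A, ra σ i = ra τ i := fun i => Subtype.ext (h _ (rt_mem i))
    have hs : ∀ i, S.s σ (β i) = S.s τ (β i) := by
      intro i
      have h1 : τ⁻¹ * σ ∈ (spl f A).fixingSubgroup := by
        rw [IntermediateField.mem_fixingSubgroup_iff]
        intro z hz
        change τ.symm (σ z) = z
        rw [h z hz, τ.symm_apply_apply]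
      have h2 := hβF i _ h1
      have h3 : σ = τ * (τ⁻¹ * σ) := by group
      rw [h3, map_mul]
      change S.s τ (S.s (τ⁻¹ * σ) (β i)) = _
      rw [h2]
    funext i
    have h1 := hβs σ i
    have h2 := hβs τ i
    rw [hra, hra, hs] at h1
    rw [h1] at h2
    exact S.ι.injective (mul_right_cancel₀ (hβ0 _) h2)
  · intro σ hσ i j
    have hfix := (IntermediateField.mem_fixingSubgroup_iff _ _).1 hσ
    have hra : ∀ i : Rt f A, ra σ i = i := fun i => Subtype.ext (hfix _ (rt_mem i))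
    have key : ∀ i, S.ι (lam σ i) = β i0 := by
      intro i
      have h1 := hβs σ i
      rw [hra, hra, hβF i σ hσ, mul_comm] at h1
      exact (mul_right_cancel₀ (hβ0 i) h1).symm
    exact S.ι.injective ((key i).trans (key j).symm)

end Pool.Agent.Q161.OD
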